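import Pool.Agent.SQF.Base

set_option autoImplicit false
set_option linter.unusedSectionVars false
set_option linter.unusedVariables false
set_option linter.unusedDecidableInType false

/-! [SQF-B1] basic facts on 3- and 4-cycles given by their edge sets -/

open Finset
open scoped Classical

namespace SQF

variable {V : Type} [Fintype V] [DecidableEq V] {G : SimpleGraph V} {T : Prop}

theorem on_left {E : Finset (Sym2 V)} {x y : V} (h : s(x, y) ∈ E) : On x E := ⟨_, h, by simp⟩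

theorem on_right {E : Finset (Sym2 V)} {x y : V} (h : s(x, y) ∈ E) : On y E := ⟨_, h, by simp⟩

/-- the edges of a cycle are edges of the graph -/
theorem Cyc.adj {E : Finset (Sym2 V)} (h : Cyc G T E) {x y : V} (hxy : s(x, y) ∈ E) : G.Adj x y := by
  rcases h with ⟨_, a, b, c, h1, h2, h3, rfl⟩ | ⟨a, b, c, d, _, _, h1, h2, h3, h4, rfl⟩
  · simp only [mem_insert, mem_singleton, Sym2.eq_iff] at hxy
    rcases hxy with (⟨rfl, rfl⟩ | ⟨rfl, rfl⟩) | (⟨rfl, rfl⟩ | ⟨rfl, rfl⟩) | (⟨rfl, rfl⟩ | ⟨rfl, rfl⟩) <;>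
      first | assumption | (apply SimpleGraph.Adj.symm; assumption)
  · simp only [mem_insert, mem_singleton, Sym2.eq_iff] at hxy
    rcases hxy with (⟨rfl, rfl⟩ | ⟨rfl, rfl⟩) | (⟨rfl, rfl⟩ | ⟨rfl, rfl⟩) | (⟨rfl, rfl⟩ | ⟨rfl, rfl⟩) |
      (⟨rfl, rfl⟩ | ⟨rfl, rfl⟩) <;> first | assumption | (apply SimpleGraph.Adj.symm; assumption)

/-- the labelled forms of a cycle through `c` -/
theorem Cyc.at {E : Finset (Sym2 V)} (h : Cyc G T E) {c : V} (hc : On c E) :
    (T ∧ ∃ x y, G.Adj c x ∧ G.Adj x y ∧ G.Adj y c ∧ E = {s(c, x), s(x, y), s(y, c)}) ∨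
    (∃ x a y, c ≠ a ∧ x ≠ y ∧ G.Adj c x ∧ G.Adj x a ∧ G.Adj a y ∧ G.Adj y c ∧
      E = {s(c, x), s(x, a), s(a, y), s(y, c)}) := by
  rcases h with ⟨hT, a, b, d, h1, h2, h3, rfl⟩ | ⟨a, b, d, e, n1, n2, h1, h2, h3, h4, rfl⟩
  · left
    refine ⟨hT, ?_⟩
    obtain ⟨e, he, hce⟩ := hc
    simp only [mem_insert, mem_singleton] at he
    have key : c = a ∨ c = b ∨ c = d := by
      rcases he with rfl | rfl | rfl <;> simp only [Sym2.mem_iff] at hce <;> tauto
    rcases key with rfl | rfl | rfl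
    · exact ⟨b, d, h1, h2, h3, rfl⟩
    · refine ⟨d, a, h2, h3, h1, ?_⟩
      ext z; simp only [mem_insert, mem_singleton]; tauto
    · refine ⟨a, b, h3, h1, h2, ?_⟩
      ext z; simp only [mem_insert, mem_singleton]; tauto
  · right
    obtain ⟨f, he, hce⟩ := hc
    simp only [mem_insert, mem_singleton] at he
    have key : c = a ∨ c = b ∨ c = d ∨ c = e := by
      rcases he with rfl | rfl | rfl | rfl <;> simp only [Sym2.mem_iff] at hce <;> tauto
    rcases key with rfl | rfl | rfl | rfl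
    · exact ⟨b, d, e, n1, n2, h1, h2, h3, h4, rfl⟩
    · refine ⟨d, e, a, n2, n1.symm, h2, h3, h4, h1, ?_⟩
      ext z; simp only [mem_insert, mem_singleton]; tauto
    · refine ⟨e, a, b, n1.symm, n2.symm, h3, h4, h1, h2, ?_⟩
      ext z; simp only [mem_insert, mem_singleton]; tauto
    · refine ⟨a, b, d, n2.symm, n1, h4, h1, h2, h3, ?_⟩
      ext z; simp only [mem_insert, mem_singleton]; tauto

/-- the vertices of a triangle -/
theorem on_tri {a b c v : V} : On v ({s(a, b), s(b, c), s(c, a)} : Finset (Sym2 V)) ↔ v = a ∨ v = b ∨ v = c := by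
  constructor
  · rintro ⟨e, he, hve⟩
    simp only [mem_insert, mem_singleton] at he
    rcases he with rfl | rfl | rfl <;> simp only [Sym2.mem_iff] at hve <;> tauto
  · rintro (rfl | rfl | rfl)
    · exact ⟨s(v, b), by simp, by simp⟩
    · exact ⟨s(a, v), by simp, by simp⟩
    · exact ⟨s(b, v), by simp, by simp⟩

/-- the vertices of a 4-cycle -/
theorem on_sq {a b c d v : V} : On v ({s(a, b), s(b, c), s(c, d), s(d, a)} : Finset (Sym2 V)) ↔
    v = a ∨ v = b ∨ v = c ∨ v = d := by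
  constructor
  · rintro ⟨e, he, hve⟩
    simp only [mem_insert, mem_singleton] at he
    rcases he with rfl | rfl | rfl | rfl <;> simp only [Sym2.mem_iff] at hve <;> tauto
  · rintro (rfl | rfl | rfl | rfl)
    · exact ⟨s(v, b), by simp, by simp⟩
    · exact ⟨s(a, v), by simp, by simp⟩
    · exact ⟨s(b, v), by simp, by simp⟩
    · exact ⟨s(c, v), by simp, by simp⟩

/-- every vertex of a cycle has exactly two neighbours on it -/
theorem Cyc.two {E : Finset (Sym2 V)} (h : Cyc G T E) {v : V} (hv : On v E) :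
    ∃ u w, u ≠ w ∧ s(v, u) ∈ E ∧ s(v, w) ∈ E ∧ ∀ x, s(v, x) ∈ E → x = u ∨ x = w := by
  rcases h.at hv with ⟨_, x, y, h1, h2, h3, rfl⟩ | ⟨x, a, y, n1, n2, h1, h2, h3, h4, rfl⟩
  · have e1 := h1.ne
    have e2 := h2.ne
    have e3 := h3.ne
    refine ⟨x, y, e2, by simp, by rw [Sym2.eq_swap]; simp, ?_⟩
    intro z hz
    simp only [mem_insert, mem_singleton, Sym2.eq_iff] at hz
    have e3' := e3.symm
    tauto
  · have e1 := h1.ne
    have e2 := h2.ne
    have e3 := h3.ne
    have e4 := h4.ne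
    refine ⟨x, y, n2, by simp, by rw [Sym2.eq_swap]; simp, ?_⟩
    intro z hz
    simp only [mem_insert, mem_singleton, Sym2.eq_iff] at hz
    have e4' := e4.symm
    tauto

theorem card_tri {a b c : V} (h1 : a ≠ b) (h2 : b ≠ c) (h3 : c ≠ a) :
    ({s(a, b), s(b, c), s(c, a)} : Finset (Sym2 V)).card = 3 := by
  rw [card_insert_of_notMem, card_pair]
  · simp only [ne_eq, Sym2.eq_iff]; tauto
  · simp only [mem_insert, mem_singleton, Sym2.eq_iff]; tauto

theorem card_sq {a b c d : V} (h1 : a ≠ b) (h2 : b ≠ c) (h3 : c ≠ d) (h4 : d ≠ a) (h5 : a ≠ c) (h6 : b ≠ d) :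
    ({s(a, b), s(b, c), s(c, d), s(d, a)} : Finset (Sym2 V)).card = 4 := by
  rw [card_insert_of_notMem, card_insert_of_notMem, card_pair]
  · simp only [ne_eq, Sym2.eq_iff]; tauto
  · simp only [mem_insert, mem_singleton, Sym2.eq_iff]; tauto
  · simp only [mem_insert, mem_singleton, Sym2.eq_iff]; tauto

theorem dg_mono {R S : V → V → Prop} (h : ∀ u v, R u v → S u v) (v : V) : dg R v ≤ dg S v :=
  card_le_card (fun u hu => by
    simp only [mem_filter, mem_univ, true_and] at hu ⊢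
    exact h v u hu)

end SQF
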