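import Pool.Agent.SQF.B1

set_option autoImplicit false
set_option linter.unusedSectionVars false
set_option linter.unusedVariables false
set_option linter.unusedDecidableInType false

/-! [SQF-B2] definitions for the clusters -/

open Finset
open scoped Classical

namespace SQF

variable {V : Type} [Fintype V] [DecidableEq V]

/-- out-degree (0 or 1) plus in-degree of the partial function `t` -/
noncomputable def tc (t : V → Option V) (w : V) : ℕ :=
  (if t w = none then 0 else 1) + (univ.filter (fun v => t v = some w)).card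

/-- no forbidden cycle through `c` in the relation `I` -/
structure NoC (T : Prop) (c : V) (I : V → V → Prop) : Prop where
  tri : T → ∀ x y, ¬ (I c x ∧ I x y ∧ I y c)
  sq : ∀ x a y, x ≠ y → a ≠ c → ¬ (I c x ∧ I x a ∧ I a y ∧ I y c)

/-- the cluster with centre `c`, neighbours `P` of `c`, other vertices `A`, edges `K` -/
structure Shape (T : Prop) (c : V) (P A : Finset V) (K : V → V → Prop) : Prop where
  sym : ∀ u v, K u v → K v u
  irr : ∀ u, ¬ K u u
  cP : ∀ x, K c x ↔ x ∈ P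
  aP : ∀ a ∈ A, ∀ x, K a x ↔ x ∈ P
  sup : ∀ u v, K u v → u = c ∨ u ∈ P ∨ u ∈ A
  cnP : c ∉ P
  cnA : c ∉ A
  dis : ∀ x ∈ P, x ∉ A
  ppT : (∃ x ∈ P, ∃ y ∈ P, K x y) → T
  cases : P.card = 2 ∨ (P.card = 3 ∧ A.card = 1 ∧ ∀ x ∈ P, ∀ y ∈ P, ¬ K x y) ∨
    (P.card = 3 ∧ A = ∅ ∧ ∀ x ∈ P, ∀ y ∈ P, ∀ z ∈ P, x ≠ y → y ≠ z → x ≠ z → K x y ∨ K y z)

/-- the cluster `K_4` with centre `c` -/
structure Shape4 (c : V) (P : Finset V) (K : V → V → Prop) : Prop where
  three : P.card = 3
  cnP : c ∉ P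
  iff : ∀ u v, K u v ↔ u ≠ v ∧ (u = c ∨ u ∈ P) ∧ (v = c ∨ v ∈ P)

/-- a valid partial function for a shape -/
structure Val (c : V) (P A : Finset V) (K : V → V → Prop) (t : V → Option V) : Prop where
  sup : ∀ v u, t v = some u → v ∈ P ∨ v ∈ A
  vA : ∀ a ∈ A, ∀ u, t a = some u → u ∈ P
  vP : ∀ x ∈ P, ∀ u, t x = some u → u = c ∨ u ∈ A ∨ (u ∈ P ∧ u ≠ x ∧ ∃ y ∈ P, ∃ z ∈ P, K y z)

/-- contribution of the extra flexible edge -/
noncomputable def qc (q : Option (V × V)) (w : V) : ℕ :=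
  match q with
  | none => 0
  | some p => (if p.1 = w then 1 else 0) + (if p.2 = w then 1 else 0)

/-- valid choice for the flexible edges of the cluster of `c` -/
def Psi (G : SimpleGraph V) (T : Prop) (c : V) (ψ : V × Bool → Option V) : Prop :=
  (∀ v s, ψ (v, s) = none → ψ (v, !s) = none) ∧ ∀ v s w, ψ (v, s) = some w → w ∈ sl G T c v s

end SQF
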