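import Mathlib

set_option autoImplicit false
set_option linter.unusedSectionVars false
set_option linter.unusedVariables false
set_option linter.unusedDecidableInType false

/-! [SQF] 2-factors without 4-cycles (and without triangles): definitions.

Graphs are `SimpleGraph V` on a finite type. A cycle is given by its set of edges `E : Finset (Sym2 V)`.
The proposition `T` says whether triangles are forbidden too. -/

open Finset
open scoped Classical

namespace SQF

variable {V : Type} [Fintype V] [DecidableEq V]

/-- `v` is a vertex of the edge set `E` -/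
def On (v : V) (E : Finset (Sym2 V)) : Prop := ∃ e ∈ E, v ∈ e

/-- number of `u` with `R v u` -/
noncomputable def dg (R : V → V → Prop) (v : V) : ℕ := (univ.filter (fun u => R v u)).card

/-- `E` is the edge set of a 4-cycle of `G`, or (if `T`) of a triangle of `G` -/
def Cyc (G : SimpleGraph V) (T : Prop) (E : Finset (Sym2 V)) : Prop :=
  (T ∧ ∃ a b c : V, G.Adj a b ∧ G.Adj b c ∧ G.Adj c a ∧ E = {s(a, b), s(b, c), s(c, a)}) ∨
  (∃ a b c d : V, a ≠ c ∧ b ≠ d ∧ G.Adj a b ∧ G.Adj b c ∧ G.Adj c d ∧ G.Adj d a ∧
    E = {s(a, b), s(b, c), s(c, d), s(d, a)})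

/-- number of neighbours of `e` outside `E` -/
noncomputable def out (G : SimpleGraph V) (E : Finset (Sym2 V)) (e : V) : ℕ :=
  (univ.filter (fun w => G.Adj e w ∧ ¬ On w E)).card

/-- a cycle that can be avoided for a local reason: a vertex outside `E` has at most one neighbour outside `E`,
or there is a 4-cycle `x y e f` with `x y` in `E`, `e`, `f` outside `E` and `e` has at most two neighbours outside `E` -/
def Avoid (G : SimpleGraph V) (E : Finset (Sym2 V)) : Prop :=
  (∃ e : V, ¬ On e E ∧ out G E e ≤ 1) ∨
  (∃ x y e f : V, s(x, y) ∈ E ∧ G.Adj y e ∧ G.Adj e f ∧ G.Adj f x ∧ ¬ On e E ∧ ¬ On f E ∧ out G E e ≤ 2)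

/-- dangerous cycles -/
def Dang (G : SimpleGraph V) (T : Prop) (E : Finset (Sym2 V)) : Prop := Cyc G T E ∧ ¬ Avoid G E

/-- degree at most 3 -/
def Light (G : SimpleGraph V) (v : V) : Prop := dg G.Adj v ≤ 3

/-- the class of graphs -/
structure Good (G : SimpleGraph V) (T : Prop) : Prop where
  light : ∀ E, Dang G T E → ∃ v, On v E ∧ Light G v
  share : ∀ E E', Dang G T E → Dang G T E' → (E ∩ E').card = 1 → E.card = 3 ∧ E'.card = 3

/-- `C` : light vertices, exactly one on each dangerous cycle -/
structure Rep (G : SimpleGraph V) (T : Prop) (C : Finset V) : Prop where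
  light : ∀ c ∈ C, Light G c
  hit : ∀ E, Dang G T E → ∃ c ∈ C, On c E
  indep : ∀ E, Dang G T E → ∀ c ∈ C, ∀ c' ∈ C, On c E → On c' E → c = c'

/-- `u v` is an edge of a dangerous cycle through `c` -/
def Ec (G : SimpleGraph V) (T : Prop) (c u v : V) : Prop := ∃ E, Dang G T E ∧ On c E ∧ s(u, v) ∈ E

/-- the neighbours of `c` in the cluster of `c` -/
noncomputable def Pc (G : SimpleGraph V) (T : Prop) (c : V) : Finset V := univ.filter (fun x => Ec G T c c x)

/-- the other vertices of the cluster of `c` -/
noncomputable def Ac (G : SimpleGraph V) (T : Prop) (c : V) : Finset V :=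
  univ.filter (fun a => a ≠ c ∧ a ∉ Pc G T c ∧ ∃ x, Ec G T c a x)

/-- two vertices of `Pc` are joined in the cluster -/
def pp (G : SimpleGraph V) (T : Prop) (c : V) : Prop := ∃ x ∈ Pc G T c, ∃ y ∈ Pc G T c, Ec G T c x y

/-- the vertices to which the side `s` of the flexible edge `v` of the cluster of `c` may be attached -/
noncomputable def sl (G : SimpleGraph V) (T : Prop) (c v : V) (s : Bool) : Finset V :=
  if v = c then (if ¬ T ∧ pp G T c then Pc G T c else ∅)
  else if v ∈ Pc G T c then
    (if s then insert c (Ac G T c) ∪ (if T ∧ pp G T c then (Pc G T c).erase v else ∅) else {v})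
  else if v ∈ Ac G T c then (if s then Pc G T c else {v})
  else ∅

/-- the ordinary edges: in no cluster -/
def Ord (G : SimpleGraph V) (T : Prop) (C : Finset V) (u v : V) : Prop := G.Adj u v ∧ ∀ c ∈ C, ¬ Ec G T c u v

section general

variable {N : Type} [Fintype N]

/-- two copies of every vertex; node `n` is joined to both copies of the vertices of `S n` and to its partner `σ n` -/
def HG (σ : N → N) (S : N → Finset V) : SimpleGraph ((V × Bool) ⊕ N) where
  Adj a b := match a, b with
    | Sum.inl _, Sum.inl _ => False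
    | Sum.inl v, Sum.inr n => v.1 ∈ S n
    | Sum.inr n, Sum.inl v => v.1 ∈ S n
    | Sum.inr n, Sum.inr m => n ≠ m ∧ (σ n = m ∨ σ m = n)
  symm := ⟨by
    intro a b h
    rcases a with a | a <;> rcases b with b | b
    · exact h
    · exact h
    · exact h
    · exact ⟨h.1.symm, h.2.symm⟩⟩
  loopless := ⟨by
    intro a h
    rcases a with a | a
    · exact h
    · exact h.1 rfl⟩

/-- an assignment: every node is attached to a vertex of its set, or it and its partner are not attached -/
structure Asg (σ : N → N) (S : N → Finset V) (φ : N → Option V) : Prop where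
  non : ∀ n, φ n = none → φ (σ n) = none
  mem : ∀ n v, φ n = some v → v ∈ S n

/-- number of nodes attached to `v` -/
noncomputable def cnt (φ : N → Option V) (v : V) : ℕ := (univ.filter (fun n => φ n = some v)).card

end general

/-- the nodes of the auxiliary graph: ordinary edges with a direction, and the two sides of the flexible edges -/
abbrev Node (G : SimpleGraph V) (T : Prop) (C : Finset V) : Type :=
  {p : V × V // Ord G T C p.1 p.2} ⊕ ({c : V // c ∈ C} × (V × Bool))

theorem Cyc.mono {F G : SimpleGraph V} (h : F ≤ G) {T : Prop} {E : Finset (Sym2 V)} (hE : Cyc F T E) :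
    Cyc G T E := by
  rcases hE with ⟨hT, a, b, c, h1, h2, h3, h4⟩ | ⟨a, b, c, d, h1, h2, h3, h4, h5, h6, h7⟩
  · exact Or.inl ⟨hT, a, b, c, h h1, h h2, h h3, h4⟩
  · exact Or.inr ⟨a, b, c, d, h1, h2, h h3, h h4, h h5, h h6, h7⟩

theorem Ec.symm {G : SimpleGraph V} {T : Prop} {c u v : V} (h : Ec G T c u v) : Ec G T c v u := by
  obtain ⟨E, h1, h2, h3⟩ := h
  exact ⟨E, h1, h2, by rw [Sym2.eq_swap]; exact h3⟩

theorem Ord.symm {G : SimpleGraph V} {T : Prop} {C : Finset V} {u v : V} (h : Ord G T C u v) :
    Ord G T C v u := ⟨h.1.symm, fun c hc h' => h.2 c hc h'.symm⟩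

/-- partner of a node -/
def sg (G : SimpleGraph V) (T : Prop) (C : Finset V) : Node G T C → Node G T C
  | Sum.inl p => Sum.inl ⟨(p.1.2, p.1.1), p.2.symm⟩
  | Sum.inr q => Sum.inr (q.1, (q.2.1, !q.2.2))

/-- the set of a node -/
noncomputable def st (G : SimpleGraph V) (T : Prop) (C : Finset V) : Node G T C → Finset V
  | Sum.inl p => {p.1.1}
  | Sum.inr q => sl G T q.1.1 q.2.1 q.2.2

/-- the auxiliary graph -/
noncomputable def aux (G : SimpleGraph V) (T : Prop) (C : Finset V) : SimpleGraph ((V × Bool) ⊕ Node G T C) :=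
  HG (sg G T C) (st G T C)

end SQF
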