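import Pool.Agent.SQF.B1

set_option autoImplicit false
set_option linter.unusedSectionVars false
set_option linter.unusedVariables false
set_option linter.unusedDecidableInType false

/-! [SQF-D1] dangerous cycles that share an edge -/

open Finset
open scoped Classical

namespace SQF

variable {V : Type} [Fintype V] [DecidableEq V] {G : SimpleGraph V} {T : Prop}

theorem d1a_out_one {E : Finset (Sym2 V)} {v x y : V} (hxy : x ≠ y) (hx : G.Adj v x) (hy : G.Adj v y)
    (ox : On x E) (oy : On y E) (hl : Light G v) : out G E v ≤ 1 := by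
  have h1 : (univ.filter (fun w => G.Adj v w ∧ ¬ On w E)) ⊆
      ((univ.filter (fun w => G.Adj v w)).erase x).erase y := by
    intro w hw
    simp only [mem_filter, mem_univ, true_and] at hw
    simp only [mem_erase, mem_filter, mem_univ, true_and]
    exact ⟨fun h => hw.2 (h ▸ oy), fun h => hw.2 (h ▸ ox), hw.1⟩
  have h2 := card_le_card h1
  rw [card_erase_of_mem (by simp [hxy.symm, hy]), card_erase_of_mem (by simp [hx])] at h2
  have h3 : (univ.filter (fun w => G.Adj v w)).card ≤ 3 := hl
  unfold out
  omega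

theorem d1a_out_two {E : Finset (Sym2 V)} {v x : V} (hx : G.Adj v x)
    (ox : On x E) (hl : Light G v) : out G E v ≤ 2 := by
  have h1 : (univ.filter (fun w => G.Adj v w ∧ ¬ On w E)) ⊆
      (univ.filter (fun w => G.Adj v w)).erase x := by
    intro w hw
    simp only [mem_filter, mem_univ, true_and] at hw
    simp only [mem_erase, mem_filter, mem_univ, true_and]
    exact ⟨fun h => hw.2 (h ▸ ox), hw.1⟩
  have h2 := card_le_card h1
  rw [card_erase_of_mem (by simp [hx])] at h2
  have h3 : (univ.filter (fun w => G.Adj v w)).card ≤ 3 := hl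
  unfold out
  omega

/-- (D1a) `E` dangerous, `E'` a cycle sharing an edge with `E`: a light vertex of `E'` is on `E`. PROOF. Suppose `v` is light, on `E'`, not on `E`.
Let `s(x, y)` be the common edge (`Sym2.ind`), `x ≠ y` both on `E`. Take the labelled form of `E'` (`Cyc.at` with centre `v`).
Triangle `v, x', y'`: the common edge does not contain `v`, so it is `s(x', y')`, both `x'`, `y'` are on `E` and neighbours of `v`, so
`out G E v ≤ dg G.Adj v - 2 ≤ 1` (`out` counts neighbours except `x', y'`), so `Avoid G E` (first case), contradiction.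
4-cycle `v, x', a', y'`: the common edge is `s(x', a')` or `s(a', y')`, so `a'` and one of `x'`, `y'` are on `E`.
If both `x'` and `y'` are on `E`: as before. If `x'` is on `E` and `y'` is not: then the common edge is `s(x', a')`, and the 4-cycle is `x := a'`, `y := x'`,
`e := v`, `f := y'` : `s(a', x') ∈ E`, `x' ~ v`, `v ~ y'`, `y' ~ a'`, `v, y'` not on `E`, `out G E v ≤ dg - 1 ≤ 2` (`x'` is a neighbour on `E`): `Avoid G E`, second case. The last case (`y'` on `E`, `x'` not) is the same. -/
theorem Dang.on_of_light {E E' : Finset (Sym2 V)} (hE : Dang G T E) (hE' : Cyc G T E') {e : Sym2 V}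
    (he : e ∈ E) (he' : e ∈ E') {v : V} (hv : On v E') (hl : Light G v) : On v E := by
  by_contra hn
  rcases hE'.at hv with ⟨_, x, y, h1, h2, h3, rfl⟩ | ⟨x, a, y, n1, n2, h1, h2, h3, h4, rfl⟩
  · simp only [mem_insert, mem_singleton] at he'
    rcases he' with rfl | rfl | rfl
    · exact hn (on_left he)
    · exact hE.2 (Or.inl ⟨v, hn, d1a_out_one h2.ne h1 h3.symm (on_left he) (on_right he) hl⟩)
    · exact hn (on_right he)
  · simp only [mem_insert, mem_singleton] at he'
    rcases he' with rfl | rfl | rfl | rfl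
    · exact hn (on_left he)
    · by_cases oy : On y E
      · exact hE.2 (Or.inl ⟨v, hn, d1a_out_one n2 h1 h4.symm (on_left he) oy hl⟩)
      · refine hE.2 (Or.inr ⟨a, x, v, y, ?_, h1.symm, h4.symm, h3.symm, hn, oy,
          d1a_out_two h1 (on_left he) hl⟩)
        rw [Sym2.eq_swap]; exact he
    · by_cases ox : On x E
      · exact hE.2 (Or.inl ⟨v, hn, d1a_out_one n2 h1 h4.symm ox (on_right he) hl⟩)
      · exact hE.2 (Or.inr ⟨a, y, v, x, he, h4, h1, h2, hn, ox,
          d1a_out_two h4.symm (on_right he) hl⟩)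
    · exact hn (on_right he)

/-- (D1b) two cycles through a light vertex share an edge at it. PROOF. `Cyc.two` for both: `u ≠ w` and `u' ≠ w'` neighbours of `c` (`Cyc.adj`);
`{u, w}` and `{u', w'}` are subsets of the at most 3 neighbours of `c`, so they meet (otherwise `card_union_of_disjoint` gives 4 neighbours). -/
theorem share_at {E E' : Finset (Sym2 V)} (hE : Cyc G T E) (hE' : Cyc G T E') {c : V} (hc : On c E)
    (hc' : On c E') (hl : Light G c) : ∃ x, s(c, x) ∈ E ∧ s(c, x) ∈ E' := by
  obtain ⟨u, w, huw, hu, hw, -⟩ := hE.two hc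
  obtain ⟨u', w', huw', hu', hw', -⟩ := hE'.two hc'
  by_contra hcon
  push Not at hcon
  have n1 : u ≠ u' := fun h => hcon u hu (h ▸ hu')
  have n2 : u ≠ w' := fun h => hcon u hu (h ▸ hw')
  have n3 : w ≠ u' := fun h => hcon w hw (h ▸ hu')
  have n4 : w ≠ w' := fun h => hcon w hw (h ▸ hw')
  have h1 : ({u, w, u', w'} : Finset V) ⊆ univ.filter (fun x => G.Adj c x) := by
    intro x hx
    simp only [mem_insert, mem_singleton] at hx
    simp only [mem_filter, mem_univ, true_and]
    rcases hx with rfl | rfl | rfl | rfl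
    · exact hE.adj hu
    · exact hE.adj hw
    · exact hE'.adj hu'
    · exact hE'.adj hw'
  have h2 := card_le_card h1
  have h3 : ({u, w, u', w'} : Finset V).card = 4 := by
    rw [card_insert_of_notMem, card_insert_of_notMem, card_pair huw']
    · simp only [mem_insert, mem_singleton]; tauto
    · simp only [mem_insert, mem_singleton]; tauto
  have h4 : (univ.filter (fun x => G.Adj c x)).card ≤ 3 := hl
  omega

/-- (D1c) PROOF. `Finset.exists_maximal`-type argument (or strong induction on the cardinality): the set of all `C : Finset V` with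
(i) all elements light, (ii) `∀ E dangerous, ∀ c c' ∈ C` on `E`, `c = c'`; it contains `∅`; take one of maximal cardinality. `hit`: let `E` be dangerous, `v` a light vertex on `E` (`hG.light`). Suppose no element of `C` is on `E`; then
`v ∉ C`, and `insert v C` violates (ii) by maximality: there are a dangerous `E'` and `c ∈ C` with `v` and `c` on `E'`. `E` and `E'` share an edge at `v` (D1b), so `c`, light, on `E'`, is on `E` (D1a): contradiction. -/
theorem exists_rep (hG : Good G T) : ∃ C, Rep G T C := by
  obtain ⟨C, hC, hmax⟩ := Finset.exists_max_image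
    ((univ : Finset (Finset V)).filter (fun C => (∀ c ∈ C, Light G c) ∧
      ∀ E, Dang G T E → ∀ c ∈ C, ∀ c' ∈ C, On c E → On c' E → c = c')) Finset.card
    ⟨∅, by simp⟩
  simp only [mem_filter, mem_univ, true_and] at hC hmax
  refine ⟨C, hC.1, ?_, hC.2⟩
  intro E hE
  by_contra hcon
  push Not at hcon
  obtain ⟨v, hv, hl⟩ := hG.light E hE
  have hvC : v ∉ C := fun h => hcon v h hv
  have hnot : ¬ (∀ E, Dang G T E → ∀ c ∈ insert v C, ∀ c' ∈ insert v C, On c E → On c' E → c = c') := by
    intro h
    have h1 := hmax (insert v C) ⟨?_, h⟩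
    · rw [card_insert_of_notMem hvC] at h1
      omega
    · intro c hc
      rcases mem_insert.mp hc with rfl | hc
      · exact hl
      · exact hC.1 c hc
  apply hnot
  have key : ∀ E', Dang G T E' → On v E' → ∀ c ∈ C, On c E' → False := by
    intro E' hE' hv' c hc hc'
    obtain ⟨x, hx, hx'⟩ := share_at hE.1 hE'.1 hv hv' hl
    exact hcon c hc (hE.on_of_light hE'.1 hx hx' hc' (hC.1 c hc))
  intro E' hE' c hc c' hc' h1 h2
  rcases mem_insert.mp hc with h4 | h4 <;> rcases mem_insert.mp hc' with h3 | h3
  · exact h4.trans h3.symm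
  · exact (key E' hE' (h4 ▸ h1) c' h3 h2).elim
  · exact (key E' hE' (h3 ▸ h2) c h4 h1).elim
  · exact hC.2 E' hE' c h4 c' h3 h1 h2

/-- (D1d) `c, c'` in `C`, `Ec c u v` and `Ec c' u v` imply `c = c'`. PROOF. `E ∋ s(u,v)` dangerous with `c` on it, `E' ∋ s(u,v)` dangerous with `c'` on it; `c'` is light, so it is on `E` (D1a), `hC.indep`. -/
theorem Rep.uniq {C : Finset V} (hC : Rep G T C) {c c' u v : V} (hc : c ∈ C) (hc' : c' ∈ C)
    (h : Ec G T c u v) (h' : Ec G T c' u v) : c = c' := by
  obtain ⟨E, hE, h1, h2⟩ := h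
  obtain ⟨E', hE', h1', h2'⟩ := h'
  exact hC.indep E hE c hc c' hc' h1 (hE.on_of_light hE'.1 h2 h2' h1' (hC.light c' hc'))

/-- (D1e) the centre `c` is in no other cluster. PROOF. `h`: a dangerous `E` with `c'` on it and `s(c, u) ∈ E`, so `c` is on `E`: `hC.indep`. -/
theorem Rep.uniq' {C : Finset V} (hC : Rep G T C) {c c' u : V} (hc : c ∈ C) (hc' : c' ∈ C)
    (h : Ec G T c' c u) : c = c' := by
  obtain ⟨E, hE, h1, h2⟩ := h
  exact hC.indep E hE c hc c' hc' (on_left h2) h1

end SQF
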