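import Pool.Agent.SQF.B2

set_option autoImplicit false
set_option linter.unusedSectionVars false
set_option linter.unusedVariables false
set_option linter.unusedDecidableInType false

/-! [SQF-S1] from a relation to a partial function -/

open Finset
open scoped Classical

namespace SQF

variable {V : Type} [Fintype V] [DecidableEq V]

/-- (S1a) PROOF. `{u | I w u}` is the disjoint union of `{u | t w = some u}` (one element if `t w ≠ none`, else empty) and `{u | t u = some w}` (disjoint by `h2`). -/
theorem deg_orient (I : V → V → Prop) (t : V → Option V) (h1 : ∀ u v, I u v ↔ (t u = some v ∨ t v = some u))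
    (h2 : ∀ u v, t u = some v → t v ≠ some u) (w : V) : dg I w = tc t w := by
  have e1 : (univ.filter (fun u => I w u)) =
      (univ.filter (fun u => t w = some u)) ∪ (univ.filter (fun u => t u = some w)) := by
    ext u
    simp only [mem_filter, mem_univ, true_and, mem_union]
    exact h1 w u
  have e2 : Disjoint (univ.filter (fun u => t w = some u)) (univ.filter (fun u => t u = some w)) := by
    rw [Finset.disjoint_left]
    intro u hu hu'
    simp only [mem_filter, mem_univ, true_and] at hu hu'
    exact h2 w u hu hu'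
  have e3 : (univ.filter (fun u => t w = some u)).card = if t w = none then 0 else 1 := by
    by_cases h : t w = none
    · rw [if_pos h, card_eq_zero, filter_eq_empty_iff]
      intro u _ hu
      rw [h] at hu
      exact absurd hu (by simp)
    · rw [if_neg h]
      obtain ⟨v, hv⟩ := Option.ne_none_iff_exists'.mp h
      rw [card_eq_one]
      refine ⟨v, ?_⟩
      ext u
      simp only [mem_filter, mem_univ, true_and, mem_singleton, hv, Option.some.injEq]
      exact ⟨fun h => h.symm, fun h => h.symm⟩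
  unfold dg tc
  rw [e1, card_union_of_disjoint e2, e3]

/-- a functional relation is given by a partial function -/
theorem s1_fun (R : V → V → Prop) (hR : ∀ v u u', R v u → R v u' → u = u') :
    ∃ t : V → Option V, ∀ v u, t v = some u ↔ R v u := by
  refine ⟨fun v => if h : ∃ u, R v u then some h.choose else none, ?_⟩
  intro v u
  constructor
  · intro h
    by_cases h' : ∃ u, R v u
    · simp only [dif_pos h', Option.some.injEq] at h
      rw [← h]
      exact h'.choose_spec
    · simp only [dif_neg h'] at h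
      exact absurd h (by simp)
  · intro h
    have h' : ∃ u, R v u := ⟨u, h⟩
    simp only [dif_pos h', Option.some.injEq]
    exact hR v _ _ h'.choose_spec h

/-- three different neighbours -/
theorem s1_three (I : V → V → Prop) {v a b d : V} (h : dg I v ≤ 2) (h1 : I v a) (h2 : I v b) (h3 : I v d)
    (n1 : a ≠ b) (n2 : a ≠ d) (n3 : b ≠ d) : False := by
  have hsub : ({a, b, d} : Finset V) ⊆ univ.filter (fun u => I v u) := by
    intro z hz
    simp only [mem_insert, mem_singleton] at hz
    simp only [mem_filter, mem_univ, true_and]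
    rcases hz with rfl | rfl | rfl <;> assumption
  have hc : ({a, b, d} : Finset V).card = 3 := by
    rw [card_insert_of_notMem, card_pair n3]
    simp only [mem_insert, mem_singleton]
    tauto
  have := card_le_card hsub
  rw [hc] at this
  unfold dg at h
  omega

/-- (S1b) a relation with all degrees at most 2 and no forbidden cycle through `c` is given by a valid partial function.
PROOF. `X := {x ∈ P | I c x}`; `dg I c = X.card` (`hK`, `cP`), so `P.card - 1 ≤ X.card ≤ 2`, so at most one element of `P` is not in `X`.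
Define `t x = some c` for `x ∈ X`; for `a ∈ A`: `t a = some x` for an `x ∈ X` with `I a x` if there is one (it is unique: two give the 4-cycle `c x a x'`), else `t a = some x₀` for an `x₀ ∈ P \ X` with `I a x₀` if there is one, else `none`; for `x₀ ∈ P \ X`:
`t x₀ = some y` with `y ∈ Y(x₀) := {u | I x₀ u ∧ (u ∈ P ∨ (u ∈ A ∧ ∃ x ∈ X, I u x))}` if this is nonempty, else `none`; `t = none` elsewhere.
Claim: `Y(x₀)` has at most one element. Let `y ≠ y'` be in it. Both in `A`: `A.card ≥ 2`, so `P.card = 2` (`h.cases`), `X = {x₁}`, and `x₁` has the neighbours `c, y, y'`: degree 3. `y ∈ A`, `y' ∈ P`: then `A ≠ ∅` and `K x₀ y'` inside `P`, so `P.card = 2`, `X = {x₁}`, `y' = x₁`, and `x₁` has the neighbours `c, x₀, y`: degree 3. Both in `P`: they are in `X`, and `c y x₀ y'` is a forbidden 4-cycle.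
Then `I u v ↔ (t u = some v ∨ t v = some u)`: an edge of `I` is an edge of `K`, so it is `c x` (`x ∈ X`), or `a x` with `a ∈ A`, `x ∈ P`, or `x y` with `x, y ∈ P`; in the last case not both are in `X` (`h.ppT`, triangle `c x y`), so it is `x₀ y` with `y ∈ X` and `y ∈ Y(x₀)` (if `P \ X` had two elements ... it has at most one). `a x`, `x ∈ X`: `t a = some x`. `a x₀`: if `a` has a neighbour in `X`, then `a ∈ Y(x₀)`, `t x₀ = some a`; else `t a = some x₀`. Conversely all `t`-edges are edges of `I`. No pair is used twice: `t x = some c`, `t c = none`; `t a = some x`, `x ∈ X`, `t x = some c`; `t a = some x₀` only if `a ∉ Y(x₀)`; `t x₀ = some y`, `y ∈ X`, `t y = some c`.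
`Val` is clear. The degrees: (S1a). -/
theorem Shape.rf {T : Prop} {c : V} {P A : Finset V} {K : V → V → Prop} (h : Shape T c P A K)
    (I : V → V → Prop) (hs : ∀ u v, I u v → I v u) (hK : ∀ u v, I u v → K u v) (hd : ∀ v, dg I v ≤ 2)
    (hc : P.card ≤ dg I c + 1) (hn : NoC T c I) : ∃ t, Val c P A K t ∧ ∀ w, tc t w = dg I w := by
  obtain ⟨X, hX⟩ : ∃ X : Finset V, X = P.filter (fun x => I c x) := ⟨_, rfl⟩
  have mX : ∀ x, x ∈ X ↔ x ∈ P ∧ I c x := by
    intro x; rw [hX, mem_filter]
  have hXc : dg I c = X.card := by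
    unfold dg
    congr 1
    ext u
    simp only [mem_filter, mem_univ, true_and, mX]
    exact ⟨fun h' => ⟨(h.cP u).mp (hK c u h'), h'⟩, fun h' => h'.2⟩
  have hXP : X ⊆ P := fun x hx => ((mX x).mp hx).1
  have hXcard : (P \ X).card ≤ 1 := by
    rw [card_sdiff_of_subset hXP]
    omega
  have one : ∀ x ∈ P, ∀ y ∈ P, x ∉ X → y ∉ X → x = y := by
    intro x hx y hy hx' hy'
    exact card_le_one.mp hXcard x (mem_sdiff.mpr ⟨hx, hx'⟩) y (mem_sdiff.mpr ⟨hy, hy'⟩)
  have oneX : P.card = 2 → ∀ z ∈ P, z ∉ X → ∀ x ∈ X, ∀ y ∈ X, x = y := by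
    intro h2 z hz hz' x hx y hy
    by_contra hxy
    have hsub : ({z, x, y} : Finset V) ⊆ P := by
      intro w hw
      simp only [mem_insert, mem_singleton] at hw
      rcases hw with rfl | rfl | rfl
      · exact hz
      · exact hXP hx
      · exact hXP hy
    have hcard : ({z, x, y} : Finset V).card = 3 := by
      rw [card_insert_of_notMem, card_pair hxy]
      simp only [mem_insert, mem_singleton]
      rintro (rfl | rfl)
      · exact hz' hx
      · exact hz' hy
    have := card_le_card hsub
    omega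
  have ir : ∀ u v, I u v → u ≠ v := by
    intro u v huv e
    rw [e] at huv
    exact h.irr v (hK _ _ huv)
  obtain ⟨R, hR⟩ : ∃ R : V → V → Prop, R = fun v u => (v ∈ X ∧ u = c) ∨ (v ∈ A ∧ u ∈ X ∧ I v u) ∨
      (v ∈ A ∧ u ∈ P ∧ u ∉ X ∧ I v u ∧ ¬ ∃ x ∈ X, I v x) ∨
      (v ∈ P ∧ v ∉ X ∧ I v u ∧ (u ∈ P ∨ (u ∈ A ∧ ∃ x ∈ X, I u x))) := ⟨_, rfl⟩
  have hRd : ∀ v u, R v u ↔ (v ∈ X ∧ u = c) ∨ (v ∈ A ∧ u ∈ X ∧ I v u) ∨
      (v ∈ A ∧ u ∈ P ∧ u ∉ X ∧ I v u ∧ ¬ ∃ x ∈ X, I v x) ∨
      (v ∈ P ∧ v ∉ X ∧ I v u ∧ (u ∈ P ∨ (u ∈ A ∧ ∃ x ∈ X, I u x))) := by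
    intro v u; rw [hR]
  -- the mixed case of the claim
  have mixed : ∀ v ∈ P, v ∉ X → ∀ y y', I v y → I v y' → y ∈ A → (∃ x ∈ X, I y x) → y' ∈ P → False := by
    intro v hv hv' y y' h1 h1' hyA hyx hy'
    obtain ⟨x, hx, hyx⟩ := hyx
    have hKv : K v y' := hK _ _ h1'
    have h2 : P.card = 2 := by
      rcases h.cases with h' | ⟨_, _, h'⟩ | ⟨_, h', _⟩
      · exact h'
      · exact absurd hKv (h' v hv y' hy')
      · rw [h'] at hyA; exact absurd hyA (notMem_empty _)
    have hy'X : y' ∈ X := by
      by_contra hh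
      exact ir _ _ h1' (one v hv y' hy' hv' hh)
    have e : x = y' := oneX h2 v hv hv' x hx y' hy'X
    subst e
    refine s1_three I (hd x) (hs _ _ ((mX x).mp hx).2) (hs _ _ h1') (hs _ _ hyx) ?_ ?_ ?_
    · rintro rfl; exact h.cnP hv
    · rintro rfl; exact h.cnA hyA
    · rintro rfl; exact h.dis _ hv hyA
  have func : ∀ v u u', R v u → R v u' → u = u' := by
    intro v u u' h1 h2
    rw [hRd] at h1 h2
    by_cases hvX : v ∈ X
    · have hvP := hXP hvX
      have hvA := h.dis v hvP
      have e1 : u = c := by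
        rcases h1 with h1 | h1 | h1 | h1
        · exact h1.2
        · exact absurd h1.1 hvA
        · exact absurd h1.1 hvA
        · exact absurd hvX h1.2.1
      have e2 : u' = c := by
        rcases h2 with h1 | h1 | h1 | h1
        · exact h1.2
        · exact absurd h1.1 hvA
        · exact absurd h1.1 hvA
        · exact absurd hvX h1.2.1
      rw [e1, e2]
    · by_cases hvA : v ∈ A
      · have hvP : v ∉ P := fun h' => h.dis v h' hvA
        rcases h1 with h1 | h1 | h1 | h1
        · exact absurd h1.1 hvX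
        · rcases h2 with h2 | h2 | h2 | h2
          · exact absurd h2.1 hvX
          · by_contra hne
            refine hn.sq u v u' hne ?_ ⟨((mX u).mp h1.2.1).2, hs _ _ h1.2.2, h2.2.2, hs _ _ ((mX u').mp h2.2.1).2⟩
            rintro rfl; exact h.cnA hvA
          · exact absurd ⟨u, h1.2.1, h1.2.2⟩ h2.2.2.2.2
          · exact absurd h2.1 hvP
        · rcases h2 with h2 | h2 | h2 | h2
          · exact absurd h2.1 hvX
          · exact absurd ⟨u', h2.2.1, h2.2.2⟩ h1.2.2.2.2
          · exact one u h1.2.1 u' h2.2.1 h1.2.2.1 h2.2.2.1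
          · exact absurd h2.1 hvP
        · exact absurd h1.1 hvP
      · rcases h1 with h1 | h1 | h1 | h1
        · exact absurd h1.1 hvX
        · exact absurd h1.1 hvA
        · exact absurd h1.1 hvA
        rcases h2 with h2 | h2 | h2 | h2
        · exact absurd h2.1 hvX
        · exact absurd h2.1 hvA
        · exact absurd h2.1 hvA
        obtain ⟨hvP, _, h1a, h1b⟩ := h1
        obtain ⟨_, _, h2a, h2b⟩ := h2
        by_contra hne
        rcases h1b with h1b | ⟨h1b, h1c⟩
        · rcases h2b with h2b | ⟨h2b, h2c⟩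
          · have k1 : u ∈ X := by
              by_contra hh
              exact ir _ _ h1a (one v hvP u h1b hvX hh)
            have k2 : u' ∈ X := by
              by_contra hh
              exact ir _ _ h2a (one v hvP u' h2b hvX hh)
            refine hn.sq u v u' hne ?_ ⟨((mX u).mp k1).2, hs _ _ h1a, h2a, hs _ _ ((mX u').mp k2).2⟩
            rintro rfl; exact h.cnP hvP
          · exact mixed v hvP hvX u' u h2a h1a h2b h2c h1b
        · rcases h2b with h2b | ⟨h2b, h2c⟩
          · exact mixed v hvP hvX u u' h1a h2a h1b h1c h2b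
          · obtain ⟨x, hx, hux⟩ := h1c
            obtain ⟨x', hx', hux'⟩ := h2c
            have h2 : P.card = 2 := by
              have hA : 1 < A.card := one_lt_card.mpr ⟨u, h1b, u', h2b, hne⟩
              rcases h.cases with h' | ⟨_, h', _⟩ | ⟨_, h', _⟩
              · exact h'
              · omega
              · rw [h'] at hA; simp at hA
            have e : x = x' := oneX h2 v hvP hvX x hx x' hx'
            subst e
            refine s1_three I (hd x) (hs _ _ ((mX x).mp hx).2) (hs _ _ hux) (hs _ _ hux') ?_ ?_ hne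
            · rintro rfl; exact h.cnA h1b
            · rintro rfl; exact h.cnA h2b
  obtain ⟨t, ht⟩ := s1_fun R func
  have R1 : ∀ u v, R u v → I u v := by
    intro u v h1
    rw [hRd] at h1
    rcases h1 with h1 | h1 | h1 | h1
    · rw [h1.2]; exact hs _ _ ((mX u).mp h1.1).2
    · exact h1.2.2
    · exact h1.2.2.2.1
    · exact h1.2.2.1
  have R2 : ∀ u v, I u v → v ∈ A → R u v ∨ R v u := by
    intro u v h1 hv
    have hu : u ∈ P := (h.aP v hv u).mp (hK _ _ (hs _ _ h1))
    rw [hRd, hRd]
    by_cases hu' : u ∈ X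
    · exact Or.inr (Or.inr (Or.inl ⟨hv, hu', hs _ _ h1⟩))
    · by_cases hx : ∃ x ∈ X, I v x
      · exact Or.inl (Or.inr (Or.inr (Or.inr ⟨hu, hu', h1, Or.inr ⟨hv, hx⟩⟩)))
      · exact Or.inr (Or.inr (Or.inr (Or.inl ⟨hv, hu, hu', hs _ _ h1, hx⟩)))
  have R3 : ∀ u v, I u v ↔ (t u = some v ∨ t v = some u) := by
    intro u v
    rw [ht, ht]
    constructor
    · intro h1
      by_cases hvA : v ∈ A
      · exact R2 u v h1 hvA
      by_cases huA : u ∈ A
      · exact (R2 v u (hs _ _ h1) huA).symm
      by_cases huc : u = c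
      · subst huc
        right
        rw [hRd]
        exact Or.inl ⟨(mX v).mpr ⟨(h.cP v).mp (hK _ _ h1), h1⟩, rfl⟩
      by_cases hvc : v = c
      · subst hvc
        left
        rw [hRd]
        exact Or.inl ⟨(mX u).mpr ⟨(h.cP u).mp (hK _ _ (hs _ _ h1)), hs _ _ h1⟩, rfl⟩
      have hu : u ∈ P := by
        rcases h.sup u v (hK _ _ h1) with h' | h' | h'
        · exact absurd h' huc
        · exact h'
        · exact absurd h' huA
      have hv : v ∈ P := by
        rcases h.sup v u (hK _ _ (hs _ _ h1)) with h' | h' | h'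
        · exact absurd h' hvc
        · exact h'
        · exact absurd h' hvA
      rw [hRd, hRd]
      by_cases huX : u ∈ X
      · by_cases hvX : v ∈ X
        · exfalso
          exact hn.tri (h.ppT ⟨u, hu, v, hv, hK _ _ h1⟩) u v
            ⟨((mX u).mp huX).2, h1, hs _ _ ((mX v).mp hvX).2⟩
        · exact Or.inr (Or.inr (Or.inr (Or.inr ⟨hv, hvX, hs _ _ h1, Or.inl hu⟩)))
      · exact Or.inl (Or.inr (Or.inr (Or.inr ⟨hu, huX, h1, Or.inl hv⟩)))
    · rintro (h1 | h1)
      · exact R1 _ _ h1
      · exact hs _ _ (R1 _ _ h1)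
  have R4 : ∀ u v, t u = some v → t v ≠ some u := by
    intro u v h1 h2
    rw [ht, hRd] at h1 h2
    rcases h1 with h1 | h1 | h1 | h1
    · obtain ⟨_, rfl⟩ := h1
      rcases h2 with h2 | h2 | h2 | h2
      · exact h.cnP (hXP h2.1)
      · exact h.cnA h2.1
      · exact h.cnA h2.1
      · exact h.cnP h2.1
    · obtain ⟨k1, k2, k3⟩ := h1
      rcases h2 with h2 | h2 | h2 | h2
      · rw [h2.2] at k1; exact h.cnA k1
      · exact h.dis v (hXP k2) h2.1
      · exact h.dis v (hXP k2) h2.1
      · exact h2.2.1 k2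
    · obtain ⟨k1, k2, k3, k4, k5⟩ := h1
      rcases h2 with h2 | h2 | h2 | h2
      · exact k3 h2.1
      · exact h.dis v k2 h2.1
      · exact h.dis v k2 h2.1
      · rcases h2.2.2.2 with h3 | h3
        · exact h.dis u h3 k1
        · exact k5 h3.2
    · obtain ⟨k1, k2, k3, k4⟩ := h1
      rcases h2 with h2 | h2 | h2 | h2
      · rw [h2.2] at k1; exact h.cnP k1
      · exact k2 h2.2.1
      · rcases k4 with h3 | h3
        · exact h.dis v h3 h2.1
        · exact h2.2.2.2.2 h3.2
      · exact ir _ _ k3 (one u k1 v h2.1 k2 h2.2.1)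
  refine ⟨t, ⟨?_, ?_, ?_⟩, fun w => (deg_orient I t R3 R4 w).symm⟩
  · intro v u h1
    rw [ht, hRd] at h1
    rcases h1 with h1 | h1 | h1 | h1
    · exact Or.inl (hXP h1.1)
    · exact Or.inr h1.1
    · exact Or.inr h1.1
    · exact Or.inl h1.1
  · intro a ha u h1
    rw [ht, hRd] at h1
    rcases h1 with h1 | h1 | h1 | h1
    · exact absurd ha (h.dis a (hXP h1.1))
    · exact hXP h1.2.1
    · exact h1.2.1
    · exact absurd ha (h.dis a h1.1)
  · intro x hx u h1
    rw [ht, hRd] at h1
    rcases h1 with h1 | h1 | h1 | h1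
    · exact Or.inl h1.2
    · exact absurd h1.1 (h.dis x hx)
    · exact absurd h1.1 (h.dis x hx)
    · rcases h1.2.2.2 with h3 | h3
      · exact Or.inr (Or.inr ⟨h3, (ir _ _ h1.2.2.1).symm, x, hx, u, h3, hK _ _ h1.2.2.1⟩)
      · exact Or.inr (Or.inl h3.1)

end SQF
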