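import Pool.Agent.SQF.B2

set_option autoImplicit false
set_option linter.unusedSectionVars false
set_option linter.unusedVariables false
set_option linter.unusedDecidableInType false

/-! [SQF-S2] from a partial function to a relation -/

open Finset
open scoped Classical

namespace SQF

variable {V : Type} [Fintype V] [DecidableEq V]

theorem s2_deg (I : V → V → Prop) (t : V → Option V) (h1 : ∀ u v, I u v ↔ (t u = some v ∨ t v = some u))
    (h2 : ∀ u v, t u = some v → t v ≠ some u) (w : V) : dg I w = tc t w := by
  have e1 : (univ.filter (fun u => I w u)) =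
      (univ.filter (fun u => t w = some u)) ∪ (univ.filter (fun u => t u = some w)) := by
    ext u
    simp only [mem_filter, mem_univ, true_and, mem_union]
    exact h1 w u
  have e2 : Disjoint (univ.filter (fun u => t w = some u)) (univ.filter (fun u => t u = some w)) := by
    rw [Finset.disjoint_left]
    intro u hu hu'
    simp only [mem_filter, mem_univ, true_and] at hu hu'
    exact h2 w u hu hu'
  have e3 : (univ.filter (fun u => t w = some u)).card = if t w = none then 0 else 1 := by
    by_cases h : t w = none
    · rw [if_pos h, card_eq_zero, filter_eq_empty_iff]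
      intro u _ hu
      rw [h] at hu
      exact absurd hu (by simp)
    · rw [if_neg h]
      obtain ⟨v, hv⟩ := Option.ne_none_iff_exists'.mp h
      rw [card_eq_one]
      refine ⟨v, ?_⟩
      ext u
      simp only [mem_filter, mem_univ, true_and, mem_singleton, hv, Option.some.injEq]
      exact ⟨fun h => h.symm, fun h => h.symm⟩
  unfold dg tc
  rw [e1, card_union_of_disjoint e2, e3]

/-- (S2a) a partial function with values along edges of `K`, no pair used twice, `t c = none`. PROOF. `I u v := t u = some v ∨ t v = some u`. Degrees: `{u | I w u}` is the disjoint union of `{u | t w = some u}` and `{u | t u = some w}`.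
No cycle through `c`: `I c x` means `t x = some c` (`t c = none`). Triangle `c x y`: `t x = some c`, `t y = some c`, and `x y` needs `t x = some y` or `t y = some x`: `y = c` or `x = c`, but `I c c` would be `K c c`. 4-cycle `c x a y`: `t x = some c`, `t y = some c`, so the edges `x a`, `a y` are given by `t a = some x` and `t a = some y` (`a ≠ c`), so `x = y`. -/
theorem real_of {T : Prop} {c : V} {K : V → V → Prop} (hsym : ∀ u v, K u v → K v u) (hirr : ∀ u, ¬ K u u)
    (t : V → Option V) (h0 : t c = none) (h1 : ∀ u v, t u = some v → K u v)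
    (h2 : ∀ u v, t u = some v → t v ≠ some u) :
    ∃ I : V → V → Prop, (∀ u v, I u v → I v u) ∧ (∀ u v, I u v → K u v) ∧ NoC T c I ∧
      ∀ w, dg I w = tc t w := by
  have hI0 : ∀ x, (t c = some x ∨ t x = some c) → t x = some c := by
    rintro x (h | h)
    · rw [h0] at h; exact absurd h (by simp)
    · exact h
  have hI0' : ∀ x, (t x = some c ∨ t c = some x) → t x = some c := by
    rintro x (h | h)
    · exact h
    · rw [h0] at h; exact absurd h (by simp)
  refine ⟨fun u v => t u = some v ∨ t v = some u, fun u v h => h.symm, ?_, ⟨?_, ?_⟩, ?_⟩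
  · rintro u v (h | h)
    · exact h1 _ _ h
    · exact hsym _ _ (h1 _ _ h)
  · rintro _ x y ⟨k1, k2, k3⟩
    have k1 := hI0 x k1
    have k3 := hI0' y k3
    rcases k2 with k2 | k2
    · rw [k1, Option.some.injEq] at k2
      rw [← k2, h0] at k3
      exact absurd k3 (by simp)
    · rw [k3, Option.some.injEq] at k2
      rw [← k2, h0] at k1
      exact absurd k1 (by simp)
  · rintro x a y hxy hac ⟨k1, k2, k3, k4⟩
    have k1 := hI0 x k1
    have k4 := hI0' y k4
    rcases k2 with k2 | k2
    · rw [k1, Option.some.injEq] at k2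
      exact hac k2.symm
    · rcases k3 with k3 | k3
      · rw [k2, Option.some.injEq] at k3
        exact hxy k3
      · rw [k4, Option.some.injEq] at k3
        exact hac k3.symm
  · intro w
    exact s2_deg _ t (fun u v => Iff.rfl) h2 w

/-- (S2b) PROOF. `t' v = t (Equiv.swap p q v)`. `t' w = none ↔ t w = none` (for `w = p, q` both are not `none`); `#{v | t' v = some w} = #{v | t v = some w}` by the bijection `swap p q` (`Finset.card_bij` or `card_nbij'`). -/
theorem tc_swap (t : V → Option V) {p q : V} (hp : t p ≠ none) (hq : t q ≠ none) (w : V) :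
    tc (fun v => t (Equiv.swap p q v)) w = tc t w := by
  have e1 : t (Equiv.swap p q w) = none ↔ t w = none := by
    by_cases h1 : w = p
    · subst h1
      rw [Equiv.swap_apply_left]
      exact ⟨fun h => absurd h hq, fun h => absurd h hp⟩
    · by_cases h2 : w = q
      · subst h2
        rw [Equiv.swap_apply_right]
        exact ⟨fun h => absurd h hp, fun h => absurd h hq⟩
      · rw [Equiv.swap_apply_of_ne_of_ne h1 h2]
  have e2 : (univ.filter (fun v => t (Equiv.swap p q v) = some w)).card =
      (univ.filter (fun v => t v = some w)).card := by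
    refine Finset.card_equiv (Equiv.swap p q) ?_
    intro i
    simp only [mem_filter, mem_univ, true_and]
  unfold tc
  simp only [e1, e2]

/-- (S2c) PROOF. Let `X := {x ∈ P | t x = some c}`; `tc t c = X.card` (`t c = none` because `c ∉ P ∪ A`, and `t v = some c` with `v ∈ A` is impossible: `c ∉ P`), so `P.card ≤ X.card + 1`, `X.card ≤ 2`.
If all `t v = some u` satisfy `K u v` and no pair is used twice, (S2a). Otherwise:
(1) there are `v, u` with `t v = some u`, `t u = some v`. Neither is `c`; not both in `P` (one of them is in `X`, then the value is `c`); so one is `x₀ ∈ P \ X`, the other `a ∈ A`: `t x₀ = some a`, `t a = some x₀`. Choose `x₁ ∈ P`, `x₁ ≠ x₀` (`P.card ≥ 2`), `x₁ ∈ X`. Take `t' = t ∘ swap x₀ x₁` (S2b): `t' x₀ = some c`, `t' x₁ = some a`, `t' a = some x₀`, the rest as before. All values of `t'` are along `K` (`K x₁ a` by `aP`; the others: `x₀` is the only element of `P` not in `X`, values of `A`-vertices are in `P`) and no pair is used twice (`t' x₁ = some a`, `t' a = some x₀`; a pair `x a'` with `t' x = some a'` only for `x = x₁`,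 `a' = a`).
(2) no pair is used twice, but there is `t v = some u` with `¬ K v u`: `v ∈ A` is impossible (`aP`), `u = c` and `u ∈ A` are impossible (`cP`, `aP`), so `v = x₀ ∈ P`, `u = x₁ ∈ P`, `x₁ ≠ x₀`, and there is a pair of `P` in `K` (`Val.vP`). `x₀ ∉ X`, so all other elements of `P` are in `X`. `P.card = 2`: the pair in `K` is `x₀ x₁`, contradiction. Second case of `h.cases`: no pair. Third case: `P = {x₀, x₁, x₂}`, `A = ∅`, `K x₀ x₁ ∨ K x₁ x₂` (property with `x = x₀, y = x₁, z = x₂`), so `K x₁ x₂`. Take `t' = t ∘ swap x₀ x₂`: `t' x₀ = some c`, `t' x₂ = some x₁`, `t' x₁ = some c`. Values along `K`, no pair twice. -/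
theorem Shape.fr {T : Prop} {c : V} {P A : Finset V} {K : V → V → Prop} (h : Shape T c P A K)
    (t : V → Option V) (ht : Val c P A K t) (hd : ∀ w, tc t w ≤ 2) (hc : P.card ≤ tc t c + 1) :
    ∃ I : V → V → Prop, (∀ u v, I u v → I v u) ∧ (∀ u v, I u v → K u v) ∧ NoC T c I ∧
      ∀ w, dg I w = tc t w := by
  have h0 : t c = none := by
    by_contra hne
    obtain ⟨u, hu⟩ := Option.ne_none_iff_exists'.mp hne
    rcases ht.sup c u hu with h' | h'
    · exact h.cnP h'
    · exact h.cnA h'
  obtain ⟨X, hX⟩ : ∃ X : Finset V, X = P.filter (fun x => t x = some c) := ⟨_, rfl⟩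
  have mX : ∀ x, x ∈ X ↔ x ∈ P ∧ t x = some c := by
    intro x; rw [hX, mem_filter]
  have hXc : tc t c = X.card := by
    unfold tc
    rw [if_pos h0, zero_add]
    congr 1
    ext v
    simp only [mem_filter, mem_univ, true_and, mX]
    constructor
    · intro hv
      rcases ht.sup v c hv with h' | h'
      · exact ⟨h', hv⟩
      · exact absurd (ht.vA v h' c hv) h.cnP
    · exact fun h' => h'.2
  have hXP : X ⊆ P := fun x hx => ((mX x).mp hx).1
  have hXcard : (P \ X).card ≤ 1 := by
    rw [card_sdiff_of_subset hXP]
    omega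
  have one : ∀ x ∈ P, ∀ y ∈ P, x ∉ X → y ∉ X → x = y := by
    intro x hx y hy hx' hy'
    exact card_le_one.mp hXcard x (mem_sdiff.mpr ⟨hx, hx'⟩) y (mem_sdiff.mpr ⟨hy, hy'⟩)
  have hKc : ∀ x ∈ P, K x c := fun x hx => h.sym _ _ ((h.cP x).mpr hx)
  have hcP : ∀ x ∈ P, x ≠ c := fun x hx e => h.cnP (e ▸ hx)
  have hcA : ∀ x ∈ A, x ≠ c := fun x hx e => h.cnA (e ▸ hx)
  have hAP : ∀ a ∈ A, ∀ x ∈ P, a ≠ x := fun a ha x hx e => h.dis x hx (e ▸ ha)
  -- other elements of P
  have oth : ∀ x₀ ∈ P, x₀ ∉ X → ∀ x ∈ P, x ≠ x₀ → t x = some c := by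
    intro x₀ h1 h2 x hx hne
    by_contra hh
    exact hne (one x hx x₀ h1 (fun h' => hh ((mX x).mp h').2) h2)
  have two : 2 ≤ P.card := by
    rcases h.cases with h' | ⟨h', _⟩ | ⟨h', _⟩ <;> omega
  -- case 1
  have case1 : ∀ x₀ ∈ P, ∀ a ∈ A, t x₀ = some a → t a = some x₀ →
      ∃ I : V → V → Prop, (∀ u v, I u v → I v u) ∧ (∀ u v, I u v → K u v) ∧ NoC T c I ∧
      ∀ w, dg I w = tc t w := by
    intro x₀ hx₀ a ha k1 k2
    have hx₀X : x₀ ∉ X := by
      intro h'
      have := ((mX x₀).mp h').2
      rw [k1, Option.some.injEq] at this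
      exact hcA a ha this
    obtain ⟨x₁, hx₁, hne⟩ := exists_mem_ne (by omega : 1 < P.card) x₀
    have hx₁c : t x₁ = some c := oth x₀ hx₀ hx₀X x₁ hx₁ hne
    have s1 : ∀ v, v ≠ x₀ → v ≠ x₁ → t (Equiv.swap x₀ x₁ v) = t v := by
      intro v h1 h2
      rw [Equiv.swap_apply_of_ne_of_ne h1 h2]
    have s2 : t (Equiv.swap x₀ x₁ x₀) = some c := by rw [Equiv.swap_apply_left, hx₁c]
    have s3 : t (Equiv.swap x₀ x₁ x₁) = some a := by rw [Equiv.swap_apply_right, k1]
    have s4 : t (Equiv.swap x₀ x₁ c) = none := by
      rw [s1 c (hcP x₀ hx₀).symm (hcP x₁ hx₁).symm, h0]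
    have s5 : t (Equiv.swap x₀ x₁ a) = some x₀ := by
      rw [s1 a (hAP a ha x₀ hx₀) (hAP a ha x₁ hx₁), k2]
    have s6 : ∀ v ∈ P, v ≠ x₁ → t (Equiv.swap x₀ x₁ v) = some c := by
      intro v hv h2
      by_cases h1 : v = x₀
      · rw [h1, s2]
      · rw [s1 v h1 h2]
        exact oth x₀ hx₀ hx₀X v hv h1
    have s7 : ∀ v ∈ A, t (Equiv.swap x₀ x₁ v) = t v :=
      fun v hv => s1 v (hAP v hv x₀ hx₀) (hAP v hv x₁ hx₁)
    have s8 : ∀ u v, t (Equiv.swap x₀ x₁ u) = some v → u ∈ P ∨ u ∈ A := by
      intro u v huv
      by_cases h1 : u = x₀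
      · exact Or.inl (h1 ▸ hx₀)
      by_cases h2 : u = x₁
      · exact Or.inl (h2 ▸ hx₁)
      rw [s1 u h1 h2] at huv
      exact ht.sup u v huv
    obtain ⟨I, i1, i2, i3, i4⟩ := real_of (T := T) (c := c) h.sym h.irr (fun v => t (Equiv.swap x₀ x₁ v)) s4
      (by
        intro u v huv
        have huv : t (Equiv.swap x₀ x₁ u) = some v := huv
        rcases s8 u v huv with hu | hu
        · by_cases h2 : u = x₁
          · rw [h2, s3, Option.some.injEq] at huv
            rw [h2, ← huv]
            exact h.sym _ _ ((h.aP a ha x₁).mpr hx₁)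
          · rw [s6 u hu h2, Option.some.injEq] at huv
            rw [← huv]
            exact hKc u hu
        · rw [s7 u hu] at huv
          exact (h.aP u hu v).mpr (ht.vA u hu v huv))
      (by
        intro u v huv hvu
        have huv : t (Equiv.swap x₀ x₁ u) = some v := huv
        have hvu : t (Equiv.swap x₀ x₁ v) = some u := hvu
        rcases s8 u v huv with hu | hu
        · by_cases h2 : u = x₁
          · rw [h2, s3, Option.some.injEq] at huv
            rw [← huv, s5, Option.some.injEq] at hvu
            exact hne (h2.symm.trans hvu.symm)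
          · rw [s6 u hu h2, Option.some.injEq] at huv
            rw [← huv, s4] at hvu
            exact absurd hvu (by simp)
        · have hu' : t u = some v := by rw [← s7 u hu]; exact huv
          have hvP := ht.vA u hu v hu'
          by_cases h2 : v = x₁
          · rw [h2, s3, Option.some.injEq] at hvu
            rw [← hvu, k2, Option.some.injEq] at hu'
            exact hne (h2.symm.trans hu'.symm)
          · rw [s6 v hvP h2, Option.some.injEq] at hvu
            exact hcA u hu hvu.symm)
    refine ⟨I, i1, i2, i3, fun w => ?_⟩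
    rw [i4 w]
    exact tc_swap t (by rw [k1]; simp) (by rw [hx₁c]; simp) w
  by_cases hpair : ∀ u v, t u = some v → t v ≠ some u
  · by_cases hK : ∀ u v, t u = some v → K u v
    · exact real_of h.sym h.irr t h0 hK hpair
    · -- case 2
      push Not at hK
      obtain ⟨x₀, x₁, k1, k2⟩ := hK
      have hx₀ : x₀ ∈ P := by
        rcases ht.sup x₀ x₁ k1 with h' | h'
        · exact h'
        · exact absurd ((h.aP x₀ h' x₁).mpr (ht.vA x₀ h' x₁ k1)) k2
      have hv := ht.vP x₀ hx₀ x₁ k1
      have hx₁c : x₁ ≠ c := by
        rintro rfl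
        exact k2 (hKc x₀ hx₀)
      have hx₁A : x₁ ∉ A := fun h' => k2 (h.sym _ _ ((h.aP x₁ h' x₀).mpr hx₀))
      rcases hv with hv | hv | ⟨hx₁, hne, y, hy, z, hz, hyz⟩
      · exact absurd hv hx₁c
      · exact absurd hv hx₁A
      have hx₀X : x₀ ∉ X := by
        intro h'
        have := ((mX x₀).mp h').2
        rw [k1, Option.some.injEq] at this
        exact hx₁c this
      rcases h.cases with h' | ⟨_, _, h'⟩ | ⟨h3, hA, h'⟩
      · exfalso
        have hyz' : y ≠ z := fun e => h.irr z (e ▸ hyz)
        have e : ({x₀, x₁} : Finset V) = P := by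
          refine eq_of_subset_of_card_le ?_ ?_
          · intro w hw
            simp only [mem_insert, mem_singleton] at hw
            rcases hw with rfl | rfl
            · exact hx₀
            · exact hx₁
          · rw [card_pair hne.symm, h']
        rw [← e] at hy hz
        simp only [mem_insert, mem_singleton] at hy hz
        rcases hy with rfl | rfl <;> rcases hz with rfl | rfl
        · exact hyz' rfl
        · exact k2 hyz
        · exact k2 (h.sym _ _ hyz)
        · exact hyz' rfl
      · exact absurd hyz (h' y hy z hz)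
      · obtain ⟨x₂, hx₂, hx₂'⟩ : ∃ x₂ ∈ P, x₂ ∉ ({x₀, x₁} : Finset V) := by
          by_contra hcon
          push Not at hcon
          have := card_le_card (show P ⊆ {x₀, x₁} from hcon)
          have h4 : ({x₀, x₁} : Finset V).card ≤ 2 := card_le_two
          omega
        simp only [mem_insert, mem_singleton, not_or] at hx₂'
        obtain ⟨n1, n2⟩ := hx₂'
        have hK12 : K x₁ x₂ := by
          rcases h' x₀ hx₀ x₁ hx₁ x₂ hx₂ hne.symm (Ne.symm n2) (Ne.symm n1) with h5 | h5
          · exact absurd h5 k2
          · exact h5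
        have hx₁t : t x₁ = some c := oth x₀ hx₀ hx₀X x₁ hx₁ hne
        have hx₂t : t x₂ = some c := oth x₀ hx₀ hx₀X x₂ hx₂ n1
        have s1 : ∀ v, v ≠ x₀ → v ≠ x₂ → t (Equiv.swap x₀ x₂ v) = t v := by
          intro v h1 h2
          rw [Equiv.swap_apply_of_ne_of_ne h1 h2]
        have s2 : t (Equiv.swap x₀ x₂ x₀) = some c := by rw [Equiv.swap_apply_left, hx₂t]
        have s3 : t (Equiv.swap x₀ x₂ x₂) = some x₁ := by rw [Equiv.swap_apply_right, k1]
        have s4 : t (Equiv.swap x₀ x₂ c) = none := by
          rw [s1 c (hcP x₀ hx₀).symm (hcP x₂ hx₂).symm, h0]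
        have s6 : ∀ v ∈ P, v ≠ x₂ → t (Equiv.swap x₀ x₂ v) = some c := by
          intro v hv h2
          by_cases h1 : v = x₀
          · rw [h1, s2]
          · rw [s1 v h1 h2]
            exact oth x₀ hx₀ hx₀X v hv h1
        have s8 : ∀ u v, t (Equiv.swap x₀ x₂ u) = some v → u ∈ P := by
          intro u v huv
          by_cases h1 : u = x₀
          · exact h1 ▸ hx₀
          by_cases h2 : u = x₂
          · exact h2 ▸ hx₂
          rw [s1 u h1 h2] at huv
          rcases ht.sup u v huv with h6 | h6
          · exact h6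
          · rw [hA] at h6; exact absurd h6 (notMem_empty _)
        obtain ⟨I, i1, i2, i3, i4⟩ := real_of (T := T) (c := c) h.sym h.irr (fun v => t (Equiv.swap x₀ x₂ v)) s4
          (by
            intro u v huv
            have huv : t (Equiv.swap x₀ x₂ u) = some v := huv
            have hu := s8 u v huv
            by_cases h2 : u = x₂
            · rw [h2, s3, Option.some.injEq] at huv
              rw [h2, ← huv]
              exact h.sym _ _ hK12
            · rw [s6 u hu h2, Option.some.injEq] at huv
              rw [← huv]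
              exact hKc u hu)
          (by
            intro u v huv hvu
            have huv : t (Equiv.swap x₀ x₂ u) = some v := huv
            have hvu : t (Equiv.swap x₀ x₂ v) = some u := hvu
            have hu := s8 u v huv
            by_cases h2 : u = x₂
            · rw [h2, s3, Option.some.injEq] at huv
              rw [← huv, s6 x₁ hx₁ (Ne.symm n2), Option.some.injEq] at hvu
              exact hcP u hu hvu.symm
            · rw [s6 u hu h2, Option.some.injEq] at huv
              rw [← huv, s4] at hvu
              exact absurd hvu (by simp))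
        refine ⟨I, i1, i2, i3, fun w => ?_⟩
        rw [i4 w]
        exact tc_swap t (by rw [k1]; simp) (by rw [hx₂t]; simp) w
  · push Not at hpair
    obtain ⟨v, u, k1, k2⟩ := hpair
    rcases ht.sup v u k1 with hv | hv
    · rcases ht.sup u v k2 with hu | hu
      · exfalso
        have hvX : v ∉ X := by
          intro h'
          have := ((mX v).mp h').2
          rw [k1, Option.some.injEq] at this
          exact hcP u hu this
        have huX : u ∉ X := by
          intro h'
          have := ((mX u).mp h').2
          rw [k2, Option.some.injEq] at this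
          exact hcP v hv this
        have e := one v hv u hu hvX huX
        subst e
        rcases ht.vP v hv v k1 with h5 | h5 | h5
        · exact hcP v hv h5
        · exact h.dis v hv h5
        · exact h5.2.1 rfl
      · exact case1 v hv u hu k1 k2
    · have hu : u ∈ P := ht.vA v hv u k1
      exact case1 u hu v hv k2 k1

end SQF
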