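import Pool.Agent.SQF.B2

set_option autoImplicit false
set_option linter.unusedSectionVars false
set_option linter.unusedVariables false
set_option linter.unusedDecidableInType false

/-! [SQF-S3] the cluster `K_4` : from a relation to the flexible edges -/

open Finset
open scoped Classical

namespace SQF

variable {V : Type} [Fintype V] [DecidableEq V]

/-- (S3) `P = {x₀, x₁, x₂}`, `K` = all pairs of `c, x₀, x₁, x₂`. PROOF. `X := {x ∈ P | I c x}`, `dg I c = X.card`, so `X.card = 2` (`hc`, `hd`), say `I c x₁`, `I c x₂`, `¬ I c x₀`. `t x = some c` for `x ∈ X`, `none` otherwise.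
At most one of the pairs of `P` is in `I`: `x₁ x₂` and `x₀ x₁`: `x₁` has the neighbours `c, x₂, x₀`; `x₁ x₂` and `x₀ x₂`: the same for `x₂`; `x₀ x₁` and `x₀ x₂`: the 4-cycle `c x₁ x₀ x₂`. `q = some (s, u)` if `I s u` for a pair `s, u` of `P`, `none` if there is none.
Degrees: `c`: 2 = number of `x` with `t x = some c`. `x ∈ P`: `dg I x = [I c x] + [x is in the pair q]`, `tc t x = [x ∈ X]`. Other vertices: 0. -/
theorem Shape4.rf {c : V} {P : Finset V} {K : V → V → Prop} (h : Shape4 c P K) (I : V → V → Prop)
    (hs : ∀ u v, I u v → I v u) (hK : ∀ u v, I u v → K u v) (hd : ∀ v, dg I v ≤ 2)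
    (hc : P.card ≤ dg I c + 1) (hn : ∀ x a y, x ≠ y → a ≠ c → ¬ (I c x ∧ I x a ∧ I a y ∧ I y c)) :
    ∃ (t : V → Option V) (q : Option (V × V)), (∀ v u, t v = some u → v ∈ P ∧ u = c) ∧
      (∀ s u, q = some (s, u) → s ∈ P ∧ u ∈ P) ∧ ∀ w, tc t w + qc q w = dg I w := by
  have hPK : ∀ u, I c u → u ∈ P := by
    intro u hu
    obtain ⟨h1, h2, h3⟩ := (h.iff c u).1 (hK c u hu)
    rcases h3 with h3 | h3
    · exact absurd h3.symm h1
    · exact h3
  have hirr : ∀ u, ¬ I u u := fun u hu => ((h.iff u u).1 (hK u u hu)).1 rfl
  have hsup : ∀ u v, I u v → u = c ∨ u ∈ P := fun u v huv => ((h.iff u v).1 (hK u v huv)).2.1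
  have hdc : dg I c = 2 := by
    have h1 := hd c
    have h2 := h.three
    omega
  have hcP : ∀ x ∈ P, x ≠ c := by
    rintro x hx rfl
    exact h.cnP hx
  have two : ∀ a ∈ P, ∀ b ∈ P, ∀ b' ∈ P, I a b → I a b' → b = b' := by
    intro a ha b hb b' hb' h1 h2
    by_contra hne
    have hab : a ≠ b := by
      rintro rfl
      exact hirr _ h1
    have hab' : a ≠ b' := by
      rintro rfl
      exact hirr _ h2
    have hc3 : ({a, b, b'} : Finset V).card = 3 := by
      rw [Finset.card_eq_three]
      exact ⟨a, b, b', hab, hab', hne, rfl⟩
    have hP : ({a, b, b'} : Finset V) = P := by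
      refine Finset.eq_of_subset_of_card_le ?_ (by rw [h.three, hc3])
      intro x hx
      simp only [Finset.mem_insert, Finset.mem_singleton] at hx
      rcases hx with rfl | rfl | rfl
      · exact ha
      · exact hb
      · exact hb'
    by_cases hca : I c a
    · have h3 : ({c, b, b'} : Finset V) ⊆ univ.filter (fun u => I a u) := by
        intro x hx
        simp only [Finset.mem_insert, Finset.mem_singleton] at hx
        rw [Finset.mem_filter]
        refine ⟨Finset.mem_univ _, ?_⟩
        rcases hx with rfl | rfl | rfl
        · exact hs _ _ hca
        · exact h1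
        · exact h2
      have h4 : ({c, b, b'} : Finset V).card = 3 := by
        rw [Finset.card_eq_three]
        exact ⟨c, b, b', (hcP b hb).symm, (hcP b' hb').symm, hne, rfl⟩
      have h5 := Finset.card_le_card h3
      have h6 := hd a
      unfold dg at h6
      omega
    · have h3 : univ.filter (fun u => I c u) ⊆ ({b, b'} : Finset V) := by
        intro x hx
        rw [Finset.mem_filter] at hx
        have h4 := hPK x hx.2
        rw [← hP] at h4
        simp only [Finset.mem_insert, Finset.mem_singleton] at h4 ⊢
        rcases h4 with rfl | h4
        · exact absurd hx.2 hca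
        · exact h4
      have h5 : univ.filter (fun u => I c u) = ({b, b'} : Finset V) := by
        refine Finset.eq_of_subset_of_card_le h3 ?_
        have h6 : ({b, b'} : Finset V).card ≤ 2 := Finset.card_le_two
        have h7 : (univ.filter (fun u => I c u)).card = 2 := hdc
        omega
      have h6 : b ∈ univ.filter (fun u => I c u) := by rw [h5]; simp
      have h7 : b' ∈ univ.filter (fun u => I c u) := by rw [h5]; simp
      rw [Finset.mem_filter] at h6 h7
      exact hn b a b' hne (hcP a ha) ⟨h6.2, hs _ _ h1, h2, hs _ _ h7.2⟩
  set t : V → Option V := fun x => if I c x then some c else none with ht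
  have ht1 : ∀ v u, t v = some u → I c v ∧ u = c := by
    intro v u hvu
    simp only [ht] at hvu
    by_cases hv : I c v
    · rw [if_pos hv] at hvu
      exact ⟨hv, (Option.some.inj hvu).symm⟩
    · rw [if_neg hv] at hvu
      exact absurd hvu (by simp)
  have htc : tc t c = 2 := by
    have h1 : t c = none := by
      simp only [ht]
      rw [if_neg (hirr c)]
    have h2 : univ.filter (fun v => t v = some c) = univ.filter (fun u => I c u) := by
      ext x
      simp only [Finset.mem_filter, Finset.mem_univ, true_and]
      constructor
      · intro hx
        exact (ht1 x c hx).1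
      · intro hx
        simp only [ht]
        rw [if_pos hx]
    unfold tc
    rw [if_pos h1, h2, zero_add]
    exact hdc
  have htw : ∀ w, w ≠ c → tc t w = if I c w then 1 else 0 := by
    intro w hw
    have h2 : univ.filter (fun v => t v = some w) = ∅ := by
      rw [Finset.filter_eq_empty_iff]
      intro x _ hx
      exact hw (ht1 x w hx).2
    unfold tc
    rw [h2, Finset.card_empty, add_zero]
    simp only [ht]
    by_cases hw' : I c w
    · rw [if_pos hw', if_neg (by simp), if_pos hw']
    · rw [if_neg hw', if_pos rfl, if_neg hw']
  have hdw : ∀ w ∈ P, dg I w = (if I c w then 1 else 0) + (P.filter (fun u => I w u)).card := by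
    intro w hw
    unfold dg
    have hor : ∀ u, I w u → u = c ∨ u ∈ P := fun u hu => hsup u w (hs _ _ hu)
    by_cases hw' : I c w
    · rw [if_pos hw']
      have h1 : univ.filter (fun u => I w u) = insert c (P.filter (fun u => I w u)) := by
        ext x
        simp only [Finset.mem_filter, Finset.mem_univ, true_and, Finset.mem_insert]
        constructor
        · intro hx
          rcases hor x hx with h2 | h2
          · exact Or.inl h2
          · exact Or.inr ⟨h2, hx⟩
        · rintro (rfl | h2)
          · exact hs _ _ hw'
          · exact h2.2
      rw [h1, Finset.card_insert_of_notMem (by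
        rw [Finset.mem_filter]
        exact fun h2 => h.cnP h2.1), add_comm]
    · rw [if_neg hw', zero_add]
      congr 1
      ext x
      simp only [Finset.mem_filter, Finset.mem_univ, true_and]
      constructor
      · intro hx
        rcases hor x hx with h2 | h2
        · exact absurd (hs _ _ (h2 ▸ hx)) hw'
        · exact ⟨h2, hx⟩
      · exact fun hx => hx.2
  have hd0 : ∀ w, w ≠ c → w ∉ P → dg I w = 0 := by
    intro w h1 h2
    unfold dg
    rw [Finset.card_eq_zero, Finset.filter_eq_empty_iff]
    intro x _ hx
    rcases hsup w x hx with h3 | h3
    · exact h1 h3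
    · exact h2 h3
  have htP : ∀ v u, t v = some u → v ∈ P ∧ u = c := fun v u hvu => ⟨hPK v (ht1 v u hvu).1, (ht1 v u hvu).2⟩
  by_cases hex : ∃ s ∈ P, ∃ u ∈ P, I s u
  · obtain ⟨s, hsP, u, huP, hsu⟩ := hex
    have hne : s ≠ u := by
      rintro rfl
      exact hirr _ hsu
    refine ⟨t, some (s, u), htP, ?_, ?_⟩
    · intro s' u' he
      have h1 := Option.some.inj he
      rw [Prod.mk.injEq] at h1
      rw [← h1.1, ← h1.2]
      exact ⟨hsP, huP⟩
    · intro w
      by_cases hwc : w = c
      · subst hwc
        rw [htc, hdc]
        show 2 + ((if s = w then 1 else 0) + (if u = w then 1 else 0)) = 2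
        rw [if_neg (hcP s hsP), if_neg (hcP u huP)]
      · rw [htw w hwc]
        by_cases hwP : w ∈ P
        · rw [hdw w hwP]
          congr 1
          show (if s = w then 1 else 0) + (if u = w then 1 else 0) = _
          by_cases h1 : s = w
          · subst h1
            rw [if_pos rfl, if_neg hne.symm]
            have h2 : P.filter (fun u => I s u) = {u} := by
              ext x
              rw [Finset.mem_filter, Finset.mem_singleton]
              constructor
              · rintro ⟨h3, h4⟩
                exact two s hsP x h3 u huP h4 hsu
              · rintro rfl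
                exact ⟨huP, hsu⟩
            rw [h2, Finset.card_singleton]
          · by_cases h2 : u = w
            · subst h2
              rw [if_neg h1, if_pos rfl]
              have h2 : P.filter (fun v => I u v) = {s} := by
                ext x
                rw [Finset.mem_filter, Finset.mem_singleton]
                constructor
                · rintro ⟨h3, h4⟩
                  exact two u huP x h3 s hsP h4 (hs _ _ hsu)
                · rintro rfl
                  exact ⟨hsP, hs _ _ hsu⟩
              rw [h2, Finset.card_singleton]
            · rw [if_neg h1, if_neg h2]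
              have hc3 : ({s, u, w} : Finset V).card = 3 := by
                rw [Finset.card_eq_three]
                exact ⟨s, u, w, hne, h1, h2, rfl⟩
              have hP : ({s, u, w} : Finset V) = P := by
                refine Finset.eq_of_subset_of_card_le ?_ (by rw [h.three, hc3])
                intro x hx
                simp only [Finset.mem_insert, Finset.mem_singleton] at hx
                rcases hx with rfl | rfl | rfl
                · exact hsP
                · exact huP
                · exact hwP
              symm
              rw [add_zero, Finset.card_eq_zero, Finset.filter_eq_empty_iff]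
              intro x hxP hx
              have hx' := hxP
              rw [← hP] at hx'
              simp only [Finset.mem_insert, Finset.mem_singleton] at hx'
              rcases hx' with rfl | rfl | rfl
              · exact h2 (two x hsP u huP w hwP hsu (hs _ _ hx))
              · exact h1 (two x huP s hsP w hwP (hs _ _ hsu) (hs _ _ hx))
              · exact hirr _ hx
        · rw [hd0 w hwc hwP]
          rw [if_neg (fun h1 => hwP (hPK w h1))]
          show 0 + ((if s = w then 1 else 0) + (if u = w then 1 else 0)) = 0
          rw [if_neg (show ¬ s = w from fun h1 => hwP (h1 ▸ hsP)), if_neg (show ¬ u = w from fun h1 => hwP (h1 ▸ huP))]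
  · refine ⟨t, none, htP, fun s u he => absurd he (by simp), fun w => ?_⟩
    show tc t w + 0 = dg I w
    rw [add_zero]
    by_cases hwc : w = c
    · rw [hwc, htc, hdc]
    · rw [htw w hwc]
      by_cases hwP : w ∈ P
      · rw [hdw w hwP]
        have h1 : P.filter (fun u => I w u) = ∅ := by
          rw [Finset.filter_eq_empty_iff]
          intro x hxP hx
          exact hex ⟨w, hwP, x, hxP, hx⟩
        rw [h1, Finset.card_empty, add_zero]
      · rw [hd0 w hwc hwP, if_neg (fun h1 => hwP (hPK w h1))]

end SQF
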