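import Pool.Agent.SQF.B2

set_option autoImplicit false
set_option linter.unusedSectionVars false
set_option linter.unusedVariables false
set_option linter.unusedDecidableInType false

/-! [SQF-S4] the cluster `K_4` : from the flexible edges to a relation -/

open Finset
open scoped Classical

namespace SQF

variable {V : Type} [Fintype V] [DecidableEq V]

theorem s4_gen {c : V} {P : Finset V} {K : V → V → Prop} (h : Shape4 c P K) (X : Finset V) (hX : X ⊆ P)
    (q : Option (V × V)) (hq : ∀ s u, q = some (s, u) → s ∈ P ∧ u ∈ P ∧ s ≠ u) :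
    ∃ I : V → V → Prop, (∀ u v, I u v → I v u) ∧ (∀ u v, I u v → K u v) ∧
      (∀ x a y, x ≠ y → a ≠ c → ¬ (I c x ∧ I x a ∧ I a y ∧ I y c)) ∧
      ∀ w, dg I w = (if w = c then X.card else 0) + (if w ∈ X then 1 else 0) + qc q w := by
  have hcP : ∀ x ∈ P, x ≠ c := by
    rintro x hx rfl
    exact h.cnP hx
  obtain ⟨I, hI⟩ : ∃ I : V → V → Prop, ∀ a b, I a b ↔
      ((a = c ∧ b ∈ X) ∨ (b = c ∧ a ∈ X) ∨ q = some (a, b) ∨ q = some (b, a)) :=
    ⟨_, fun _ _ => Iff.rfl⟩
  have hcc : ∀ x, I c x → x ∈ X := by
    intro x hx
    rcases (hI _ _).1 hx with h1 | h1 | h1 | h1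
    · exact h1.2
    · exact absurd rfl (hcP c (hX h1.2))
    · exact absurd rfl (hcP c (hq _ _ h1).1)
    · exact absurd rfl (hcP c (hq _ _ h1).2.1)
  have hsym : ∀ u v, I u v → I v u := by
    intro u v huv
    rw [hI] at huv ⊢
    rcases huv with h1 | h1 | h1 | h1
    · exact Or.inr (Or.inl h1)
    · exact Or.inl h1
    · exact Or.inr (Or.inr (Or.inr h1))
    · exact Or.inr (Or.inr (Or.inl h1))
  have hnc : ∀ a b, a ≠ c → b ≠ c → I a b → q = some (a, b) ∨ q = some (b, a) := by
    intro a b ha hb hab
    rcases (hI _ _).1 hab with h1 | h1 | h1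
    · exact absurd h1.1 ha
    · exact absurd h1.1 hb
    · exact h1
  refine ⟨I, hsym, ?_, ?_, ?_⟩
  · intro u v huv
    rcases (hI _ _).1 huv with h1 | h1 | h1 | h1
    · rw [h.iff]
      exact ⟨fun h2 => hcP v (hX h1.2) (by rw [← h2, h1.1]), Or.inl h1.1, Or.inr (hX h1.2)⟩
    · rw [h.iff]
      exact ⟨fun h2 => hcP u (hX h1.2) (by rw [h2, h1.1]), Or.inr (hX h1.2), Or.inl h1.1⟩
    · rw [h.iff]
      have h2 := hq _ _ h1
      exact ⟨h2.2.2, Or.inr h2.1, Or.inr h2.2.1⟩
    · rw [h.iff]
      have h2 := hq _ _ h1
      exact ⟨h2.2.2.symm, Or.inr h2.2.1, Or.inr h2.1⟩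
  · rintro x a y hxy hac ⟨h1, h2, h3, h4⟩
    have hx := hcP x (hX (hcc x h1))
    have hy := hcP y (hX (hcc y (hsym _ _ h4)))
    have h5 := hnc x a hx hac h2
    have h6 := hnc a y hac hy h3
    rcases h5 with h5 | h5 <;> rcases h6 with h6 | h6 <;> rw [h5] at h6 <;>
      have h7 := Option.some.inj h6 <;> rw [Prod.mk.injEq] at h7
    · -- (x, a) = (a, y)
      exact hxy (h7.1.trans h7.2)
    · exact hxy h7.1
    · exact hxy h7.2
    · exact hxy (h7.2.trans h7.1)
  · intro w
    by_cases hw : w = c
    · subst hw
      rw [if_pos rfl, if_neg (fun h1 => hcP w (hX h1) rfl)]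
      have h1 : qc q w = 0 := by
        rcases q with _ | ⟨s, u⟩
        · rfl
        · have h2 := hq s u rfl
          show (if s = w then 1 else 0) + (if u = w then 1 else 0) = 0
          rw [if_neg (hcP s h2.1), if_neg (hcP u h2.2.1)]
      rw [h1, add_zero, add_zero]
      unfold dg
      congr 1
      ext x
      simp only [Finset.mem_filter, Finset.mem_univ, true_and]
      exact ⟨hcc x, fun hx => (hI _ _).2 (Or.inl ⟨rfl, hx⟩)⟩
    · rw [if_neg hw, zero_add]
      have hsec : (univ.filter (fun v => q = some (w, v) ∨ q = some (v, w))).card = qc q w := by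
        rcases q with _ | ⟨s, u⟩
        · show _ = 0
          rw [Finset.card_eq_zero, Finset.filter_eq_empty_iff]
          intro x _ hx
          simp at hx
        · have h2 := hq s u rfl
          show _ = (if s = w then 1 else 0) + (if u = w then 1 else 0)
          by_cases hsw : s = w
          · subst hsw
            rw [if_pos rfl, if_neg h2.2.2.symm]
            have h3 : univ.filter (fun v => (some (s, u) : Option (V × V)) = some (s, v)
                ∨ (some (s, u) : Option (V × V)) = some (v, s)) = {u} := by
              ext x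
              simp only [Finset.mem_filter, Finset.mem_univ, true_and, Option.some.injEq, Prod.mk.injEq,
                Finset.mem_singleton]
              constructor
              · rintro (h4 | h4)
                · exact h4.symm
                · exact absurd h4.2.symm h2.2.2
              · intro h4
                exact Or.inl h4.symm
            rw [h3, Finset.card_singleton]
          · by_cases huw : u = w
            · subst huw
              rw [if_neg hsw, if_pos rfl]
              have h3 : univ.filter (fun v => (some (s, u) : Option (V × V)) = some (u, v)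
                  ∨ (some (s, u) : Option (V × V)) = some (v, u)) = {s} := by
                ext x
                simp only [Finset.mem_filter, Finset.mem_univ, true_and, Option.some.injEq, Prod.mk.injEq,
                  Finset.mem_singleton]
                constructor
                · rintro (h4 | h4)
                  · exact absurd h4.1 h2.2.2
                  · exact h4.1.symm
                · intro h4
                  exact Or.inr ⟨h4.symm, trivial⟩
              rw [h3, Finset.card_singleton]
            · rw [if_neg hsw, if_neg huw]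
              show _ = 0
              rw [Finset.card_eq_zero, Finset.filter_eq_empty_iff]
              intro x _ hx
              simp only [Option.some.injEq, Prod.mk.injEq] at hx
              rcases hx with hx | hx
              · exact hsw hx.1
              · exact huw hx.2
      rw [← hsec]
      unfold dg
      by_cases hwX : w ∈ X
      · rw [if_pos hwX]
        have h1 : univ.filter (fun v => I w v) =
            insert c (univ.filter (fun v => q = some (w, v) ∨ q = some (v, w))) := by
          ext x
          simp only [Finset.mem_filter, Finset.mem_univ, true_and, Finset.mem_insert]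
          constructor
          · intro hx
            by_cases hxc : x = c
            · exact Or.inl hxc
            · exact Or.inr (hnc w x hw hxc hx)
          · rintro (h1 | h1)
            · exact (hI _ _).2 (Or.inr (Or.inl ⟨h1, hwX⟩))
            · exact (hI _ _).2 (Or.inr (Or.inr h1))
        rw [h1, Finset.card_insert_of_notMem, add_comm]
        rw [Finset.mem_filter]
        rintro ⟨_, h2 | h2⟩
        · exact hcP c (hq _ _ h2).2.1 rfl
        · exact hcP c (hq _ _ h2).1 rfl
      · rw [if_neg hwX, zero_add]
        congr 1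
        ext x
        simp only [Finset.mem_filter, Finset.mem_univ, true_and]
        constructor
        · intro hx
          refine hnc w x hw ?_ hx
          rintro rfl
          exact hwX (hcc w (hsym _ _ hx))
        · intro h1
          exact (hI _ _).2 (Or.inr (Or.inr h1))

/-- (S4) PROOF. `X := {x | t x = some c}`, `X ⊆ P`; `tc t c + qc q c = X.card` (`t c = none`, `c ∉ P`), so `X.card = 2`: `X = {x₁, x₂}`, `P = {x₀, x₁, x₂}`.
`q = none`: `I` = the pairs `c x₁`, `c x₂`. `q = some (s, u)`, `s ≠ u`: `I` = `c x₁`, `c x₂`, `s u`; a 4-cycle `c x a y`, `x ≠ y`, `a ≠ c` in `I` needs two different pairs `x a`, `a y` of `P`. `q = some (s, s)`: `tc t s + 2 ≤ 2` (`hd`), so `s ∉ X`, `s = x₀`; `I` = `c x₀`, `c x₁`, `x₀ x₂`: degrees `c: 2`,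
`x₀: 2`, `x₁: 1`, `x₂: 1`, the same as on the left (`x₀: 0 + 2`, `x₁: 1`, `x₂: 1`, `c: 2`); a 4-cycle `c x a y` has `{x, y} = {x₀, x₁}`, but `x₁` has no neighbour except `c`. -/
theorem Shape4.fr {c : V} {P : Finset V} {K : V → V → Prop} (h : Shape4 c P K)
    (t : V → Option V) (q : Option (V × V)) (ht : ∀ v u, t v = some u → v ∈ P ∧ u = c)
    (hq : ∀ s u, q = some (s, u) → s ∈ P ∧ u ∈ P) (hd : ∀ w, tc t w + qc q w ≤ 2)
    (hc : P.card ≤ tc t c + qc q c + 1) :
    ∃ I : V → V → Prop, (∀ u v, I u v → I v u) ∧ (∀ u v, I u v → K u v) ∧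
      (∀ x a y, x ≠ y → a ≠ c → ¬ (I c x ∧ I x a ∧ I a y ∧ I y c)) ∧
      ∀ w, dg I w = tc t w + qc q w := by
  have hcP : ∀ x ∈ P, x ≠ c := by
    rintro x hx rfl
    exact h.cnP hx
  have htc0 : t c = none := by
    cases hcc : t c with
    | none => rfl
    | some u => exact absurd (ht c u hcc).1 h.cnP
  have hqc : qc q c = 0 := by
    rcases q with _ | ⟨s, u⟩
    · rfl
    · have h2 := hq s u rfl
      show (if s = c then 1 else 0) + (if u = c then 1 else 0) = 0
      rw [if_neg (hcP s h2.1), if_neg (hcP u h2.2)]
  set X : Finset V := univ.filter (fun v => t v = some c) with hXdef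
  have hmem : ∀ v, v ∈ X ↔ t v = some c := by
    intro v
    rw [hXdef, Finset.mem_filter]
    simp
  have hXP : X ⊆ P := fun v hv => (ht v c ((hmem v).1 hv)).1
  have htcc : tc t c = X.card := by
    unfold tc
    rw [if_pos htc0, zero_add]
  have hX2 : X.card = 2 := by
    have h1 := hd c
    rw [hqc, htcc] at h1 hc
    have h2 := h.three
    omega
  have htw : ∀ w, w ≠ c → tc t w = if w ∈ X then 1 else 0 := by
    intro w hw
    have h2 : univ.filter (fun v => t v = some w) = ∅ := by
      rw [Finset.filter_eq_empty_iff]
      intro x _ hx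
      exact hw (ht x w hx).2
    unfold tc
    rw [h2, Finset.card_empty, add_zero]
    by_cases hw' : w ∈ X
    · rw [if_pos hw', if_neg (by rw [(hmem w).1 hw']; simp)]
    · rw [if_neg hw', if_pos]
      cases hcc : t w with
      | none => rfl
      | some u =>
        refine absurd ?_ hw'
        rw [hmem, hcc, (ht w u hcc).2]
  have htall : ∀ w, tc t w = (if w = c then X.card else 0) + (if w ∈ X then 1 else 0) := by
    intro w
    by_cases hw : w = c
    · subst hw
      rw [htcc, if_pos rfl, if_neg (fun h1 => hcP w (hXP h1) rfl), add_zero]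
    · rw [htw w hw, if_neg hw, zero_add]
  by_cases hdiag : ∃ s, q = some (s, s)
  · obtain ⟨s, hs⟩ := hdiag
    have hsP : s ∈ P := (hq s s hs).1
    have hqs : ∀ w, qc q w = if s = w then 2 else 0 := by
      intro w
      rw [hs]
      show (if s = w then 1 else 0) + (if s = w then 1 else 0) = _
      split_ifs <;> rfl
    have hsX : s ∉ X := by
      intro h1
      have h2 := hd s
      rw [hqs s, if_pos rfl, htw s (hcP s hsP), if_pos h1] at h2
      omega
    obtain ⟨x1, x2, h12, hX12⟩ := Finset.card_eq_two.1 hX2
    have hx1 : x1 ∈ X := by rw [hX12]; simp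
    have hx2 : x2 ∈ X := by rw [hX12]; simp
    have hs1 : s ≠ x1 := by
      rintro rfl
      exact hsX hx1
    have hs2 : s ≠ x2 := by
      rintro rfl
      exact hsX hx2
    obtain ⟨I, hI1, hI2, hI3, hI4⟩ := s4_gen h {s, x1} (by
      intro x hx
      simp only [Finset.mem_insert, Finset.mem_singleton] at hx
      rcases hx with rfl | rfl
      · exact hsP
      · exact hXP hx1) (some (s, x2)) (by
      intro a b hab
      have h1 := Option.some.inj hab
      rw [Prod.mk.injEq] at h1
      rw [← h1.1, ← h1.2]
      exact ⟨hsP, hXP hx2, hs2⟩)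
    refine ⟨I, hI1, hI2, hI3, fun w => ?_⟩
    rw [hI4 w, htall w, hqs w, hX2]
    have hcard : ({s, x1} : Finset V).card = 2 := Finset.card_pair hs1
    rw [hcard]
    have hmX : w ∈ X ↔ w = x1 ∨ w = x2 := by
      rw [hX12]
      simp
    have hms : w ∈ ({s, x1} : Finset V) ↔ w = s ∨ w = x1 := by simp
    show (if w = c then 2 else 0) + (if w ∈ ({s, x1} : Finset V) then 1 else 0)
      + ((if s = w then 1 else 0) + (if x2 = w then 1 else 0)) = _
    have hcs := hcP s hsP
    have hc1 := hcP x1 (hXP hx1)
    have hc2 := hcP x2 (hXP hx2)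
    by_cases e1 : w = s
    · subst e1
      rw [if_neg hcs, if_pos (hms.2 (Or.inl rfl)), if_pos rfl, if_neg hs2.symm, if_neg hsX]
      simp
    · by_cases e2 : w = x1
      · subst e2
        rw [if_neg hc1, if_pos (hms.2 (Or.inr rfl)), if_neg (Ne.symm e1), if_neg h12.symm, if_pos hx1]
        simp [Ne.symm e1]
      · have hnw : w ∉ ({s, x1} : Finset V) := by
          rw [hms]
          rintro (h1 | h1)
          · exact e1 h1
          · exact e2 h1
        by_cases e3 : w = x2
        · subst e3
          rw [if_neg hc2, if_neg hnw, if_neg (Ne.symm e1), if_pos rfl, if_pos hx2]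
          simp [Ne.symm e1]
        · have hnX : w ∉ X := by
            rw [hmX]
            rintro (h1 | h1)
            · exact e2 h1
            · exact e3 h1
          rw [if_neg hnw, if_neg (Ne.symm e1), if_neg (Ne.symm e3), if_neg hnX]
          simp [Ne.symm e1]
  · obtain ⟨I, hI1, hI2, hI3, hI4⟩ := s4_gen h X hXP q (by
      intro a b hab
      refine ⟨(hq a b hab).1, (hq a b hab).2, ?_⟩
      rintro rfl
      exact hdiag ⟨a, hab⟩)
    refine ⟨I, hI1, hI2, hI3, fun w => ?_⟩
    rw [hI4 w, htall w]

end SQF
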