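import Pool.Agent.SQF.K2
import Pool.Agent.SQF.S1
import Pool.Agent.SQF.S2
import Pool.Agent.SQF.S3
import Pool.Agent.SQF.S4

set_option autoImplicit false
set_option linter.unusedSectionVars false
set_option linter.unusedVariables false
set_option linter.unusedDecidableInType false

/-! [SQF-G1] the cluster of a light vertex -/

open Finset
open scoped Classical

namespace SQF

variable {V : Type} [Fintype V] [DecidableEq V] {G : SimpleGraph V} {T : Prop}

/-- counting over `V × Bool` -/
theorem g1a_cnt (ψ : V × Bool → Option V) (w : V) :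
    cnt ψ w = (univ.filter (fun v => ψ (v, true) = some w)).card
      + (univ.filter (fun v => ψ (v, false) = some w)).card := by
  unfold cnt
  rw [card_filter, card_filter, card_filter, Fintype.sum_prod_type, ← sum_add_distrib]
  refine sum_congr rfl ?_
  intro v _
  rw [Fintype.sum_bool]

theorem g1a_sl_c {c : V} (hS : Shape T c (Pc G T c) (Ac G T c) (Ec G T c)) (s : Bool) :
    sl G T c c s = ∅ := by
  unfold sl
  rw [if_pos rfl, if_neg]
  rintro ⟨h1, h2⟩
  exact h1 (hS.ppT h2)

theorem g1a_sl_P {c : V} (hS : Shape T c (Pc G T c) (Ac G T c) (Ec G T c)) {v : V}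
    (hv : v ∈ Pc G T c) (w : V) : w ∈ sl G T c v true ↔
      (w = c ∨ w ∈ Ac G T c ∨ (w ∈ Pc G T c ∧ w ≠ v ∧ T ∧ pp G T c)) := by
  have hvc : v ≠ c := by
    rintro rfl
    exact hS.cnP hv
  unfold sl
  rw [if_neg hvc, if_pos hv, if_pos rfl, mem_union, mem_insert]
  by_cases h : T ∧ pp G T c
  · rw [if_pos h, mem_erase]
    tauto
  · rw [if_neg h]
    have h1 : w ∉ (∅ : Finset V) := notMem_empty w
    tauto

theorem g1a_sl_A {c : V} (hS : Shape T c (Pc G T c) (Ac G T c) (Ec G T c)) {v : V}
    (hv : v ∈ Ac G T c) : sl G T c v true = Pc G T c := by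
  have hvc : v ≠ c := by
    rintro rfl
    exact hS.cnA hv
  have hvP : v ∉ Pc G T c := fun h => hS.dis v h hv
  unfold sl
  rw [if_neg hvc, if_neg hvP, if_pos hv, if_pos rfl]

theorem g1a_sl_false {c : V} (hS : Shape T c (Pc G T c) (Ac G T c) (Ec G T c)) {v : V}
    (hv : v ∈ Pc G T c ∨ v ∈ Ac G T c) : sl G T c v false = {v} := by
  have hvc : v ≠ c := by
    rintro rfl
    rcases hv with hv | hv
    · exact hS.cnP hv
    · exact hS.cnA hv
  unfold sl
  rw [if_neg hvc]
  by_cases hvP : v ∈ Pc G T c
  · rw [if_pos hvP, if_neg (by simp)]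
  · rw [if_neg hvP, if_pos (hv.resolve_left hvP), if_neg (by simp)]

/-- outside `P` and `A` there is nothing -/
theorem g1a_sl_out {c : V} (hS : Shape T c (Pc G T c) (Ac G T c) (Ec G T c)) {v : V}
    (hP : v ∉ Pc G T c) (hA : v ∉ Ac G T c) (s : Bool) : sl G T c v s = ∅ := by
  by_cases hvc : v = c
  · rw [hvc]
    exact g1a_sl_c hS s
  · unfold sl
    rw [if_neg hvc, if_neg hP, if_neg hA]

/-- (G1a) PROOF. `sl` for the case `¬ T ∧ pp` false: `Val` gives `t v ∈ sl v true`, and `sl v false = {v}` for `v ∈ Pc ∪ Ac` (`c ∉ Pc ∪ Ac` from the shape). `ψ (v, true) = t v`, `ψ (v, false) = if t v = none then none else some v`. Count: the pairs `(v, true)` with `t v = some w`, and `(w, false)` if `t w ≠ none`. The condition `T ∧ pp` for values in `Pc`: `Val.vP` gives a pair, so `pp`, and `T` by `Shape.ppT`. -/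
theorem psi_of_t {c : V} (hS : Shape T c (Pc G T c) (Ac G T c) (Ec G T c)) (t : V → Option V)
    (ht : Val c (Pc G T c) (Ac G T c) (Ec G T c) t) : ∃ ψ, Psi G T c ψ ∧ ∀ w, cnt ψ w = tc t w := by
  obtain ⟨ψ, hψ1, hψ2⟩ : ∃ ψ : V × Bool → Option V, (∀ v, ψ (v, true) = t v) ∧
      ∀ v, ψ (v, false) = if t v = none then none else some v :=
    ⟨fun n => if n.2 then t n.1 else (if t n.1 = none then none else some n.1),
      fun v => if_pos rfl, fun v => if_neg (by simp)⟩
  have hmem : ∀ v, t v ≠ none → v ∈ Pc G T c ∨ v ∈ Ac G T c := by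
    intro v hv
    obtain ⟨u, hu⟩ := Option.ne_none_iff_exists'.1 hv
    exact ht.sup v u hu
  refine ⟨ψ, ⟨?_, ?_⟩, ?_⟩
  · intro v s
    rcases s with _ | _
    · intro h
      rw [hψ2] at h
      rw [Bool.not_false, hψ1]
      by_contra hcon
      rw [if_neg hcon] at h
      exact absurd h (by simp)
    · intro h
      rw [hψ1] at h
      rw [Bool.not_true, hψ2, if_pos h]
  · intro v s w h
    rcases s with _ | _
    · rw [hψ2] at h
      by_cases hv : t v = none
      · rw [if_pos hv] at h
        exact absurd h (by simp)
      · rw [if_neg hv] at h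
        have hvw : v = w := Option.some.inj h
        rw [g1a_sl_false hS (hmem v hv), hvw]
        exact mem_singleton_self w
    · rw [hψ1] at h
      rcases ht.sup v w h with hv | hv
      · rw [g1a_sl_P hS hv]
        rcases ht.vP v hv w h with h1 | h1 | ⟨h1, h2, y, hy, z, hz, h3⟩
        · exact Or.inl h1
        · exact Or.inr (Or.inl h1)
        · exact Or.inr (Or.inr ⟨h1, h2, hS.ppT ⟨y, hy, z, hz, h3⟩, ⟨y, hy, z, hz, h3⟩⟩)
      · rw [g1a_sl_A hS hv]
        exact ht.vA v hv w h
  · intro w
    rw [g1a_cnt]
    unfold tc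
    rw [add_comm]
    congr 1
    · by_cases hw : t w = none
      · rw [if_pos hw, card_eq_zero, filter_eq_empty_iff]
        intro v _ hv
        rw [hψ2] at hv
        by_cases hv0 : t v = none
        · rw [if_pos hv0] at hv
          exact absurd hv (by simp)
        · rw [if_neg hv0] at hv
          have hvw : v = w := Option.some.inj hv
          exact hv0 (hvw ▸ hw)
      · rw [if_neg hw, card_eq_one]
        refine ⟨w, ?_⟩
        ext v
        rw [mem_filter, mem_singleton, hψ2]
        constructor
        · rintro ⟨_, hv⟩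
          by_cases hv0 : t v = none
          · rw [if_pos hv0] at hv
            exact absurd hv (by simp)
          · rw [if_neg hv0] at hv
            exact Option.some.inj hv
        · rintro rfl
          exact ⟨mem_univ _, if_neg hw⟩
    · simp only [hψ1]

/-- (G1b) PROOF. `t v = ψ (v, true)`. `sl c s = ∅` (not `¬ T ∧ pp`, by `Shape.ppT`), so `t c = none`. -/
theorem t_of_psi {c : V} (hS : Shape T c (Pc G T c) (Ac G T c) (Ec G T c)) (ψ : V × Bool → Option V)
    (hψ : Psi G T c ψ) : ∃ t, Val c (Pc G T c) (Ac G T c) (Ec G T c) t ∧ ∀ w, tc t w = cnt ψ w := by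
  obtain ⟨t, ht⟩ : ∃ t : V → Option V, ∀ v, t v = ψ (v, true) := ⟨fun v => ψ (v, true), fun _ => rfl⟩
  have hsup : ∀ v s u, ψ (v, s) = some u → v ∈ Pc G T c ∨ v ∈ Ac G T c := by
    intro v s u h
    have h1 := hψ.2 v s u h
    by_contra hcon
    push Not at hcon
    rw [g1a_sl_out hS hcon.1 hcon.2] at h1
    exact notMem_empty _ h1
  refine ⟨t, ⟨?_, ?_, ?_⟩, ?_⟩
  · intro v u h
    rw [ht] at h
    exact hsup v true u h
  · intro a ha u h
    rw [ht] at h
    have h1 := hψ.2 a true u h
    rwa [g1a_sl_A hS ha] at h1
  · intro x hx u h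
    rw [ht] at h
    have h1 := (g1a_sl_P hS hx u).1 (hψ.2 x true u h)
    rcases h1 with h1 | h1 | ⟨h1, h2, _, h3⟩
    · exact Or.inl h1
    · exact Or.inr (Or.inl h1)
    · exact Or.inr (Or.inr ⟨h1, h2, h3⟩)
  · intro w
    rw [g1a_cnt]
    unfold tc
    rw [add_comm]
    have hfalse : ∀ v u, ψ (v, false) = some u → u = v := by
      intro v u h
      have h1 := hψ.2 v false u h
      rw [g1a_sl_false hS (hsup v false u h)] at h1
      exact mem_singleton.1 h1
    congr 1
    · simp only [ht]
    · rw [ht]
      by_cases hw : ψ (w, true) = none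
      · rw [if_pos hw, eq_comm, card_eq_zero, filter_eq_empty_iff]
        intro v _ hv
        have h1 := hfalse v w hv
        rw [← h1] at hv
        have h2 := hψ.1 w true hw
        rw [Bool.not_true, hv] at h2
        exact absurd h2 (by simp)
      · rw [if_neg hw, eq_comm, card_eq_one]
        refine ⟨w, ?_⟩
        ext v
        rw [mem_filter, mem_singleton]
        constructor
        · rintro ⟨_, hv⟩
          exact (hfalse v w hv).symm
        · rintro rfl
          refine ⟨mem_univ _, ?_⟩
          have h1 : ψ (v, false) ≠ none := fun h => hw (by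
            have h2 := hψ.1 v false h
            rwa [Bool.not_false] at h2)
          obtain ⟨u, hu⟩ := Option.ne_none_iff_exists'.1 h1
          rw [hu, hfalse v u hu]

theorem g1c_count (ψ : V × Bool → Option V) (t : V → Option V) (q : Option (V × V)) (c w : V)
    (h : ∀ v, (if ψ (v, true) = some w then 1 else 0) + (if ψ (v, false) = some w then 1 else 0) =
      (if t v = some w then 1 else 0) + (if v = w then (if t w = none then 0 else 1) else 0) +
        (if v = c then qc q w else 0)) : cnt ψ w = tc t w + qc q w := by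
  unfold cnt tc
  rw [card_filter, card_filter, Fintype.sum_prod_type]
  simp only [Fintype.sum_bool]
  rw [sum_congr rfl (fun v _ => h v), sum_add_distrib, sum_add_distrib, sum_ite_eq', sum_ite_eq']
  simp only [mem_univ, if_true]
  omega

theorem g1c_pp {c : V} (hS : Shape4 c (Pc G T c) (Ec G T c)) : pp G T c := by
  obtain ⟨x, hx, y, hy, hxy⟩ := one_lt_card.1 (by rw [hS.three]; norm_num : 1 < (Pc G T c).card)
  exact ⟨x, hx, y, hy, (hS.iff x y).2 ⟨hxy, Or.inr hx, Or.inr hy⟩⟩

theorem g1c_sl_c {c : V} (hT : ¬ T) (hS : Shape4 c (Pc G T c) (Ec G T c)) (s : Bool) :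
    sl G T c c s = Pc G T c := by
  unfold sl
  rw [if_pos rfl, if_pos ⟨hT, g1c_pp hS⟩]

theorem g1c_sl_true {c : V} (hT : ¬ T) (hA : Ac G T c = ∅) {v : V} (hv : v ≠ c)
    (h : v ∈ Pc G T c) : sl G T c v true = {c} := by
  unfold sl
  rw [if_neg hv, if_pos h, if_pos rfl, hA, if_neg (fun h => hT h.1)]
  rfl

theorem g1c_sl_false {c : V} {v : V} (hv : v ≠ c) (h : v ∈ Pc G T c) : sl G T c v false = {v} := by
  unfold sl
  rw [if_neg hv, if_pos h, if_neg (by decide)]

theorem g1c_sl_out {c : V} (hA : Ac G T c = ∅) {v : V} (hv : v ≠ c) (h : v ∉ Pc G T c) (s : Bool) :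
    sl G T c v s = ∅ := by
  unfold sl
  rw [if_neg hv, if_neg h, if_neg (by rw [hA]; exact notMem_empty v)]

/-- (G1c) the same for `K_4`. PROOF. `pp` holds (`Shape4.iff`, `P` has two elements), `¬ T`, so `sl c s = Pc`; for `x ∈ Pc`: `sl x true = insert c ∅`, `sl x false = {x}`. `ψ (x, true) = t x`, `ψ (x, false) = some x` if `t x ≠ none`, `ψ (c, false) = s`, `ψ (c, true) = u` if `q = some (s, u)`. -/
theorem psi_of_q {c : V} (hT : ¬ T) (hA : Ac G T c = ∅) (hS : Shape4 c (Pc G T c) (Ec G T c))
    (t : V → Option V) (q : Option (V × V)) (ht : ∀ v u, t v = some u → v ∈ Pc G T c ∧ u = c)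
    (hq : ∀ s u, q = some (s, u) → s ∈ Pc G T c ∧ u ∈ Pc G T c) :
    ∃ ψ, Psi G T c ψ ∧ ∀ w, cnt ψ w = tc t w + qc q w := by
  have htc : t c = none := by
    rcases h : t c with _ | u
    · rfl
    · exact absurd (ht c u h).1 hS.cnP
  refine ⟨fun p => if p.1 = c then (match q with
    | none => none
    | some r => if p.2 then some r.2 else some r.1)
    else if p.2 then t p.1 else (if t p.1 = none then none else some p.1), ⟨?_, ?_⟩, ?_⟩
  · intro v s h
    by_cases hv : v = c
    · subst hv
      simp only [if_true] at h ⊢
      rcases q with _ | r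
      · rfl
      · simp only at h
        split_ifs at h
    · simp only [if_neg hv] at h ⊢
      cases s
      · simp only [Bool.false_eq_true, if_false, ite_eq_left_iff, reduceCtorEq, imp_false,
          not_not] at h
        simp only [Bool.not_false, if_true]
        exact h
      · simp only [if_true] at h
        simp only [Bool.not_true, Bool.false_eq_true, if_false, h, if_true]
  · intro v s w h
    by_cases hv : v = c
    · subst hv
      rw [g1c_sl_c hT hS]
      simp only [if_true] at h
      rcases q with _ | ⟨r1, r2⟩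
      · simp at h
      · have h1 := hq r1 r2 rfl
        simp only at h
        split_ifs at h
        · obtain rfl := Option.some.inj h
          exact h1.2
        · obtain rfl := Option.some.inj h
          exact h1.1
    · simp only [if_neg hv] at h
      cases s
      · simp only [Bool.false_eq_true, if_false] at h
        split_ifs at h with h2
        obtain rfl := Option.some.inj h
        obtain ⟨u, hu⟩ := Option.ne_none_iff_exists'.1 h2
        rw [g1c_sl_false hv (ht v u hu).1]
        exact mem_singleton_self v
      · simp only [if_true] at h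
        obtain ⟨h1, rfl⟩ := ht v w h
        rw [g1c_sl_true hT hA hv h1]
        exact mem_singleton_self w
  · intro w
    apply g1c_count (c := c)
    intro v
    by_cases hv : v = c
    · subst hv
      simp only [if_true, Bool.false_eq_true, if_false, htc]
      rcases q with _ | ⟨r1, r2⟩
      · simp only [qc, reduceCtorEq, if_false]
        by_cases hvw : v = w
        · subst hvw
          simp [htc]
        · simp [hvw]
      · simp only [qc, reduceCtorEq, if_false, Option.some.injEq]
        by_cases hvw : v = w
        · subst hvw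
          simp only [htc, if_true]
          omega
        · simp only [hvw, if_false]
          omega
    · simp only [if_neg hv, if_true, Bool.false_eq_true, if_false]
      by_cases hvw : v = w
      · subst hvw
        by_cases h2 : t v = none
        · simp [h2]
        · simp [h2]
      · by_cases h2 : t v = none
        · simp [h2, hvw]
        · simp [h2, hvw]

/-- (G1d) PROOF. `t v = ψ (v, true)` for `v ≠ c`, `t c = none`, `q = some (s, u)` if `ψ (c, false) = some s`, `ψ (c, true) = some u`. -/
theorem q_of_psi {c : V} (hT : ¬ T) (hA : Ac G T c = ∅) (hS : Shape4 c (Pc G T c) (Ec G T c))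
    (ψ : V × Bool → Option V) (hψ : Psi G T c ψ) :
    ∃ (t : V → Option V) (q : Option (V × V)), (∀ v u, t v = some u → v ∈ Pc G T c ∧ u = c) ∧
      (∀ s u, q = some (s, u) → s ∈ Pc G T c ∧ u ∈ Pc G T c) ∧ ∀ w, tc t w + qc q w = cnt ψ w := by
  have hz : ∀ v s, ψ (v, s) = none ↔ ψ (v, !s) = none := by
    intro v s
    refine ⟨hψ.1 v s, fun h => ?_⟩
    have := hψ.1 v (!s) h
    rwa [Bool.not_not] at this
  have hz' : ∀ v, ψ (v, false) = none ↔ ψ (v, true) = none := fun v => hz v false
  have hF : ∀ v u, v ≠ c → ψ (v, false) = some u → u = v := by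
    intro v u hv h
    have h1 := hψ.2 v false u h
    by_cases h2 : v ∈ Pc G T c
    · rw [g1c_sl_false hv h2] at h1
      exact mem_singleton.1 h1
    · rw [g1c_sl_out hA hv h2] at h1
      exact absurd h1 (notMem_empty u)
  refine ⟨fun v => if v = c then none else ψ (v, true), (match ψ (c, false) with
    | none => none
    | some s => match ψ (c, true) with
      | none => none
      | some u => some (s, u)), ?_, ?_, ?_⟩
  · intro v u h
    simp only at h
    split_ifs at h with hv
    have h1 := hψ.2 v true u h
    by_cases h2 : v ∈ Pc G T c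
    · rw [g1c_sl_true hT hA hv h2] at h1
      exact ⟨h2, mem_singleton.1 h1⟩
    · rw [g1c_sl_out hA hv h2] at h1
      exact absurd h1 (notMem_empty u)
  · intro s u h
    rcases h1 : ψ (c, false) with _ | s'
    · simp [h1] at h
    · rcases h2 : ψ (c, true) with _ | u'
      · simp [h1, h2] at h
      · simp only [h1, h2, Option.some.injEq, Prod.mk.injEq] at h
        obtain ⟨rfl, rfl⟩ := h
        have a1 := hψ.2 c false s' h1
        have a2 := hψ.2 c true u' h2
        rw [g1c_sl_c hT hS] at a1 a2
        exact ⟨a1, a2⟩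
  · intro w
    symm
    apply g1c_count (c := c)
    intro v
    by_cases hv : v = c
    · subst hv
      have e : (if v = w then (if (if w = v then none else ψ (w, true)) = none then 0 else 1)
          else 0) = 0 := by
        by_cases hvw : v = w
        · subst hvw
          simp
        · simp [hvw]
      rw [e]
      simp only [if_true, reduceCtorEq, if_false]
      rcases h1 : ψ (v, false) with _ | s'
      · have h2 := (hz' v).1 h1
        simp [h2, qc]
      · rcases h2 : ψ (v, true) with _ | u'
        · rw [(hz' v).2 h2] at h1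
          exact absurd h1 (by simp)
        · simp only [qc, Option.some.injEq]
          omega
    · simp only [if_neg hv]
      by_cases hvw : v = w
      · subst hvw
        simp only [if_true, if_neg hv]
        rcases h1 : ψ (v, false) with _ | s'
        · have h2 := (hz' v).1 h1
          simp [h2]
        · have h3 := hF v s' hv h1
          subst h3
          have h4 : ψ (s', true) ≠ none := by
            intro h
            rw [(hz' s').2 h] at h1
            exact absurd h1 (by simp)
          simp [h4]
      · simp only [hvw, if_false]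
        rcases h1 : ψ (v, false) with _ | s'
        · simp
        · have h3 := hF v s' hv h1
          subst h3
          simp [hvw]

end SQF
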