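import Pool.Agent.SQF.G1

set_option autoImplicit false
set_option linter.unusedSectionVars false
set_option linter.unusedVariables false
set_option linter.unusedDecidableInType false

/-! [SQF-G2] the cluster of a light vertex: the two directions -/

open Finset
open scoped Classical

namespace SQF

variable {V : Type} [Fintype V] [DecidableEq V] {G : SimpleGraph V} {T : Prop}

theorem g2_empty {c : V} (hP : Pc G T c = ∅) (u v : V) : ¬ Ec G T c u v := by
  rintro ⟨E, hE, hc, _⟩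
  obtain ⟨x, _, _, h1, _, _⟩ := hE.1.two hc
  have : x ∈ Pc G T c := by
    unfold Pc
    simp only [mem_filter, mem_univ, true_and]
    exact ⟨E, hE, hc, h1⟩
  rw [hP] at this
  simp at this

/-- (G2a) PROOF. `Pc = ∅`: then `Ec c` is empty (a dangerous cycle through `c` gives an element of `Pc`), `I` is empty, `ψ = none`. Otherwise `shape` (K2) and `Shape.rf`, `psi_of_t`, or `Shape4.rf`, `psi_of_q`. -/
theorem clus_rf (hG : Good G T) {c : V} (hl : Light G c) (I : V → V → Prop) (hs : ∀ u v, I u v → I v u)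
    (hK : ∀ u v, I u v → Ec G T c u v) (hd : ∀ v, dg I v ≤ 2) (hc : (Pc G T c).card ≤ dg I c + 1)
    (hn : NoC T c I) : ∃ ψ, Psi G T c ψ ∧ ∀ w, cnt ψ w = dg I w := by
  by_cases hP : Pc G T c = ∅
  · refine ⟨fun _ => none, ⟨fun _ _ _ => rfl, fun v s w h => by simp at h⟩, fun w => ?_⟩
    have h1 : dg I w = 0 := by
      unfold dg
      rw [card_eq_zero, filter_eq_empty_iff]
      intro u _ h
      exact g2_empty hP _ _ (hK _ _ h)
    rw [h1]
    unfold cnt
    rw [card_eq_zero, filter_eq_empty_iff]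
    intro n _ h
    simp at h
  · rcases shape hG hl hP with h | ⟨hT, hA, h⟩
    · obtain ⟨t, ht, ht2⟩ := h.rf I hs hK hd hc hn
      obtain ⟨ψ, h1, h2⟩ := psi_of_t h t ht
      exact ⟨ψ, h1, fun w => by rw [h2, ht2]⟩
    · obtain ⟨t, q, h1, h2, h3⟩ := h.rf I hs hK hd hc hn.sq
      obtain ⟨ψ, h4, h5⟩ := psi_of_q hT hA h t q h1 h2
      exact ⟨ψ, h4, fun w => by rw [h5, h3]⟩

/-- (G2b) PROOF. `Pc = ∅`: all `sl` are empty (`Ac = ∅` too), `ψ` is `none` everywhere, `I` empty. Otherwise `shape` (K2), `t_of_psi`, `Shape.fr` or `q_of_psi`, `Shape4.fr` (there `NoC T` follows because `T` is false). -/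
theorem clus_fr (hG : Good G T) {c : V} (hl : Light G c) (ψ : V × Bool → Option V) (hψ : Psi G T c ψ)
    (hd : ∀ w, cnt ψ w ≤ 2) (hc : (Pc G T c).card ≤ cnt ψ c + 1) :
    ∃ I : V → V → Prop, (∀ u v, I u v → I v u) ∧ (∀ u v, I u v → Ec G T c u v) ∧ NoC T c I ∧
      ∀ w, dg I w = cnt ψ w := by
  by_cases hP : Pc G T c = ∅
  · refine ⟨fun _ _ => False, fun _ _ h => h, fun _ _ h => h.elim,
      ⟨fun _ _ _ h => h.1, fun _ _ _ _ _ h => h.1⟩, fun w => ?_⟩
    have hA : Ac G T c = ∅ := by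
      unfold Ac
      rw [filter_eq_empty_iff]
      rintro a _ ⟨_, _, x, hx⟩
      exact g2_empty hP _ _ hx
    have hsl : ∀ v s, sl G T c v s = ∅ := by
      intro v s
      unfold sl
      simp [hP, hA]
    have h1 : cnt ψ w = 0 := by
      unfold cnt
      rw [card_eq_zero, filter_eq_empty_iff]
      rintro ⟨v, s⟩ _ h
      have := hψ.2 v s w h
      rw [hsl] at this
      simp at this
    rw [h1]
    unfold dg
    simp
  · rcases shape hG hl hP with h | ⟨hT, hA, h⟩
    · obtain ⟨t, ht, ht2⟩ := t_of_psi h ψ hψ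
      obtain ⟨I, i1, i2, i3, i4⟩ := h.fr t ht (fun w => by rw [ht2]; exact hd w) (by rw [ht2]; exact hc)
      exact ⟨I, i1, i2, i3, fun w => by rw [i4, ht2]⟩
    · obtain ⟨t, q, h1, h2, h3⟩ := q_of_psi hT hA h ψ hψ
      obtain ⟨I, i1, i2, i3, i4⟩ := h.fr t q h1 h2 (fun w => by rw [h3]; exact hd w) (by rw [h3]; exact hc)
      exact ⟨I, i1, i2, ⟨fun hT' => absurd hT' hT, i3⟩, fun w => by rw [i4, h3]⟩

end SQF
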