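import Pool.Agent.SQF.G2

set_option autoImplicit false
set_option linter.unusedSectionVars false
set_option linter.unusedVariables false
set_option linter.unusedDecidableInType false

/-! [SQF-G3] counting lemmas for the gluing -/

open Finset
open scoped Classical

namespace SQF

variable {V : Type} [Fintype V] [DecidableEq V] {G : SimpleGraph V} {T : Prop} {C : Finset V}

/-- (G3a) PROOF. `univ` of a sum type and of a product: `card` of the filter = sum over `inl` and `inr` (`Finset.card_filter`, `Fintype.sum_sum_type`, `Fintype.sum_prod_type`). -/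
theorem cnt_split (φ : Node G T C → Option V) (v : V) : cnt φ v =
    (univ.filter (fun p : {p : V × V // Ord G T C p.1 p.2} => φ (Sum.inl p) = some v)).card +
      ∑ c : {c : V // c ∈ C}, cnt (fun q : V × Bool => φ (Sum.inr (c, q))) v := by
  unfold cnt
  simp only [card_filter]
  rw [Fintype.sum_sum_type]
  congr 1
  rw [Fintype.sum_prod_type]

/-- (G3b) every edge of `G` is ordinary or in exactly one cluster. PROOF. `dg R v = ∑ u, if R v u then 1 else 0`; exchange the sums; for each `u` with `R v u`: `G.Adj v u`; if `Ord` then no `Ec c v u`; if not `Ord` there is `c ∈ C` with `Ec c v u`, unique by `hC.uniq` (D1d). -/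
theorem dg_split (hC : Rep G T C) (R : V → V → Prop) (hR : ∀ u v, R u v → G.Adj u v) (v : V) :
    dg R v = dg (fun u w => Ord G T C u w ∧ R u w) v +
      ∑ c : {c : V // c ∈ C}, dg (fun u w => Ec G T c.1 u w ∧ R u w) v := by
  unfold dg
  simp only [card_filter]
  rw [Finset.sum_comm, ← Finset.sum_add_distrib]
  refine Finset.sum_congr rfl (fun u _ => ?_)
  by_cases hr : R v u
  · by_cases ho : Ord G T C v u
    · have h0 : ∀ c : {c : V // c ∈ C}, ¬ (Ec G T c.1 v u ∧ R v u) := fun c h => ho.2 c.1 c.2 h.1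
      simp [hr, ho, h0]
      intro c hc h
      exact ho.2 c hc h
    · have h1 : ∃ c ∈ C, Ec G T c v u := by
        by_contra hne
        push Not at hne
        exact ho ⟨hR v u hr, hne⟩
      obtain ⟨c, hc, hec⟩ := h1
      rw [Finset.sum_eq_single (⟨c, hc⟩ : {c : V // c ∈ C})]
      · simp [hr, ho, hec]
      · intro c' _ hne
        rw [if_neg]
        rintro ⟨h, _⟩
        exact hne (Subtype.ext (hC.uniq c'.2 hc h hec))
      · intro h
        exact absurd (mem_univ _) h
  · simp [hr]

/-- (G3c) PROOF. The neighbours of `c` are those in `Pc` and the others: `dg G.Adj c ≤ 3` (`Light`). (`Ec c u v → G.Adj u v` by `Cyc.adj`.) -/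
theorem light_bound {c : V} (hl : Light G c) :
    dg (fun u w => G.Adj u w ∧ ¬ Ec G T c u w) c + (Pc G T c).card ≤ 3 := by
  refine le_trans ?_ hl
  unfold dg Pc
  rw [← card_union_of_disjoint]
  · refine card_le_card (fun u hu => ?_)
    simp only [mem_union, mem_filter, mem_univ, true_and] at hu ⊢
    rcases hu with h | ⟨E, hE, _, h⟩
    · exact h.1
    · exact hE.1.adj h
  · rw [Finset.disjoint_left]
    intro u hu hu'
    simp only [mem_filter, mem_univ, true_and] at hu hu'
    exact hu.2 hu'

/-- (G3d) no node of the cluster of `c' ≠ c` can be attached to `c`. PROOF. `sl c' v s ⊆ {c'} ∪ Pc c' ∪ Ac c'`; `c ∈ Pc c'`: `Ec c' c' c`, so (symm) `Ec c' c c'`; `c ∈ Ac c'`: `Ec c' c x`; both give `c = c'` by `hC.uniq'` (D1e). -/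
theorem not_mem_sl (hC : Rep G T C) {c c' : V} (hc : c ∈ C) (hc' : c' ∈ C) (hne : c ≠ c') (v : V) (s : Bool) :
    c ∉ sl G T c' v s := by
  have hP : c ∉ Pc G T c' := by
    intro h
    unfold Pc at h
    simp only [mem_filter, mem_univ, true_and] at h
    exact hne (hC.uniq' hc hc' h.symm)
  have hA : c ∉ Ac G T c' := by
    intro h
    unfold Ac at h
    simp only [mem_filter, mem_univ, true_and] at h
    obtain ⟨_, _, x, hx⟩ := h
    exact hne (hC.uniq' hc hc' hx)
  intro h
  unfold sl at h
  split_ifs at h with h1 h2 h3 h4 h5 h6 h7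
  all_goals
    try simp only [mem_union, mem_insert, mem_singleton, mem_erase, notMem_empty, or_false] at h
  all_goals first
    | exact hP h
    | (subst h; first | exact hP h3 | exact hA h3 | exact hA h6 | exact hP h6 | exact hA h7)
    | tauto

/-- (G3e) PROOF. For `φ` an assignment, `φ (inl p) = some v` implies `v = p.1.1` (`st`), so the set is in bijection with the `u` such that `Ord v u` and `φ (inl (v, u)) = some v`. -/
theorem inl_card (φ : Node G T C → Option V) (hφ : Asg (sg G T C) (st G T C) φ) (v : V) :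
    (univ.filter (fun p : {p : V × V // Ord G T C p.1 p.2} => φ (Sum.inl p) = some v)).card =
      dg (fun u w => ∃ h : Ord G T C u w, φ (Sum.inl ⟨(u, w), h⟩) = some u) v := by
  unfold dg
  refine card_bij (fun p _ => p.1.2) ?_ ?_ ?_
  · rintro ⟨⟨u, w⟩, h⟩ hp
    simp only [mem_filter, mem_univ, true_and] at hp ⊢
    have h1 := hφ.mem _ _ hp
    simp only [st, mem_singleton] at h1
    subst h1
    exact ⟨h, hp⟩
  · rintro ⟨⟨u, w⟩, h⟩ hp ⟨⟨u', w'⟩, h'⟩ hp' he
    simp only [mem_filter, mem_univ, true_and] at hp hp' he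
    have h1 := hφ.mem _ _ hp
    have h2 := hφ.mem _ _ hp'
    simp only [st, mem_singleton] at h1 h2
    subst h1
    subst h2
    subst he
    rfl
  · intro w hw
    simp only [mem_filter, mem_univ, true_and] at hw
    obtain ⟨h, hw⟩ := hw
    exact ⟨⟨(v, w), h⟩, by simpa using hw, rfl⟩

/-- (G3f) PROOF. `sg (inl ⟨(u, w), h⟩) = inl ⟨(w, u), h.symm⟩`: if `φ (inl (w, u)) = none` then `φ (inl (u, w)) = none` (`Asg.non`); the value is in `{w}`. -/
theorem inl_symm (φ : Node G T C → Option V) (hφ : Asg (sg G T C) (st G T C) φ) {u w : V}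
    (h : ∃ h : Ord G T C u w, φ (Sum.inl ⟨(u, w), h⟩) = some u) :
    ∃ h : Ord G T C w u, φ (Sum.inl ⟨(w, u), h⟩) = some w := by
  obtain ⟨h, h1⟩ := h
  refine ⟨h.symm, ?_⟩
  rcases h2 : φ (Sum.inl ⟨(w, u), h.symm⟩) with _ | x
  · have h3 := hφ.non _ h2
    have h4 : φ (Sum.inl ⟨(u, w), h⟩) = none := h3
    rw [h4] at h1
    simp at h1
  · have h3 := hφ.mem _ _ h2
    simp only [st, mem_singleton] at h3
    rw [h3]

end SQF
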