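import Pool.Agent.SQF.G3

set_option autoImplicit false
set_option linter.unusedSectionVars false
set_option linter.unusedVariables false
set_option linter.unusedDecidableInType false

/-! [SQF-G4] from a 2-factor to an assignment -/

open Finset
open scoped Classical

namespace SQF

variable {V : Type} [Fintype V] [DecidableEq V] {G F : SimpleGraph V} {T : Prop} {C : Finset V}

/-- (G4a) a 2-factor without forbidden cycles has no forbidden cycle through `c` in the cluster. PROOF. A triangle or 4-cycle in `F` gives `Cyc F T E`. -/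
theorem noC_of_free {c : V} (hn : ∀ E, ¬ Cyc F T E) :
    NoC T c (fun u w => Ec G T c u w ∧ F.Adj u w) := by
  refine ⟨?_, ?_⟩
  · rintro hT x y ⟨h1, h2, h3⟩
    exact hn _ (Or.inl ⟨hT, c, x, y, h1.2, h2.2, h3.2, rfl⟩)
  · rintro x a y hxy hac ⟨h1, h2, h3, h4⟩
    exact hn _ (Or.inr ⟨c, x, a, y, hac.symm, hxy, h1.2, h2.2, h3.2, h4.2, rfl⟩)

/-- (G4b) PROOF. `2 = dg F.Adj c = dg (Ec ∧ F) c + dg (F ∧ ¬ Ec) c ≤ dg (Ec ∧ F) c + (3 - Pc.card)` (`light_bound`, G3c). -/
theorem low_F (hF : F ≤ G) (h2 : ∀ v, dg F.Adj v = 2) {c : V} (hl : Light G c) :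
    (Pc G T c).card ≤ dg (fun u w => Ec G T c u w ∧ F.Adj u w) c + 1 := by
  have h3 := light_bound (T := T) hl
  have h4 : dg F.Adj c ≤ dg (fun u w => Ec G T c u w ∧ F.Adj u w) c +
      dg (fun u w => G.Adj u w ∧ ¬ Ec G T c u w) c := by
    unfold dg
    refine le_trans (card_le_card ?_) (card_union_le _ _)
    intro u hu
    simp only [mem_union, mem_filter, mem_univ, true_and] at hu ⊢
    by_cases he : Ec G T c c u
    · exact Or.inl ⟨he, hu⟩
    · exact Or.inr ⟨hF hu, he⟩
  have h5 := h2 c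
  omega

/-- (G4c) PROOF. For every `c ∈ C` let `ψ_c` be given by `clus_rf` (G2a) for `I_c u w := Ec c u w ∧ F.Adj u w` (symmetric; degrees at most `dg F = 2`, `dg_mono`; (G4a), (G4b)); choose. `φ (inl p) = if F.Adj p.1.1 p.1.2 then some p.1.1 else none`, `φ (inr (c, v, s)) = ψ_c (v, s)`. `Asg`: clear. `cnt φ v = dg (Ord ∧ F) v + ∑ dg I_c v` (`cnt_split`, `inl_card`) `= dg F.Adj v = 2` (`dg_split`). -/
theorem to_asg (hG : Good G T) (hC : Rep G T C) (hF : F ≤ G) (h2 : ∀ v, dg F.Adj v = 2)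
    (hn : ∀ E, ¬ Cyc F T E) :
    ∃ φ : Node G T C → Option V, Asg (sg G T C) (st G T C) φ ∧ ∀ v, cnt φ v = 2 := by
  have key : ∀ c : {c : V // c ∈ C}, ∃ ψ, Psi G T c.1 ψ ∧
      ∀ w, cnt ψ w = dg (fun u w => Ec G T c.1 u w ∧ F.Adj u w) w := by
    intro c
    refine clus_rf hG (hC.light c.1 c.2) (fun u w => Ec G T c.1 u w ∧ F.Adj u w)
      (fun u v h => ⟨h.1.symm, h.2.symm⟩) (fun u v h => h.1) (fun v => ?_)
      (low_F hF h2 (hC.light c.1 c.2)) (noC_of_free hn)
    rw [← h2 v]
    exact dg_mono (fun u w h => h.2) v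
  choose ψ hψ hψ2 using key
  refine ⟨Sum.elim (fun p => if F.Adj p.1.1 p.1.2 then some p.1.1 else none) (fun q => ψ q.1 q.2), ?_, ?_⟩
  · refine ⟨?_, ?_⟩
    · rintro (⟨⟨u, w⟩, h⟩ | ⟨c, v, s⟩) hn'
      · by_cases hf : F.Adj u w
        · simp [hf] at hn'
        · have hf' : ¬ F.Adj w u := fun h' => hf h'.symm
          simp [sg, hf']
      · exact (hψ c).1 v s hn'
    · rintro (⟨⟨u, w⟩, h⟩ | ⟨c, v, s⟩) x hx
      · by_cases hf : F.Adj u w
        · simp only [Sum.elim_inl, hf, if_true, Option.some.injEq] at hx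
          simp [st, hx]
        · simp [hf] at hx
      · exact (hψ c).2 v s x hx
  · intro v
    rw [cnt_split, ← h2 v, dg_split hC F.Adj (fun u w h => hF h) v]
    congr 1
    · unfold dg
      refine card_bij (fun p _ => p.1.2) ?_ ?_ ?_
      · rintro ⟨⟨u, w⟩, h⟩ hp
        simp only [mem_filter, mem_univ, true_and, Sum.elim_inl] at hp ⊢
        by_cases hf : F.Adj u w
        · simp only [hf, if_true, Option.some.injEq] at hp
          subst hp
          exact ⟨h, hf⟩
        · simp [hf] at hp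
      · rintro ⟨⟨u, w⟩, h⟩ hp ⟨⟨u', w'⟩, h'⟩ hp' he
        simp only [mem_filter, mem_univ, true_and, Sum.elim_inl] at hp hp' he
        split_ifs at hp hp'
        simp only [Option.some.injEq] at hp hp'
        subst hp
        subst hp'
        subst he
        rfl
      · intro w hw
        simp only [mem_filter, mem_univ, true_and] at hw
        exact ⟨⟨(v, w), hw.1⟩, by simp [hw.2], rfl⟩
    · refine sum_congr rfl (fun c _ => ?_)
      rw [← hψ2 c v]
      rfl

end SQF
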