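import Pool.Agent.SQF.G3

set_option autoImplicit false
set_option linter.unusedSectionVars false
set_option linter.unusedVariables false
set_option linter.unusedDecidableInType false

/-! [SQF-G5] from an assignment to a 2-factor -/

open Finset
open scoped Classical

namespace SQF

variable {V : Type} [Fintype V] [DecidableEq V] {G : SimpleGraph V} {T : Prop} {C : Finset V}

/-- (G5a) PROOF. `non`: `sg (inr (c, v, s)) = inr (c, v, !s)`; `mem`: `st`. -/
theorem psi_of_asg {φ : Node G T C → Option V} (hφ : Asg (sg G T C) (st G T C) φ) (c : {c : V // c ∈ C}) :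
    Psi G T c.1 (fun q : V × Bool => φ (Sum.inr (c, q))) := by
  refine ⟨fun v s h => ?_, fun v s w h => ?_⟩
  · exact hφ.non (Sum.inr (c, (v, s))) h
  · exact hφ.mem (Sum.inr (c, (v, s))) w h

/-- (G5b) PROOF. `cnt_split` (G3a) at `c`, with total 2: the clusters of `c' ≠ c` contribute 0 (`not_mem_sl`, G3d, and (G5a)), the first term is at most `dg (G.Adj ∧ ¬ Ec c) c` (`inl_card`, G3e; `Ord` excludes `Ec c`), which is at most `3 - Pc.card` (G3c). -/
theorem low_phi (hC : Rep G T C) {φ : Node G T C → Option V} (hφ : Asg (sg G T C) (st G T C) φ)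
    (h2 : ∀ v, cnt φ v = 2) (c : {c : V // c ∈ C}) :
    (Pc G T c.1).card ≤ cnt (fun q : V × Bool => φ (Sum.inr (c, q))) c.1 + 1 := by
  have h3 := light_bound (T := T) (hC.light c.1 c.2)
  have h4 := cnt_split φ c.1
  rw [h2 c.1, inl_card φ hφ, Finset.sum_eq_single c] at h4
  · have h5 : dg (fun u w => ∃ h : Ord G T C u w, φ (Sum.inl ⟨(u, w), h⟩) = some u) c.1 ≤
        dg (fun u w => G.Adj u w ∧ ¬ Ec G T c.1 u w) c.1 := by
      refine dg_mono ?_ c.1
      rintro u w ⟨h, _⟩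
      exact ⟨h.1, h.2 c.1 c.2⟩
    omega
  · intro c' _ hne
    unfold cnt
    rw [card_eq_zero, filter_eq_empty_iff]
    rintro ⟨v, s⟩ _ h
    have h5 := (psi_of_asg hφ c').2 v s c.1 h
    exact not_mem_sl hC c.2 c'.2 (fun h => hne (Subtype.ext h.symm)) v s h5
  · intro h
    exact absurd (mem_univ _) h

/-- (G5c) a dangerous cycle inside `F` gives a forbidden cycle through its centre inside the relation `I`. PROOF. `c ∈ C` on `E` (`hC.hit`); labelled form of `E` at `c` (`Cyc.at` for `F`); all edges of `E` satisfy `Ec c` (definition), so by `hI` they are in `I c`; contradiction to `NoC`. -/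
theorem no_dang (hC : Rep G T C) {F : SimpleGraph V} (I : {c : V // c ∈ C} → V → V → Prop)
    (hN : ∀ c, NoC T c.1 (I c)) (hI : ∀ (c : {c : V // c ∈ C}) u w, F.Adj u w → Ec G T c.1 u w → I c u w)
    (E : Finset (Sym2 V)) (hE : Cyc F T E) : ¬ Dang G T E := by
  intro hD
  obtain ⟨c, hc, hcE⟩ := hC.hit E hD
  have hec : ∀ u w, s(u, w) ∈ E → Ec G T c u w := fun u w h => ⟨E, hD, hcE, h⟩
  rcases hE.at hcE with ⟨hT, x, y, h1, h2, h3, he⟩ | ⟨x, a, y, n1, n2, h1, h2, h3, h4, he⟩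
  · refine (hN ⟨c, hc⟩).tri hT x y ⟨hI ⟨c, hc⟩ _ _ h1 (hec _ _ ?_), hI ⟨c, hc⟩ _ _ h2 (hec _ _ ?_),
      hI ⟨c, hc⟩ _ _ h3 (hec _ _ ?_)⟩ <;> (rw [he]; simp)
  · refine (hN ⟨c, hc⟩).sq x a y n2 n1.symm ⟨hI ⟨c, hc⟩ _ _ h1 (hec _ _ ?_), hI ⟨c, hc⟩ _ _ h2 (hec _ _ ?_),
      hI ⟨c, hc⟩ _ _ h3 (hec _ _ ?_), hI ⟨c, hc⟩ _ _ h4 (hec _ _ ?_)⟩ <;> (rw [he]; simp)

/-- (G5d) PROOF. For every `c ∈ C` let `I c` be given by `clus_fr` (G2b) for `ψ_c = φ (inr (c, ·))` ((G5a), `cnt ψ_c w ≤ cnt φ w = 2` by `cnt_split`, (G5b)); choose. `F.Adj u w := (∃ h : Ord u w, φ (inl (u,w)) = some u) ∨ ∃ c, I c u w`: symmetric by `inl_symm` (G3f), irreflexive and `≤ G` (edges of `Ec` and `Ord` are edges of `G`).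
`dg F w`: `dg_split` (G3b): `Ord ∧ F` is the first part (`I c ≤ Ec c`, excluded by `Ord`), `Ec c ∧ F` is `I c` (`hC.uniq`), so `dg F.Adj w = inl_card + ∑ dg (I c) w = cnt φ w = 2`. No dangerous cycle: (G5c) (`F.Adj u w`, `Ec c u w`: it is not the `Ord` part, so `I c' u w` with `Ec c' u w`, `c' = c` by `hC.uniq`). -/
theorem of_asg (hG : Good G T) (hC : Rep G T C) (φ : Node G T C → Option V)
    (hφ : Asg (sg G T C) (st G T C) φ) (h2 : ∀ v, cnt φ v = 2) :
    ∃ F : SimpleGraph V, F ≤ G ∧ (∀ v, dg F.Adj v = 2) ∧ ∀ E, Cyc F T E → ¬ Dang G T E := by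
  have key : ∀ c : {c : V // c ∈ C}, ∃ I : V → V → Prop, (∀ u v, I u v → I v u) ∧
      (∀ u v, I u v → Ec G T c.1 u v) ∧ NoC T c.1 I ∧
      ∀ w, dg I w = cnt (fun q : V × Bool => φ (Sum.inr (c, q))) w := by
    intro c
    refine clus_fr hG (hC.light c.1 c.2) _ (psi_of_asg hφ c) (fun w => ?_) (low_phi hC hφ h2 c)
    rw [← h2 w, cnt_split φ w]
    refine le_trans ?_ (Nat.le_add_left _ _)
    exact Finset.single_le_sum
      (f := fun c : {c : V // c ∈ C} => cnt (fun q : V × Bool => φ (Sum.inr (c, q))) w)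
      (fun _ _ => Nat.zero_le _) (mem_univ c)
  choose I i1 i2 i3 i4 using key
  have hRG : ∀ u w, ((∃ h : Ord G T C u w, φ (Sum.inl ⟨(u, w), h⟩) = some u) ∨ ∃ c, I c u w) →
      G.Adj u w := by
    rintro u w (⟨h, _⟩ | ⟨c, h⟩)
    · exact h.1
    · obtain ⟨E, hE, _, h3⟩ := i2 c u w h
      exact hE.1.adj h3
  refine ⟨⟨fun u w => (∃ h : Ord G T C u w, φ (Sum.inl ⟨(u, w), h⟩) = some u) ∨ ∃ c, I c u w,
    ⟨?_⟩, ⟨?_⟩⟩, ?_, ?_, ?_⟩
  · rintro u w (h | ⟨c, h⟩)
    · exact Or.inl (inl_symm φ hφ h)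
    · exact Or.inr ⟨c, i1 c _ _ h⟩
  · intro u h
    exact (hRG u u h).ne rfl
  · intro u w h
    exact hRG u w h
  · intro v
    show dg (fun u w => (∃ h : Ord G T C u w, φ (Sum.inl ⟨(u, w), h⟩) = some u) ∨ ∃ c, I c u w) v = 2
    rw [dg_split hC _ hRG v, ← h2 v, cnt_split φ v, inl_card φ hφ v]
    congr 1
    · congr 1
      funext u w
      apply propext
      constructor
      · rintro ⟨ho, h | ⟨c, h⟩⟩
        · exact h
        · exact absurd (i2 c _ _ h) (ho.2 c.1 c.2)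
      · intro h
        exact ⟨h.1, Or.inl h⟩
    · refine sum_congr rfl (fun c _ => ?_)
      rw [← i4 c v]
      congr 1
      funext u w
      apply propext
      constructor
      · rintro ⟨he, ⟨ho, _⟩ | ⟨c', h⟩⟩
        · exact absurd he (ho.2 c.1 c.2)
        · have : c' = c := Subtype.ext (hC.uniq c'.2 c.2 (i2 c' _ _ h) he)
          rw [← this]; exact h
      · intro h
        exact ⟨i2 c _ _ h, Or.inr ⟨c, h⟩⟩
  · intro E hE
    refine no_dang hC I i3 ?_ E hE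
    rintro c u w (⟨ho, _⟩ | ⟨c', h⟩) he
    · exact absurd he (ho.2 c.1 c.2)
    · have : c' = c := Subtype.ext (hC.uniq c'.2 c.2 (i2 c' _ _ h) he)
      rw [← this]; exact h

end SQF
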