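import Pool.Agent.SQF.D1
import Pool.Agent.SQF.B2

set_option autoImplicit false
set_option linter.unusedSectionVars false
set_option linter.unusedVariables false
set_option linter.unusedDecidableInType false

/-! [SQF-K1] two dangerous cycles through a light vertex with different neighbours -/

open Finset
open scoped Classical

namespace SQF

variable {V : Type} [Fintype V] [DecidableEq V] {G : SimpleGraph V} {T : Prop}

/-- the 4-cycle `c x a y` is dangerous -/
def DQ (G : SimpleGraph V) (T : Prop) (c x a y : V) : Prop :=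
  c ≠ a ∧ x ≠ y ∧ G.Adj c x ∧ G.Adj x a ∧ G.Adj a y ∧ G.Adj y c ∧
    Dang G T {s(c, x), s(x, a), s(a, y), s(y, c)}

/-- the triangle `c x y` is dangerous -/
def DT (G : SimpleGraph V) (T : Prop) (c x y : V) : Prop :=
  T ∧ G.Adj c x ∧ G.Adj x y ∧ G.Adj y c ∧ Dang G T {s(c, x), s(x, y), s(y, c)}

theorem DQ.symm {c x a y : V} (h : DQ G T c x a y) : DQ G T c y a x := by
  obtain ⟨h1, h2, h3, h4, h5, h6, h7⟩ := h
  refine ⟨h1, h2.symm, h6.symm, h5.symm, h4.symm, h3.symm, ?_⟩
  have e : ({s(c, y), s(y, a), s(a, x), s(x, c)} : Finset (Sym2 V)) = {s(c, x), s(x, a), s(a, y), s(y, c)} := by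
    rw [Sym2.eq_swap (a := c) (b := y), Sym2.eq_swap (a := y) (b := a), Sym2.eq_swap (a := a) (b := x),
      Sym2.eq_swap (a := x) (b := c)]
    ext z; simp only [mem_insert, mem_singleton]; tauto
  rw [e]; exact h7

theorem DT.symm {c x y : V} (h : DT G T c x y) : DT G T c y x := by
  obtain ⟨h1, h2, h3, h4, h7⟩ := h
  refine ⟨h1, h4.symm, h3.symm, h2.symm, ?_⟩
  have e : ({s(c, y), s(y, x), s(x, c)} : Finset (Sym2 V)) = {s(c, x), s(x, y), s(y, c)} := by
    rw [Sym2.eq_swap (a := c) (b := y), Sym2.eq_swap (a := y) (b := x), Sym2.eq_swap (a := x) (b := c)]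
    ext z; simp only [mem_insert, mem_singleton]; tauto
  rw [e]; exact h7

/-- (K1a) the dangerous cycles through `c`. PROOF. `Cyc.at` (B1) and the definitions. -/
theorem dang_at {E : Finset (Sym2 V)} (h : Dang G T E) {c : V} (hc : On c E) :
    (∃ x y, DT G T c x y ∧ E = {s(c, x), s(x, y), s(y, c)}) ∨
    (∃ x a y, DQ G T c x a y ∧ E = {s(c, x), s(x, a), s(a, y), s(y, c)}) := by
  rcases h.1.at hc with ⟨hT, x, y, h1, h2, h3, rfl⟩ | ⟨x, a, y, n1, n2, h1, h2, h3, h4, rfl⟩
  · exact Or.inl ⟨x, y, ⟨hT, h1, h2, h3, h⟩, rfl⟩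
  · exact Or.inr ⟨x, a, y, ⟨n1, n2, h1, h2, h3, h4, h⟩, rfl⟩

/-- (K1b) PROOF. Let `E`, `E'` be the two edge sets; `s(c, d)` is in both. If `a ≠ e` and not (`a = f` and `e = b`), then `E ∩ E' = {s(c, d)}`: compare the 16 pairs with `Sym2.eq_iff`, using that
`c, b, a, d` are different, `c, d, e, f` are different, `b, d, f` are different (`DQ` contains the needed inequalities, `Adj.ne`). So `(E ∩ E').card = 1`, and `hG.share` gives `E.card = 3`, but `E.card = 4` (`card_sq`, B1). -/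
theorem rule_qq (hG : Good G T) {c b a d e f : V} (h1 : DQ G T c b a d) (h2 : DQ G T c d e f) (hbf : b ≠ f) :
    a = e ∨ (a = f ∧ e = b) := by
  obtain ⟨m1, m2, a1, a2, a3, a4, d1⟩ := h1
  obtain ⟨m3, m4, b1, b2, b3, b4, d2⟩ := h2
  have e1 := a1.ne
  have e2 := a2.ne
  have e3 := a3.ne
  have e4 := a4.ne
  have f1 := b1.ne
  have f2 := b2.ne
  have f3 := b3.ne
  have f4 := b4.ne
  by_contra hcon
  have hi : ({s(c, b), s(b, a), s(a, d), s(d, c)} : Finset (Sym2 V)) ∩
      {s(c, d), s(d, e), s(e, f), s(f, c)} = {s(c, d)} := by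
    apply Finset.Subset.antisymm
    · intro z hz
      rw [mem_inter] at hz
      obtain ⟨hz1, hz2⟩ := hz
      simp only [mem_insert, mem_singleton] at hz1 hz2 ⊢
      rcases hz1 with rfl | rfl | rfl | rfl
      · simp only [Sym2.eq_iff] at hz2
        exfalso
        rcases hz2 with (⟨_, h⟩ | ⟨h, h'⟩) | (⟨h, _⟩ | ⟨h, h'⟩) | (⟨h, h'⟩ | ⟨h, h'⟩) | (⟨h, h'⟩ | ⟨_, h⟩)
        · exact m2 h
        · exact e4 h.symm
        · exact f1 h
        · exact m3 h
        · exact m3 h
        · exact f4 h.symm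
        · exact f4 h.symm
        · exact hbf h
      · simp only [Sym2.eq_iff] at hz2
        exfalso
        rcases hz2 with (⟨h, _⟩ | ⟨h, h'⟩) | (⟨h, _⟩ | ⟨h, h'⟩) | (⟨h, h'⟩ | ⟨h, h'⟩) | (⟨h, h'⟩ | ⟨h, _⟩)
        · exact e1 h.symm
        · exact m2 h
        · exact m2 h
        · exact e3 h'
        · exact hcon (Or.inr ⟨h', h.symm⟩)
        · exact hbf h
        · exact hbf h
        · exact e1 h.symm
      · simp only [Sym2.eq_iff] at hz2
        exfalso
        rcases hz2 with (⟨h, _⟩ | ⟨h, h'⟩) | (⟨h, _⟩ | ⟨h, h'⟩) | (⟨h, h'⟩ | ⟨h, h'⟩) | (⟨h, h'⟩ | ⟨h, h'⟩)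
        · exact m1 h.symm
        · exact e3 h
        · exact e3 h
        · exact hcon (Or.inl h)
        · exact hcon (Or.inl h)
        · exact f2 h'
        · exact e4 h'
        · exact m1 h.symm
      · exact Sym2.eq_swap
    · intro z hz
      rw [mem_singleton] at hz
      subst hz
      rw [mem_inter]
      refine ⟨?_, by simp⟩
      rw [Sym2.eq_swap]
      simp
  have h3 := hG.share _ _ d1 d2 (by rw [hi, card_singleton])
  have h4 := card_sq e1 e2 e3 e4 m1 m2
  omega

/-- (K1c) PROOF. The same: if `e ≠ b`, the only common edge is `s(c, d)`; `hG.share` gives `E'.card = 3`, but it is 4. -/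
theorem rule_tq (hG : Good G T) {c b d e f : V} (h1 : DT G T c b d) (h2 : DQ G T c d e f) (hbf : b ≠ f) :
    e = b := by
  obtain ⟨hT, a1, a2, a4, d1⟩ := h1
  obtain ⟨m3, m4, b1, b2, b3, b4, d2⟩ := h2
  have e1 := a1.ne
  have e2 := a2.ne
  have e4 := a4.ne
  have f1 := b1.ne
  have f2 := b2.ne
  have f3 := b3.ne
  have f4 := b4.ne
  by_contra hcon
  have hi : ({s(c, b), s(b, d), s(d, c)} : Finset (Sym2 V)) ∩
      {s(c, d), s(d, e), s(e, f), s(f, c)} = {s(c, d)} := by
    apply Finset.Subset.antisymm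
    · intro z hz
      rw [mem_inter] at hz
      obtain ⟨hz1, hz2⟩ := hz
      simp only [mem_insert, mem_singleton] at hz1 hz2 ⊢
      rcases hz1 with rfl | rfl | rfl
      · simp only [Sym2.eq_iff] at hz2
        exfalso
        rcases hz2 with (⟨_, h⟩ | ⟨h, h'⟩) | (⟨h, _⟩ | ⟨h, h'⟩) | (⟨h, h'⟩ | ⟨h, h'⟩) | (⟨h, h'⟩ | ⟨_, h⟩)
        · exact e2 h
        · exact e4 h.symm
        · exact f1 h
        · exact m3 h
        · exact m3 h
        · exact f4 h.symm
        · exact f4 h.symm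
        · exact hbf h
      · simp only [Sym2.eq_iff] at hz2
        exfalso
        rcases hz2 with (⟨h, _⟩ | ⟨h, h'⟩) | (⟨h, _⟩ | ⟨h, h'⟩) | (⟨h, h'⟩ | ⟨h, h'⟩) | (⟨h, h'⟩ | ⟨h, _⟩)
        · exact e1 h.symm
        · exact e2 h
        · exact e2 h
        · exact hcon h.symm
        · exact hcon h.symm
        · exact hbf h
        · exact hbf h
        · exact e1 h.symm
      · exact Sym2.eq_swap
    · intro z hz
      rw [mem_singleton] at hz
      subst hz
      rw [mem_inter]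
      refine ⟨?_, by simp⟩
      rw [Sym2.eq_swap]
      simp
  have h3 := hG.share _ _ d1 d2 (by rw [hi, card_singleton])
  have h4 := card_sq f1 f2 f3 f4 m3 m4
  omega

end SQF
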