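import Pool.Agent.SQF.K1

set_option autoImplicit false
set_option linter.unusedSectionVars false
set_option linter.unusedVariables false
set_option linter.unusedDecidableInType false

/-! [SQF-K2] the shape of a cluster -/

open Finset
open scoped Classical

namespace SQF

variable {V : Type} [Fintype V] [DecidableEq V] {G : SimpleGraph V} {T : Prop}

/-- (K2a) PROOF. `Ec c u v`: dangerous `E ∋ s(u,v)`, `c` on `E`; `dang_at` (K1a) and `Sym2.eq_iff`. -/
theorem ec_cases {c u v : V} (h : Ec G T c u v) :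
    (∃ x y, DT G T c x y ∧ s(u, v) ∈ ({s(c, x), s(x, y), s(y, c)} : Finset (Sym2 V))) ∨
    (∃ x a y, DQ G T c x a y ∧ s(u, v) ∈ ({s(c, x), s(x, a), s(a, y), s(y, c)} : Finset (Sym2 V))) := by
  obtain ⟨E, hD, hc, he⟩ := h
  rcases dang_at hD hc with ⟨x, y, h1, rfl⟩ | ⟨x, a, y, h1, rfl⟩
  · exact Or.inl ⟨x, y, h1, he⟩
  · exact Or.inr ⟨x, a, y, h1, he⟩

/-- (K2b) PROOF. by the definition of `Ec`, `E` = the edge set of the cycle; `on_sq` (B1). -/
theorem DQ.ec {c x a y : V} (h : DQ G T c x a y) :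
    Ec G T c c x ∧ Ec G T c x a ∧ Ec G T c a y ∧ Ec G T c c y := by
  obtain ⟨-, -, -, -, -, -, h7⟩ := h
  have hc : On c ({s(c, x), s(x, a), s(a, y), s(y, c)} : Finset (Sym2 V)) :=
    on_sq.2 (Or.inl rfl)
  refine ⟨⟨_, h7, hc, by simp⟩, ⟨_, h7, hc, by simp⟩, ⟨_, h7, hc, by simp⟩, ⟨_, h7, hc, ?_⟩⟩
  rw [Sym2.eq_swap (a := c) (b := y)]
  simp

theorem DT.ec {c x y : V} (h : DT G T c x y) : Ec G T c c x ∧ Ec G T c x y ∧ Ec G T c c y := by
  obtain ⟨-, -, -, -, h7⟩ := h
  have hc : On c ({s(c, x), s(x, y), s(y, c)} : Finset (Sym2 V)) :=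
    on_tri.2 (Or.inl rfl)
  refine ⟨⟨_, h7, hc, by simp⟩, ⟨_, h7, hc, by simp⟩, ⟨_, h7, hc, ?_⟩⟩
  rw [Sym2.eq_swap (a := c) (b := y)]
  simp

/-- (K2c) PROOF. The edges `c x`, `x ∈ Pc`, are edges of `G`, so `Pc` is a set of neighbours of the light vertex `c`: at most 3. A dangerous cycle at `c` gives two elements (`DQ.ec`, `DT.ec`). -/
theorem pc_card {c : V} (hl : Light G c) (hP : Pc G T c ≠ ∅) : (Pc G T c).card = 2 ∨ (Pc G T c).card = 3 := by
  have hle : (Pc G T c).card ≤ 3 := by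
    refine le_trans (card_le_card ?_) hl
    intro x hx
    simp only [Pc, mem_filter, mem_univ, true_and] at hx ⊢
    obtain ⟨E, hD, -, he⟩ := hx
    exact hD.1.adj he
  have hge : 2 ≤ (Pc G T c).card := by
    obtain ⟨x, hx⟩ := nonempty_iff_ne_empty.2 hP
    have hx' : Ec G T c c x := by
      simpa only [Pc, mem_filter, mem_univ, true_and] using hx
    have key : ∀ u v : V, u ≠ v → Ec G T c c u → Ec G T c c v → 2 ≤ (Pc G T c).card := by
      intro u v huv h1 h2
      rw [← card_pair huv]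
      apply card_le_card
      intro z hz
      simp only [mem_insert, mem_singleton] at hz
      simp only [Pc, mem_filter, mem_univ, true_and]
      rcases hz with rfl | rfl
      · exact h1
      · exact h2
    rcases ec_cases hx' with ⟨u, v, h1, -⟩ | ⟨u, a, v, h1, -⟩
    · exact key u v h1.2.2.1.ne h1.ec.1 h1.ec.2.2
    · exact key u v h1.2.1 h1.ec.1 h1.ec.2.2.2
  omega

theorem k2d_mem {c x : V} : x ∈ Pc G T c ↔ Ec G T c c x := by
  simp [Pc]

theorem k2d_L1 (hG : Good G T) {c x a y z : V} (h : DQ G T c x a y) (ha : a ∉ Pc G T c)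
    (h2 : DT G T c z x) (hz : z ≠ y) : False := by
  have h3 := rule_tq hG h2 h hz
  apply ha
  rw [h3]
  exact k2d_mem.mpr h2.ec.1

theorem k2d_L2 (hG : Good G T) {c x a y z e : V} (h : DQ G T c x a y) (ha : a ∉ Pc G T c)
    (h2 : DQ G T c z e x) (hz : z ≠ y) : e = a := by
  rcases rule_qq hG h2 h hz with h3 | ⟨_, h3⟩
  · exact h3
  · exfalso
    apply ha
    rw [h3]
    exact k2d_mem.mpr h2.ec.1

theorem k2d_ex {c a : V} (ha : a ∈ Ac G T c) : ∃ x y, DQ G T c x a y := by
  have h1 : a ≠ c ∧ a ∉ Pc G T c ∧ ∃ x, Ec G T c a x := by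
    have := (Finset.mem_filter.mp ha).2
    exact this
  obtain ⟨hac, haP, x₀, h2⟩ := h1
  rcases ec_cases h2 with ⟨x, y, h3, h4⟩ | ⟨x, a', y, h3, h4⟩
  · exfalso
    have hx : x ∈ Pc G T c := k2d_mem.mpr h3.ec.1
    have hy : y ∈ Pc G T c := k2d_mem.mpr h3.ec.2.2
    have hax : a ≠ x := fun h => haP (h ▸ hx)
    have hay : a ≠ y := fun h => haP (h ▸ hy)
    simp only [mem_insert, mem_singleton, Sym2.eq_iff] at h4
    tauto
  · have hx : x ∈ Pc G T c := k2d_mem.mpr h3.ec.1
    have hy : y ∈ Pc G T c := k2d_mem.mpr h3.ec.2.2.2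
    have hax : a ≠ x := fun h => haP (h ▸ hx)
    have hay : a ≠ y := fun h => haP (h ▸ hy)
    have h5 : a = a' := by
      simp only [mem_insert, mem_singleton, Sym2.eq_iff] at h4
      tauto
    subst h5
    exact ⟨x, y, h3⟩

/-- from three neighbours: two dangerous 4-cycles with the same top -/
theorem k2d_pair {c a x y z : V} (hG : Good G T) (haP : a ∉ Pc G T c) (h : DQ G T c x a y)
    (hP : Pc G T c = {x, y, z}) (hzx : z ≠ x) (hzy : z ≠ y) :
    DQ G T c z a x ∨ DQ G T c z a y := by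
  have hz : z ∈ Pc G T c := by
    rw [hP]
    simp
  rcases ec_cases (k2d_mem.mp hz) with ⟨u, v, h3, h4⟩ | ⟨u, e, v, h3, h4⟩
  · exfalso
    have hw : ∃ w, DT G T c z w := by
      have h5 : z = u ∨ z = v := by
        have hcu : c ≠ u := h3.2.1.ne
        have hcv : c ≠ v := h3.2.2.2.1.ne.symm
        simp only [mem_insert, mem_singleton, Sym2.eq_iff] at h4
        tauto
      rcases h5 with h5 | h5
      · subst h5
        exact ⟨v, h3⟩
      · subst h5
        exact ⟨u, h3.symm⟩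
    obtain ⟨w, hw⟩ := hw
    have hwP : w ∈ Pc G T c := k2d_mem.mpr hw.ec.2.2
    have hwz : w ≠ z := hw.2.2.1.ne.symm
    rw [hP] at hwP
    simp only [mem_insert, mem_singleton] at hwP
    rcases hwP with h5 | h5 | h5
    · subst h5
      exact k2d_L1 hG h haP hw hzy
    · subst h5
      exact k2d_L1 hG h.symm haP hw hzx
    · exact hwz h5
  · have hw : ∃ w, DQ G T c z e w := by
      have h5 : z = u ∨ z = v := by
        have hcu : c ≠ u := h3.2.2.1.ne
        have hcv : c ≠ v := h3.2.2.2.2.2.1.ne.symm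
        have hce : c ≠ e := h3.1
        simp only [mem_insert, mem_singleton, Sym2.eq_iff] at h4
        tauto
      rcases h5 with h5 | h5
      · subst h5
        exact ⟨v, h3⟩
      · subst h5
        exact ⟨u, h3.symm⟩
    obtain ⟨w, hw⟩ := hw
    have hwP : w ∈ Pc G T c := k2d_mem.mpr hw.ec.2.2.2
    have hwz : w ≠ z := hw.2.1.symm
    rw [hP] at hwP
    simp only [mem_insert, mem_singleton] at hwP
    rcases hwP with h5 | h5 | h5
    · subst h5
      have h6 := k2d_L2 hG h haP hw hzy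
      subst h6
      exact Or.inl hw
    · subst h5
      have h6 := k2d_L2 hG h.symm haP hw hzx
      subst h6
      exact Or.inr hw
    · exact absurd h5 hwz

theorem k2d_fin {c a x y z : V} (hG : Good G T) (haP : a ∉ Pc G T c) (h : DQ G T c x a y)
    (h' : DQ G T c z a x) (hP : Pc G T c = {x, y, z}) (hzx : z ≠ x) (hzy : z ≠ y) (hxy : x ≠ y) :
    (∀ x ∈ Pc G T c, Ec G T c a x) ∧ (∀ x y, ¬ DT G T c x y) ∧
      (∀ x a' y, DQ G T c x a' y → a' = a) := by
  have key : ∀ p ∈ Pc G T c, ∀ q ∈ Pc G T c, p ≠ q →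
      (∃ r, DQ G T c q a r ∧ p ≠ r) ∨ (∃ r, DQ G T c p a r ∧ q ≠ r) := by
    intro p hp q hq hpq
    rw [hP] at hp hq
    simp only [mem_insert, mem_singleton] at hp hq
    rcases hp with hp | hp | hp <;> rcases hq with hq | hq | hq <;> subst hp <;> subst hq
    · exact absurd rfl hpq
    · exact Or.inr ⟨z, h'.symm, hzy.symm⟩
    · exact Or.inr ⟨y, h, hzy⟩
    · exact Or.inl ⟨z, h'.symm, hzy.symm⟩
    · exact absurd rfl hpq
    · exact Or.inr ⟨x, h.symm, hzx⟩
    · exact Or.inl ⟨y, h, hzy⟩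
    · exact Or.inl ⟨x, h.symm, hzx⟩
    · exact absurd rfl hpq
  refine ⟨?_, ?_, ?_⟩
  · intro w hw
    rw [hP] at hw
    simp only [mem_insert, mem_singleton] at hw
    rcases hw with hw | hw | hw <;> subst hw
    · exact h.ec.2.1.symm
    · exact h.ec.2.2.1
    · exact h'.ec.2.1.symm
  · intro p q hpq
    have hp : p ∈ Pc G T c := k2d_mem.mpr hpq.ec.1
    have hq : q ∈ Pc G T c := k2d_mem.mpr hpq.ec.2.2
    rcases key p hp q hq hpq.2.2.1.ne with ⟨r, h1, h2⟩ | ⟨r, h1, h2⟩
    · exact k2d_L1 hG h1 haP hpq h2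
    · exact k2d_L1 hG h1 haP hpq.symm h2
  · intro p a' q hpq
    have hp : p ∈ Pc G T c := k2d_mem.mpr hpq.ec.1
    have hq : q ∈ Pc G T c := k2d_mem.mpr hpq.ec.2.2.2
    rcases key p hp q hq hpq.2.1 with ⟨r, h1, h2⟩ | ⟨r, h1, h2⟩
    · exact k2d_L2 hG h1 haP hpq h2
    · exact k2d_L2 hG h1 haP hpq.symm h2

/-- (K2d) the case of three neighbours and another vertex. PROOF. `a ∈ Ac` : `Ec c a x`, so (`ec_cases`, `a ≠ c`, `a ∉ Pc`; the vertices `x, y` of `DT c x y`, `DQ c x a' y` are in `Pc`) there is `DQ c x a y`. Let `z` be the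
third element of `Pc`: there is a dangerous cycle with the edge `c z` (definition of `Pc`): `DT c z w` or `DQ c z e w` with `w ∈ Pc`, `w ≠ z`, so `w = x` or `w = y`; by symmetry (`DQ.symm`) `w = x`. `DT c z x`: `rule_tq` (with `b = z`, `d = x`, `e = a`, `f = y`) gives `a = z ∈ Pc`, contradiction. `DQ c z e x`: `rule_qq` (`b = z`, `a := e`, `d = x`, `e := a`, `f = y`)
gives `e = a` or (`e = y` and `a = z`, contradiction). So `DQ c x a y` and `DQ c z a x`. Every dangerous cycle through `c` uses two of `x, y, z`; comparing it with one of these two (the one with a different pair; `rule_tq`, `rule_qq`) it is `DQ c u a v`. -/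
theorem beta {c a : V} (hG : Good G T) (hl : Light G c) (h3 : (Pc G T c).card = 3) (ha : a ∈ Ac G T c) :
    (∀ x ∈ Pc G T c, Ec G T c a x) ∧ (∀ x y, ¬ DT G T c x y) ∧ (∀ x a' y, DQ G T c x a' y → a' = a) := by
  obtain ⟨x, y, h⟩ := k2d_ex ha
  have haP : a ∉ Pc G T c := (Finset.mem_filter.mp ha).2.2.1
  have hxP : x ∈ Pc G T c := k2d_mem.mpr h.ec.1
  have hyP : y ∈ Pc G T c := k2d_mem.mpr h.ec.2.2.2
  have hxy : x ≠ y := h.2.1
  have hz : ∃ z, Pc G T c = {x, y, z} ∧ z ≠ x ∧ z ≠ y := by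
    have h4 : (((Pc G T c).erase x).erase y).card = 1 := by
      rw [Finset.card_erase_of_mem (Finset.mem_erase.mpr ⟨hxy.symm, hyP⟩),
        Finset.card_erase_of_mem hxP, h3]
    obtain ⟨z, hz⟩ := Finset.card_eq_one.mp h4
    have hz1 : z ∈ ((Pc G T c).erase x).erase y := by
      rw [hz]
      exact Finset.mem_singleton_self z
    have hz2 : z ≠ y := (Finset.mem_erase.mp hz1).1
    have hz3 : z ≠ x := (Finset.mem_erase.mp (Finset.mem_erase.mp hz1).2).1
    refine ⟨z, ?_, hz3, hz2⟩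
    rw [← hz, Finset.insert_erase (Finset.mem_erase.mpr ⟨hxy.symm, hyP⟩),
      Finset.insert_erase hxP]
  obtain ⟨z, hP, hzx, hzy⟩ := hz
  rcases k2d_pair hG haP h hP hzx hzy with h' | h'
  · exact k2d_fin hG haP h h' hP hzx hzy hxy
  · have hP' : Pc G T c = {y, x, z} := by
      rw [hP]
      ext w
      simp only [mem_insert, mem_singleton]
      tauto
    exact k2d_fin hG haP h.symm h' hP' hzy hzx hxy.symm

theorem k2e_cases {c y : V} (hy : y ∈ Pc G T c) : (∃ v, DT G T c y v) ∨ (∃ a v, DQ G T c y a v) := by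
  have h : Ec G T c c y := (mem_filter.1 hy).2
  rcases ec_cases h with ⟨u, v, hD, hm⟩ | ⟨u, a, v, hD, hm⟩
  · left
    have n1 : c ≠ u := hD.2.1.ne
    have n2 : v ≠ c := hD.2.2.2.1.ne
    simp only [mem_insert, mem_singleton, Sym2.eq_iff] at hm
    rcases hm with (⟨_, h1⟩ | ⟨h1, _⟩) | (⟨h1, _⟩ | ⟨h1, _⟩) | (⟨h1, _⟩ | ⟨_, h1⟩)
    · rw [h1]
      exact ⟨v, hD⟩
    · exact absurd h1 n1
    · exact absurd h1 n1
    · exact absurd h1.symm n2
    · exact absurd h1.symm n2
    · rw [h1]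
      exact ⟨u, hD.symm⟩
  · right
    have n0 : c ≠ a := hD.1
    have n1 : c ≠ u := hD.2.2.1.ne
    have n2 : v ≠ c := hD.2.2.2.2.2.1.ne
    simp only [mem_insert, mem_singleton, Sym2.eq_iff] at hm
    rcases hm with (⟨_, h1⟩ | ⟨h1, _⟩) | (⟨h1, _⟩ | ⟨h1, _⟩) | (⟨h1, _⟩ | ⟨h1, _⟩) | (⟨h1, _⟩ | ⟨_, h1⟩)
    · rw [h1]
      exact ⟨a, v, hD⟩
    · exact absurd h1 n1
    · exact absurd h1 n1
    · exact absurd h1 n0
    · exact absurd h1 n0
    · exact absurd h1.symm n2
    · exact absurd h1.symm n2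
    · rw [h1]
      exact ⟨a, u, hD.symm⟩

theorem k2e_mem {c : V} (h3 : (Pc G T c).card = 3) {x y z : V} (hx : x ∈ Pc G T c) (hy : y ∈ Pc G T c)
    (hz : z ∈ Pc G T c) (n1 : x ≠ y) (n2 : y ≠ z) (n3 : x ≠ z) {w : V} (hw : w ∈ Pc G T c) :
    w = x ∨ w = y ∨ w = z := by
  have h1 : ({x, y, z} : Finset V) ⊆ Pc G T c := by
    intro u hu
    simp only [mem_insert, mem_singleton] at hu
    rcases hu with rfl | rfl | rfl
    · exact hx
    · exact hy
    · exact hz
  have h2 : ({x, y, z} : Finset V).card = 3 := by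
    rw [card_insert_of_notMem, card_pair n2]
    simp only [mem_insert, mem_singleton, not_or]
    exact ⟨n1, n3⟩
  have h4 := eq_of_subset_of_card_le h1 (by rw [h2, h3])
  rw [← h4] at hw
  simpa only [mem_insert, mem_singleton] using hw

theorem k2e_pc {c x : V} (h : Ec G T c c x) : x ∈ Pc G T c := mem_filter.2 ⟨mem_univ x, h⟩

/-- (K2e) three neighbours, no other vertex: the 4-cycles through `c` are inside. PROOF. `a ≠ c`, `Ec c a x` (`DQ.ec`), so `a ∈ Pc` or `a ∈ Ac`. -/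
theorem gamma_in {c x a y : V} (h0 : Ac G T c = ∅) (h : DQ G T c x a y) : a ∈ Pc G T c := by
  by_contra hP
  have h1 : a ∈ Ac G T c :=
    mem_filter.2 ⟨mem_univ a, h.1.symm, hP, x, h.ec.2.1.symm⟩
  rw [h0] at h1
  exact notMem_empty a h1

/-- (K2f) at most one pair is missing. PROOF. `Pc = {x, y, z}`. If there is `DQ c u a v`, then `a ∈ Pc` (K2e) is the third element and `Ec c u a`, `Ec c a v`: two of the three pairs. Otherwise all dangerous cycles through `c` are triangles;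
the edges `c y`, `c x`, `c z` lie on triangles `DT c u v`, `u, v ∈ Pc` with `Ec c u v`; every element of `Pc` is in such a pair, so at least two different pairs occur. In both cases
among the three pairs at least two are in `Ec`; so one of `x y`, `y z` is (use `Ec.symm`). -/
theorem gamma_two {c : V} (hl : Light G c) (h3 : (Pc G T c).card = 3) (h0 : Ac G T c = ∅) :
    ∀ x ∈ Pc G T c, ∀ y ∈ Pc G T c, ∀ z ∈ Pc G T c, x ≠ y → y ≠ z → x ≠ z → Ec G T c x y ∨ Ec G T c y z := by
  intro x hx y hy z hz n1 n2 n3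
  rcases k2e_cases hy with ⟨v, hD⟩ | ⟨a, v, hD⟩
  · have h1 : v ∈ Pc G T c := k2e_pc hD.ec.2.2
    have h2 : Ec G T c y v := hD.ec.2.1
    have h4 : y ≠ v := hD.2.2.1.ne
    rcases k2e_mem h3 hx hy hz n1 n2 n3 h1 with rfl | rfl | rfl
    · exact Or.inl h2.symm
    · exact absurd rfl h4
    · exact Or.inr h2
  · have h1 : a ∈ Pc G T c := gamma_in h0 hD
    have h2 : Ec G T c y a := hD.ec.2.1
    have h4 : y ≠ a := hD.2.2.2.1.ne
    rcases k2e_mem h3 hx hy hz n1 n2 n3 h1 with rfl | rfl | rfl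
    · exact Or.inl h2.symm
    · exact absurd rfl h4
    · exact Or.inr h2

/-- (K2g) without triangles all pairs occur. PROOF. `¬ T`, so there are only 4-cycles. `x, y ∈ Pc`, `z` the third. The dangerous cycles through `c` are `DQ c u a v` with `{u, v, a} = {x, y, z}` (K2e), it contains the pairs `u a`, `a v`. `Ec c c z`: there is one with `z ∈ {u, v}`, say `DQ c z a v`: `a = x, v = y` or `a = y, v = x`; in both cases
`Ec c a v` is `Ec c x y`. -/
theorem delta_all {c : V} (hT : ¬ T) (hl : Light G c) (h3 : (Pc G T c).card = 3) (h0 : Ac G T c = ∅) :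
    ∀ x ∈ Pc G T c, ∀ y ∈ Pc G T c, x ≠ y → Ec G T c x y := by
  intro x hx y hy n1
  obtain ⟨z, hz, hz1⟩ : ∃ z ∈ Pc G T c, z ∉ ({x, y} : Finset V) := by
    by_contra hcon
    push Not at hcon
    have h1 : Pc G T c ⊆ {x, y} := hcon
    have h2 := card_le_card h1
    have h4 : ({x, y} : Finset V).card ≤ 2 := card_le_two
    omega
  simp only [mem_insert, mem_singleton, not_or] at hz1
  obtain ⟨n2, n3⟩ := hz1
  rcases k2e_cases hz with ⟨v, hD⟩ | ⟨a, v, hD⟩
  · exact absurd hD.1 hT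
  · have h1 : a ∈ Pc G T c := gamma_in h0 hD
    have h2 : v ∈ Pc G T c := k2e_pc hD.ec.2.2.2
    have h4 : Ec G T c a v := hD.ec.2.2.1
    have m1 : z ≠ a := hD.2.2.2.1.ne
    have m2 : a ≠ v := hD.2.2.2.2.1.ne
    have m3 : z ≠ v := hD.2.1
    rcases k2e_mem h3 hx hy hz n1 (Ne.symm n3) (Ne.symm n2) h1 with e1 | e1 | e1
    · rcases k2e_mem h3 hx hy hz n1 (Ne.symm n3) (Ne.symm n2) h2 with e2 | e2 | e2
      · exact absurd (e1.trans e2.symm) m2
      · rw [← e1, ← e2]
        exact h4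
      · exact absurd e2.symm m3
    · rcases k2e_mem h3 hx hy hz n1 (Ne.symm n3) (Ne.symm n2) h2 with e2 | e2 | e2
      · rw [← e1, ← e2]
        exact h4.symm
      · exact absurd (e1.trans e2.symm) m2
      · exact absurd e2.symm m3
    · exact absurd e1.symm m1

theorem k2h_adj {c u v : V} (h : Ec G T c u v) : G.Adj u v := by
  obtain ⟨E, h1, h2, h3⟩ := h
  exact h1.1.adj h3

theorem k2h_pc {c x : V} : x ∈ Pc G T c ↔ Ec G T c c x := by
  simp only [Pc, mem_filter, mem_univ, true_and]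

theorem k2h_ac {c a : V} : a ∈ Ac G T c ↔ a ≠ c ∧ a ∉ Pc G T c ∧ ∃ x, Ec G T c a x := by
  simp only [Ac, mem_filter, mem_univ, true_and]

theorem k2h_sup {c u v : V} (h : Ec G T c u v) : u = c ∨ u ∈ Pc G T c ∨ u ∈ Ac G T c := by
  by_cases h1 : u = c
  · exact Or.inl h1
  · by_cases h2 : u ∈ Pc G T c
    · exact Or.inr (Or.inl h2)
    · exact Or.inr (Or.inr (k2h_ac.2 ⟨h1, h2, v, h⟩))

/-- an edge at a vertex of `Ac` lies on a dangerous 4-cycle with this vertex opposite to `c` -/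
theorem k2h_dq {c a x : V} (ha : a ∈ Ac G T c) (h : Ec G T c a x) :
    ∃ u v, DQ G T c u a v ∧ (x = u ∨ x = v) := by
  obtain ⟨n1, n2, -⟩ := k2h_ac.1 ha
  rcases ec_cases h with ⟨u, v, h1, h2⟩ | ⟨u, b, v, h1, h2⟩
  · exfalso
    obtain ⟨e1, e2, e3⟩ := h1.ec
    have m1 := k2h_pc.2 e1
    have m2 := k2h_pc.2 e3
    simp only [mem_insert, mem_singleton, Sym2.eq_iff] at h2
    have q1 : a ≠ u := fun h => n2 (h ▸ m1)
    have q2 : a ≠ v := fun h => n2 (h ▸ m2)
    tauto
  · obtain ⟨e1, e2, e3, e4⟩ := h1.ec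
    have m1 := k2h_pc.2 e1
    have m2 := k2h_pc.2 e4
    simp only [mem_insert, mem_singleton, Sym2.eq_iff] at h2
    have q1 : a ≠ u := fun h => n2 (h ▸ m1)
    have q2 : a ≠ v := fun h => n2 (h ▸ m2)
    have key : a = b ∧ (x = u ∨ x = v) := by tauto
    obtain ⟨rfl, hx⟩ := key
    exact ⟨u, v, h1, hx⟩

/-- (K2h) two neighbours. PROOF. `Pc = {b, d}`. `a ∈ Ac`: `Ec c a x` for some `x`; `ec_cases`: the triangles are `c b d`, whose vertices are not `a`; so `DQ c u a' v` with `{u, v} = {b, d}` and `a` on it: `a = a'`. So `Ec c a b` and `Ec c a d` (`DQ.ec`). Conversely `Ec c a x` : `s(a, x)` is an edge of such a 4-cycle with `a' = a`, so `x ∈ {u, v}`. -/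
theorem alpha {c a : V} (h2 : (Pc G T c).card = 2) (ha : a ∈ Ac G T c) (x : V) :
    Ec G T c a x ↔ x ∈ Pc G T c := by
  constructor
  · intro h
    obtain ⟨u, v, h1, hx⟩ := k2h_dq ha h
    obtain ⟨e1, e2, e3, e4⟩ := h1.ec
    rcases hx with rfl | rfl
    · exact k2h_pc.2 e1
    · exact k2h_pc.2 e4
  · intro hx
    obtain ⟨n1, n2, x0, h0⟩ := k2h_ac.1 ha
    obtain ⟨u, v, h1, -⟩ := k2h_dq ha h0
    obtain ⟨e1, e2, e3, e4⟩ := h1.ec
    have huv : u ≠ v := h1.2.1
    have hsub : ({u, v} : Finset V) ⊆ Pc G T c := by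
      intro z hz
      simp only [mem_insert, mem_singleton] at hz
      rcases hz with rfl | rfl
      · exact k2h_pc.2 e1
      · exact k2h_pc.2 e4
    have heq : ({u, v} : Finset V) = Pc G T c :=
      eq_of_subset_of_card_le hsub (by rw [h2, card_pair huv])
    rw [← heq] at hx
    simp only [mem_insert, mem_singleton] at hx
    rcases hx with rfl | rfl
    · exact e2.symm
    · exact e3

/-- (K2i) a pair inside `Pc` implies `T` unless we are in the case of three neighbours and no other vertex. PROOF. `Ec c x y` with `x, y ∈ Pc`: `ec_cases`: `DT`: `T`. `DQ c u a v` with `s(x,y)` one of its edges: `x, y ≠ c`, so it is `u a` or `a v`, so `a ∈ Pc`; then `Pc ⊇ {u, a, v}` has three elements: with `card = 2` impossible, with `Ac ≠ ∅` by (K2d) `a ∈ Ac`, not in `Pc`. -/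
theorem pair_T {c x y : V} (hG : Good G T) (hl : Light G c) (h : (Pc G T c).card = 2 ∨ ((Pc G T c).card = 3 ∧ Ac G T c ≠ ∅))
    (hx : x ∈ Pc G T c) (hy : y ∈ Pc G T c) (h' : Ec G T c x y) : T ∧ (Pc G T c).card = 2 := by
  have hxc : x ≠ c := (k2h_adj (k2h_pc.1 hx)).ne'
  have hyc : y ≠ c := (k2h_adj (k2h_pc.1 hy)).ne'
  rcases ec_cases h' with ⟨u, v, h1, h2⟩ | ⟨u, b, v, h1, h2⟩
  · refine ⟨h1.1, ?_⟩
    rcases h with h | ⟨h3, hA⟩
    · exact h
    · obtain ⟨a, ha⟩ := nonempty_iff_ne_empty.2 hA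
      exact absurd h1 ((beta hG hl h3 ha).2.1 u v)
  · exfalso
    obtain ⟨e1, e2, e3, e4⟩ := h1.ec
    have m1 := k2h_pc.2 e1
    have m2 := k2h_pc.2 e4
    have hb : b ∈ Pc G T c := by
      simp only [mem_insert, mem_singleton, Sym2.eq_iff] at h2
      have key : b = x ∨ b = y := by
        have q1 : c ≠ x := hxc.symm
        have q2 : c ≠ y := hyc.symm
        rcases h2 with (⟨h, -⟩ | ⟨-, h⟩) | (⟨-, h⟩ | ⟨h, -⟩) | (⟨h, -⟩ | ⟨-, h⟩) | (⟨-, h⟩ | ⟨h, -⟩)
        · exact absurd h hxc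
        · exact absurd h hyc
        · exact Or.inr h.symm
        · exact Or.inl h.symm
        · exact Or.inl h.symm
        · exact Or.inr h.symm
        · exact absurd h hyc
        · exact absurd h hxc
      rcases key with rfl | rfl
      · exact hx
      · exact hy
    rcases h with h | ⟨h3, hA⟩
    · have hsub : ({u, b, v} : Finset V) ⊆ Pc G T c := by
        intro z hz
        simp only [mem_insert, mem_singleton] at hz
        rcases hz with rfl | rfl | rfl
        · exact m1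
        · exact hb
        · exact m2
      have hub : u ≠ b := (k2h_adj e2).ne
      have hbv : b ≠ v := (k2h_adj e3).ne
      have huv : u ≠ v := h1.2.1
      have hc3 : ({u, b, v} : Finset V).card = 3 := card_eq_three.2 ⟨u, b, v, hub, huv, hbv, rfl⟩
      have := card_le_card hsub
      omega
    · obtain ⟨a, ha⟩ := nonempty_iff_ne_empty.2 hA
      have hba := (beta hG hl h3 ha).2.2 u b v h1
      rw [hba] at hb
      exact (k2h_ac.1 ha).2.1 hb

/-- (K2j) THE SHAPE. PROOF. `Pc ≠ ∅`: card 2 or 3 (K2c). `sym`: `Ec.symm`; `irr`: edges of `G`; `cP`: definition of `Pc`; `sup`: `Ec c u v`: `u = c`, or `u ∈ Pc`, or `u ∈ Ac` by definition of `Ac`; `c ∉ Pc`: `Ec c c c` is no edge; `c ∉ Ac`, `dis`: definition of `Ac`.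
Card 2: `aP` is (K2h), `ppT` (K2i), first case. Card 3, `Ac ≠ ∅`: `a ∈ Ac`; `aP`: `Ec a x` for `x ∈ Pc` by (K2d); conversely `Ec c a x`: the cycle is `DQ c u a v` (K2d), so `x ∈ {u, v} ⊆ Pc`; `Ac = {a}`: another `a'' ∈ Ac` has `Ec c a'' x`, it is on some `DQ c u a v`, so `a'' = a`; `ppT` and no pairs inside: (K2i) (`card = 2` contradicts `card = 3`). Card 3, `Ac = ∅`: if `T`: third case (K2f), `ppT` trivial. If `¬ T`: `Shape4`: (K2g), and `Ec c u v` implies `u, v ∈ insert c Pc` (`sup`). -/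
theorem shape {c : V} (hG : Good G T) (hl : Light G c) (hP : Pc G T c ≠ ∅) :
    Shape T c (Pc G T c) (Ac G T c) (Ec G T c) ∨
      (¬ T ∧ Ac G T c = ∅ ∧ Shape4 c (Pc G T c) (Ec G T c)) := by
  have sym : ∀ u v, Ec G T c u v → Ec G T c v u := fun u v h => h.symm
  have irr : ∀ u, ¬ Ec G T c u u := fun u h => (k2h_adj h).ne rfl
  have cP : ∀ x, Ec G T c c x ↔ x ∈ Pc G T c := fun x => k2h_pc.symm
  have sup : ∀ u v, Ec G T c u v → u = c ∨ u ∈ Pc G T c ∨ u ∈ Ac G T c := fun u v h => k2h_sup h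
  have cnP : c ∉ Pc G T c := fun h => irr c (k2h_pc.1 h)
  have cnA : c ∉ Ac G T c := fun h => (k2h_ac.1 h).1 rfl
  have dis : ∀ x ∈ Pc G T c, x ∉ Ac G T c := fun x hx h => (k2h_ac.1 h).2.1 hx
  rcases pc_card hl hP with h2 | h3
  · left
    refine ⟨sym, irr, cP, fun a ha x => alpha h2 ha x, sup, cnP, cnA, dis, ?_, Or.inl h2⟩
    rintro ⟨x, hx, y, hy, h⟩
    exact (pair_T hG hl (Or.inl h2) hx hy h).1
  · by_cases hA : Ac G T c = ∅
    · by_cases hT : T
      · left
        refine ⟨sym, irr, cP, ?_, sup, cnP, cnA, dis, fun _ => hT, Or.inr (Or.inr ⟨h3, hA, ?_⟩)⟩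
        · intro a ha
          rw [hA] at ha
          simp at ha
        · exact gamma_two hl h3 hA
      · right
        refine ⟨hT, hA, h3, cnP, ?_⟩
        have sup' : ∀ u v, Ec G T c u v → u = c ∨ u ∈ Pc G T c := by
          intro u v h
          rcases sup u v h with h | h | h
          · exact Or.inl h
          · exact Or.inr h
          · rw [hA] at h
            simp at h
        intro u v
        constructor
        · intro h
          exact ⟨(k2h_adj h).ne, sup' u v h, sup' v u h.symm⟩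
        · rintro ⟨hne, hu | hu, hv | hv⟩
          · exact absurd (hu.trans hv.symm) hne
          · rw [hu]
            exact k2h_pc.1 hv
          · rw [hv]
            exact (k2h_pc.1 hu).symm
          · exact delta_all hT hl h3 hA u hu v hv hne
    · left
      have hA' := hA
      obtain ⟨a, ha⟩ := nonempty_iff_ne_empty.2 hA
      obtain ⟨b1, b2, b3⟩ := beta hG hl h3 ha
      have huniq : ∀ a' ∈ Ac G T c, a' = a := by
        intro a' ha'
        obtain ⟨-, -, x0, h0⟩ := k2h_ac.1 ha'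
        obtain ⟨u, v, h1, -⟩ := k2h_dq ha' h0
        exact b3 u a' v h1
      have hno : ∀ x ∈ Pc G T c, ∀ y ∈ Pc G T c, ¬ Ec G T c x y := by
        intro x hx y hy h
        have := (pair_T hG hl (Or.inr ⟨h3, hA⟩) hx hy h).2
        omega
      refine ⟨sym, irr, cP, ?_, sup, cnP, cnA, dis, ?_, Or.inr (Or.inl ⟨h3, ?_, hno⟩)⟩
      · intro a' ha' x
        constructor
        · intro h
          obtain ⟨u, v, h1, hx⟩ := k2h_dq ha' h
          obtain ⟨e1, e2, e3, e4⟩ := h1.ec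
          rcases hx with rfl | rfl
          · exact k2h_pc.2 e1
          · exact k2h_pc.2 e4
        · intro hx
          rw [huniq a' ha']
          exact b1 x hx
      · rintro ⟨x, hx, y, hy, h⟩
        exact absurd h (hno x hx y hy)
      · rw [card_eq_one]
        exact ⟨a, by
          ext z
          rw [mem_singleton]
          exact ⟨fun h => huniq z h, fun h => h ▸ ha⟩⟩

end SQF
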