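import Pool.Agent.SQF.D1

set_option autoImplicit false
set_option linter.unusedSectionVars false
set_option linter.unusedVariables false
set_option linter.unusedDecidableInType false

/-! [SQF-N1] the class of the graphs in which no forbidden cycle has an edge between two vertices of degree at least 4 -/

open Finset
open scoped Classical

namespace SQF

variable {V : Type} [Fintype V] [DecidableEq V] {G : SimpleGraph V} {T : Prop}

theorem n1a_form {E : Finset (Sym2 V)} {c d : V} (hE : Cyc G T E) (hd : s(c, d) ∈ E) :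
    (∃ y, E = {s(c, d), s(d, y), s(y, c)}) ∨
    (∃ a y, c ≠ a ∧ d ≠ y ∧ G.Adj d a ∧ G.Adj a y ∧ G.Adj y c ∧
      E = {s(c, d), s(d, a), s(a, y), s(y, c)}) := by
  rcases hE.at (on_left hd) with ⟨_, x, y, h1, h2, h3, rfl⟩ | ⟨x, a, y, n1, n2, h1, h2, h3, h4, rfl⟩
  · left
    have e1 := h1.ne
    have e2 := h2.ne
    have e3 := h3.ne
    have hxy : d = x ∨ d = y := by
      simp only [mem_insert, mem_singleton, Sym2.eq_iff] at hd
      have e3' := e3.symm
      tauto
    rcases hxy with rfl | rfl
    · exact ⟨y, rfl⟩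
    · refine ⟨x, ?_⟩
      ext z
      simp only [mem_insert, mem_singleton]
      rw [Sym2.eq_swap (a := c) (b := x), Sym2.eq_swap (a := x) (b := d),
        Sym2.eq_swap (a := d) (b := c)]
      tauto
  · right
    have e1 := h1.ne
    have e2 := h2.ne
    have e3 := h3.ne
    have e4 := h4.ne
    have hxy : d = x ∨ d = y := by
      simp only [mem_insert, mem_singleton, Sym2.eq_iff] at hd
      have e4' := e4.symm
      tauto
    rcases hxy with rfl | rfl
    · exact ⟨a, y, n1, n2, h2, h3, h4, rfl⟩
    · refine ⟨a, x, n1, n2.symm, h3.symm, h2.symm, h1.symm, ?_⟩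
      ext z
      simp only [mem_insert, mem_singleton]
      rw [Sym2.eq_swap (a := c) (b := x), Sym2.eq_swap (a := x) (b := a),
        Sym2.eq_swap (a := a) (b := d), Sym2.eq_swap (a := d) (b := c)]
      tauto

theorem n1a_two (h : ∀ E, Cyc G T E → ∀ x y, s(x, y) ∈ E → Light G x ∨ Light G y) {c d e f : V}
    (hQ : Dang G T {s(c, d), s(d, e), s(e, f), s(f, c)}) (h1 : c ≠ e) (h2 : d ≠ f) (a1 : G.Adj c d) (a2 : G.Adj d e)
    (a3 : G.Adj e f) (a4 : G.Adj f c) {E : Finset (Sym2 V)} (hE : Dang G T E)
    (hE' : E ∩ {s(c, d), s(d, e), s(e, f), s(f, c)} = {s(c, d)}) (hf : On f E) (he : ¬ On e E) : False := by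
  have hcd : s(c, d) ∈ E := by
    have h3 : s(c, d) ∈ E ∩ {s(c, d), s(d, e), s(e, f), s(f, c)} := by
      rw [hE']; exact mem_singleton_self _
    exact (mem_inter.mp h3).1
  have hcQ : s(c, d) ∈ ({s(c, d), s(d, e), s(e, f), s(f, c)} : Finset (Sym2 V)) := by simp
  have e1 := a1.ne
  have e2 := a2.ne
  have e3 := a3.ne
  have e4 := a4.ne
  have hno : s(f, c) ∉ E := by
    intro h3
    have h4 : s(f, c) ∈ E ∩ {s(c, d), s(d, e), s(e, f), s(f, c)} :=
      mem_inter.mpr ⟨h3, by simp⟩
    rw [hE', mem_singleton, Sym2.eq_iff] at h4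
    rcases h4 with ⟨h4, -⟩ | ⟨h4, -⟩
    · exact e4 h4
    · exact h2 h4.symm
  have le : ¬ Light G e := fun hl =>
    he (hE.on_of_light hQ.1 hcd hcQ (on_sq.mpr (by tauto)) hl)
  have lf : Light G f := by
    rcases h _ hQ.1 e f (by simp) with h3 | h3
    · exact absurd h3 le
    · exact h3
  rcases n1a_form hE.1 hcd with ⟨y, rfl⟩ | ⟨a, y, n1, n2, b1, b2, b3, rfl⟩
  · rw [on_tri] at hf
    rcases hf with rfl | rfl | rfl
    · exact e4 rfl
    · exact h2 rfl
    · exact hno (by simp)
  · have hf' := on_sq.mp hf
    rcases hf' with rfl | rfl | rfl | rfl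
    · exact e4 rfl
    · exact h2 rfl
    · -- `E = c d f y`
      have hye : y ≠ e := by
        rintro rfl
        exact he (on_sq.mpr (by tauto))
      have hyc := b3.ne
      have hyf := b2.ne
      have hcard : ({d, y, e, c} : Finset V).card = 4 := by
        rw [card_insert_of_notMem, card_insert_of_notMem, card_pair]
        · exact h1.symm
        · simp only [mem_insert, mem_singleton]
          tauto
        · simp only [mem_insert, mem_singleton]
          have e1' := e1.symm
          tauto
      have hsub : ({d, y, e, c} : Finset V) ⊆ univ.filter (fun u => G.Adj f u) := by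
        intro u hu
        simp only [mem_insert, mem_singleton] at hu
        rw [mem_filter]
        refine ⟨mem_univ _, ?_⟩
        rcases hu with rfl | rfl | rfl | rfl
        · exact b1.symm
        · exact b2
        · exact a3.symm
        · exact a4
      have h5 := card_le_card hsub
      rw [hcard] at h5
      unfold Light dg at lf
      omega
    · exact hno (by simp)

/-- (N1a) a 4-cycle `c d e f` and a dangerous cycle `E` whose only common edge is `c d`: impossible in the class. PROOF. Let `Q` be the edge set of `c d e f`.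
(1) `e, f` not on `E`: both are heavy (`Dang.on_of_light`, D1), and `e f` is an edge of `Q`: contradiction to `h`.
(2) `f` on `E`, `e` not on `E`: `e` is heavy, so (`h` for the edges `d e`, `e f` of `Q`) `d`, `f` are light. `E` is a triangle: its vertices are `c, d, f`, and `f c ∈ E` is a second common edge. `E` is a 4-cycle with the edge `c d`, and `f` and a fourth vertex `z`: `z ≠ e`. `z` is not on `Q` and on `E`, so it is heavy (D1 for `Q` and `E`, `Q` dangerous). `E = c d f z` (the order `c d z f` contains `f c`, common). So (`h` for the edges `f z`, `z c` of `E`) `f` is light, and `f` has the four neighbours `d, z, e, c`: contradiction.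
(3) `e` on `E`, `f` not: the mirror image (exchange `c` and `d`, `f` and `e`).
(4) `e, f` on `E`: `E` has the vertices `c, d, e, f`, it is a 4-cycle with the edge `c d`, so `c d e f` or `c d f e`; both contain `e f`, a second common edge. -/
theorem only_one (h : ∀ E, Cyc G T E → ∀ x y, s(x, y) ∈ E → Light G x ∨ Light G y) {c d e f : V}
    (hQ : Dang G T {s(c, d), s(d, e), s(e, f), s(f, c)}) (h1 : c ≠ e) (h2 : d ≠ f) (a1 : G.Adj c d) (a2 : G.Adj d e)
    (a3 : G.Adj e f) (a4 : G.Adj f c) {E : Finset (Sym2 V)} (hE : Dang G T E)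
    (hE' : E ∩ {s(c, d), s(d, e), s(e, f), s(f, c)} = {s(c, d)}) : False := by
  have hcd : s(c, d) ∈ E := by
    have h3 : s(c, d) ∈ E ∩ {s(c, d), s(d, e), s(e, f), s(f, c)} := by
      rw [hE']; exact mem_singleton_self _
    exact (mem_inter.mp h3).1
  have hcQ : s(c, d) ∈ ({s(c, d), s(d, e), s(e, f), s(f, c)} : Finset (Sym2 V)) := by simp
  by_cases he : On e E
  · by_cases hf : On f E
    · -- both on E
      have hno : s(e, f) ∉ E := by
        intro h3
        have h4 : s(e, f) ∈ E ∩ {s(c, d), s(d, e), s(e, f), s(f, c)} :=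
          mem_inter.mpr ⟨h3, by simp⟩
        rw [hE', mem_singleton, Sym2.eq_iff] at h4
        rcases h4 with ⟨h4, -⟩ | ⟨h4, -⟩
        · exact h1 h4.symm
        · exact a2.ne h4.symm
      have e1 := a1.ne
      have e2 := a2.ne
      have e3 := a3.ne
      have e4 := a4.ne
      rcases n1a_form hE.1 hcd with ⟨y, rfl⟩ | ⟨a, y, n1, n2, b1, b2, b3, rfl⟩
      · rw [on_tri] at he hf
        rcases he with rfl | rfl | rfl
        · exact h1 rfl
        · exact e2 rfl
        · rcases hf with rfl | rfl | rfl
          · exact e4 rfl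
          · exact h2 rfl
          · exact e3 rfl
      · rw [on_sq] at he hf
        rcases he with rfl | rfl | rfl | rfl
        · exact h1 rfl
        · exact e2 rfl
        · rcases hf with rfl | rfl | rfl | rfl
          · exact e4 rfl
          · exact h2 rfl
          · exact e3 rfl
          · exact hno (by simp)
        · rcases hf with rfl | rfl | rfl | rfl
          · exact e4 rfl
          · exact h2 rfl
          · apply hno
            rw [Sym2.eq_swap]
            simp
          · exact e3 rfl
    · -- e on E, f not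
      have hset : ({s(c, d), s(d, e), s(e, f), s(f, c)} : Finset (Sym2 V)) =
          {s(d, c), s(c, f), s(f, e), s(e, d)} := by
        ext z
        simp only [mem_insert, mem_singleton]
        rw [Sym2.eq_swap (a := d) (b := c), Sym2.eq_swap (a := c) (b := f),
          Sym2.eq_swap (a := f) (b := e), Sym2.eq_swap (a := e) (b := d)]
        tauto
      rw [hset] at hQ hE'
      rw [Sym2.eq_swap (a := c) (b := d)] at hE'
      exact n1a_two h hQ h2 h1 a1.symm a4.symm a3.symm a2.symm hE hE' he hf
  · by_cases hf : On f E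
    · exact n1a_two h hQ h1 h2 a1 a2 a3 a4 hE hE' hf he
    · have le : ¬ Light G e := fun hl =>
        he (hE.on_of_light hQ.1 hcd hcQ (on_sq.mpr (by tauto)) hl)
      have lf : ¬ Light G f := fun hl =>
        hf (hE.on_of_light hQ.1 hcd hcQ (on_sq.mpr (by tauto)) hl)
      rcases h _ hQ.1 e f (by simp) with h3 | h3
      · exact le h3
      · exact lf h3

/-- (N1b) PROOF. `light`: a cycle has an edge. `share`: `(E ∩ E').card = 1`, so `E ∩ E' = {s(c, d)}`. If `E'` is a 4-cycle, write it with first edge `c d` (`Cyc.at` with centre `c`; the edge `c d` is the first or the last one of the form: turn it around): (N1a). The same if `E` is a 4-cycle (`inter_comm`). So both are triangles, `card_tri` (B1). -/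
theorem good_of_edge (h : ∀ E, Cyc G T E → ∀ x y, s(x, y) ∈ E → Light G x ∨ Light G y) : Good G T := by
  have hcard : ∀ E E', Dang G T E → Dang G T E' → (E ∩ E').card = 1 → E'.card = 3 := by
    intro E E' hE hE' hc
    obtain ⟨z, hz⟩ := card_eq_one.mp hc
    induction z using Sym2.ind with
    | _ c d =>
      have hcd : s(c, d) ∈ E' := by
        have h3 : s(c, d) ∈ E ∩ E' := by rw [hz]; exact mem_singleton_self _
        exact (mem_inter.mp h3).2
      rcases n1a_form hE'.1 hcd with ⟨y, hy⟩ | ⟨a, y, n1, n2, b1, b2, b3, hy⟩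
      · have a1 : G.Adj c d := hE'.1.adj hcd
        have a2 : G.Adj d y := hE'.1.adj (by rw [hy]; simp)
        have a3 : G.Adj y c := hE'.1.adj (by rw [hy]; simp)
        rw [hy]
        exact card_tri a1.ne a2.ne a3.ne
      · exfalso
        have a1 : G.Adj c d := hE'.1.adj hcd
        subst hy
        exact only_one h hE' n1 n2 a1 b1 b2 b3 hE hz
  refine ⟨fun E hE => ?_, fun E E' hE hE' hc => ⟨?_, hcard E E' hE hE' hc⟩⟩
  · rcases hE.1 with ⟨_, a, b, c, h1, h2, h3, rfl⟩ | ⟨a, b, c, d, _, _, h1, h2, h3, h4, rfl⟩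
    · have hab : s(a, b) ∈ ({s(a, b), s(b, c), s(c, a)} : Finset (Sym2 V)) := by simp
      rcases h _ hE.1 a b hab with h5 | h5
      · exact ⟨a, on_left hab, h5⟩
      · exact ⟨b, on_right hab, h5⟩
    · have hab : s(a, b) ∈ ({s(a, b), s(b, c), s(c, d), s(d, a)} : Finset (Sym2 V)) := by simp
      rcases h _ hE.1 a b hab with h5 | h5
      · exact ⟨a, on_left hab, h5⟩
      · exact ⟨b, on_right hab, h5⟩
  · exact hcard E' E hE' hE (by rw [inter_comm]; exact hc)

/-- (N1c) PROOF. `(E ∩ E').card = 1`, so `E ≠ E'` (a cycle has 3 or 4 edges), so they are disjoint, and the card is 0. -/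
theorem good_of_disj (h1 : ∀ E, Cyc G T E → ∃ v, On v E ∧ Light G v)
    (h2 : ∀ E E', Cyc G T E → Cyc G T E' → E ≠ E' → Disjoint E E') : Good G T := by
  refine ⟨fun E hE => h1 E hE.1, fun E E' hE hE' hc => ?_⟩
  exfalso
  by_cases he : E = E'
  · subst he
    rw [inter_self] at hc
    rcases hE.1 with ⟨_, a, b, c, b1, b2, b3, rfl⟩ | ⟨a, b, c, d, n1, n2, b1, b2, b3, b4, rfl⟩
    · rw [card_tri b1.ne b2.ne b3.ne] at hc
      omega
    · rw [card_sq b1.ne b2.ne b3.ne b4.ne n1 n2] at hc
      omega
  · have h3 := disjoint_iff_inter_eq_empty.mp (h2 E E' hE.1 hE'.1 he)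
    rw [h3, card_empty] at hc
    omega

end SQF
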