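import Pool.Agent.SQF.B1

set_option autoImplicit false
set_option linter.unusedSectionVars false
set_option linter.unusedVariables false
set_option linter.unusedDecidableInType false

/-! [SQF-P1] perfect matchings of the auxiliary graph -/

open Finset
open scoped Classical

namespace SQF

variable {V : Type} [Fintype V] [DecidableEq V]

/-- the assignment of a partner function -/
def p1_phi {N : Type} (p : (V × Bool) ⊕ N → (V × Bool) ⊕ N) (n : N) : Option V :=
  match p (Sum.inr n) with
  | Sum.inl w => some w.1
  | Sum.inr _ => none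

theorem p1_fwd {N : Type} [Fintype N] (σ : N → N) (S : N → Finset V) (h1 : ∀ n, σ (σ n) = n)
    (p : (V × Bool) ⊕ N → (V × Bool) ⊕ N) (hp : ∀ a, p (p a) = a)
    (ha : ∀ a, (HG σ S).Adj a (p a)) :
    Asg σ S (p1_phi p) ∧ ∀ v, cnt (p1_phi p) v = 2 := by
  have hnone : ∀ n m, p (Sum.inr n) = Sum.inr m → m = σ n := by
    intro n m h
    have h2 := ha (Sum.inr n)
    rw [h] at h2
    have h3 : n ≠ m ∧ (σ n = m ∨ σ m = n) := h2
    rcases h3.2 with h4 | h4
    · exact h4.symm
    · rw [← h4, h1]
  refine ⟨⟨?_, ?_⟩, ?_⟩
  · intro n hn
    unfold p1_phi at hn ⊢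
    rcases h : p (Sum.inr n) with w | m
    · rw [h] at hn
      simp at hn
    · have h2 := hnone n m h
      have h3 : p (Sum.inr (σ n)) = Sum.inr n := by
        rw [← h2, ← h, hp]
      rw [h3]
  · intro n v hn
    unfold p1_phi at hn
    rcases h : p (Sum.inr n) with w | m
    · rw [h] at hn
      have h2 : w.1 = v := Option.some.inj hn
      have h3 := ha (Sum.inr n)
      rw [h] at h3
      have h4 : w.1 ∈ S n := h3
      rwa [h2] at h4
    · rw [h] at hn
      simp at hn
  · intro v
    have hx : ∀ j : Bool, ∃ n, p (Sum.inl (v, j)) = Sum.inr n := by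
      intro j
      rcases h : p (Sum.inl (v, j)) with w | m
      · have h2 := ha (Sum.inl (v, j))
        rw [h] at h2
        exact absurd h2 (fun h3 => h3)
      · exact ⟨m, rfl⟩
    obtain ⟨n0, e0⟩ := hx false
    obtain ⟨n1, e1⟩ := hx true
    have hne : n0 ≠ n1 := by
      rintro rfl
      have h2 : p (p (Sum.inl (v, false))) = p (p (Sum.inl (v, true))) := by rw [e0, e1]
      rw [hp, hp] at h2
      simp at h2
    have hset : (univ.filter (fun n => p1_phi p n = some v)) = {n0, n1} := by
      ext n
      simp only [mem_filter, mem_univ, true_and, mem_insert, mem_singleton]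
      constructor
      · intro hn
        unfold p1_phi at hn
        rcases h : p (Sum.inr n) with w | m
        · rw [h] at hn
          have h2 : w.1 = v := Option.some.inj hn
          obtain ⟨w1, w2⟩ := w
          simp only at h2
          subst h2
          have h3 : p (Sum.inl (w1, w2)) = Sum.inr n := by rw [← h, hp]
          cases w2
          · left
            rw [e0] at h3
            exact (Sum.inr.inj h3).symm
          · right
            rw [e1] at h3
            exact (Sum.inr.inj h3).symm
        · rw [h] at hn
          simp at hn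
      · unfold p1_phi
        rintro (rfl | rfl)
        · have h3 : p (Sum.inr n) = Sum.inl (v, false) := by rw [← e0, hp]
          rw [h3]
        · have h3 : p (Sum.inr n) = Sum.inl (v, true) := by rw [← e1, hp]
          rw [h3]
    unfold cnt
    rw [hset, card_pair hne]

/-- (P1) perfect matchings of `HG σ S` and assignments (`HG`, `Asg`, `cnt` are in Base).
PROOF. (→) `M` perfect matching: every vertex `z` of `HG` has exactly one `M`-neighbour (`Subgraph.isPerfectMatching_iff`).
For a node `n` put `φ n = some v` if its partner is `inl (v, j)`, `φ n = none` if its partner is a node `m`; in the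
second case `σ n = m` or `σ m = n`, so `m = σ n` in both cases (`h1`), and the partner of `σ n` is `n`, so `φ (σ n) = none`. `φ n = some v` gives `v ∈ S n` (adjacency).
`cnt φ v = 2`: the partners of `(v, false)` and `(v, true)` are nodes `n₀ ≠ n₁` (two copies cannot be adjacent), and
`φ n = some v` iff the partner of `n` is `(v, false)` or `(v, true)` iff `n ∈ {n₀, n₁}`.
(←) `cnt φ v = 2`: `card_eq_two` gives `n₀ v ≠ n₁ v` with `{n | φ n = some v} = {n₀ v, n₁ v}` (choose). Let `M` be the subgraph
with `inl (v, j) — inr n` adjacent iff `φ n = some v` and `n = (if j then n₁ v else n₀ v)`, and `inr n — inr m`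
adjacent iff `φ n = none` and `m = σ n` (then `φ m = none`, `n = σ m` by `h1`, `n ≠ m` by `h2`). Every vertex has exactly one `M`-neighbour. -/
theorem pm_iff {N : Type} [Fintype N] (σ : N → N) (S : N → Finset V) (h1 : ∀ n, σ (σ n) = n)
    (h2 : ∀ n, σ n ≠ n) :
    (∃ M : (HG σ S).Subgraph, M.IsPerfectMatching) ↔ ∃ φ : N → Option V, Asg σ S φ ∧ ∀ v, cnt φ v = 2 := by
  constructor
  · rintro ⟨M, hM⟩
    rw [SimpleGraph.Subgraph.isPerfectMatching_iff] at hM
    choose p hp1 hp2 using hM
    have hp1' : ∀ a, M.Adj a (p a) := hp1
    have hp2' : ∀ a b, M.Adj a b → b = p a := hp2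
    refine ⟨p1_phi p, p1_fwd σ S h1 p (fun a => ?_) (fun a => (hp1' a).adj_sub)⟩
    exact (hp2' (p a) a (hp1' a).symm).symm
  · rintro ⟨φ, hφ, hc⟩
    have hx : ∀ v, ∃ n0 n1, n0 ≠ n1 ∧ (univ.filter (fun n => φ n = some v)) = {n0, n1} :=
      fun v => card_eq_two.1 (hc v)
    choose n0 n1 hne hset using hx
    have hmem : ∀ v n, φ n = some v ↔ n = n0 v ∨ n = n1 v := by
      intro v n
      have h3 := congrArg (fun s => n ∈ s) (hset v)
      simpa only [mem_filter, mem_univ, true_and, mem_insert, mem_singleton, eq_iff_iff] using h3
    set p : (V × Bool) ⊕ N → (V × Bool) ⊕ N := fun a =>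
      match a with
      | Sum.inl w => Sum.inr (if w.2 = true then n1 w.1 else n0 w.1)
      | Sum.inr n => match φ n with
        | some v => Sum.inl (v, decide (n = n1 v))
        | none => Sum.inr (σ n) with hp
    have p1 : ∀ v, p (Sum.inl (v, true)) = Sum.inr (n1 v) := fun v => rfl
    have p2 : ∀ v, p (Sum.inl (v, false)) = Sum.inr (n0 v) := fun v => rfl
    have p3 : ∀ n v, φ n = some v → p (Sum.inr n) = Sum.inl (v, decide (n = n1 v)) := by
      intro n v h
      simp only [hp, h]
    have p4 : ∀ n, φ n = none → p (Sum.inr n) = Sum.inr (σ n) := by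
      intro n h
      simp only [hp, h]
    have pp : ∀ a, p (p a) = a := by
      intro a
      rcases a with ⟨v, j⟩ | n
      · cases j
        · rw [p2, p3 (n0 v) v ((hmem v _).2 (Or.inl rfl))]
          have : decide (n0 v = n1 v) = false := decide_eq_false (hne v)
          rw [this]
        · rw [p1, p3 (n1 v) v ((hmem v _).2 (Or.inr rfl))]
          have : decide (n1 v = n1 v) = true := decide_eq_true rfl
          rw [this]
      · rcases h : φ n with - | v
        · rw [p4 n h, p4 _ (hφ.non n h), h1]
        · rw [p3 n v h]
          by_cases h3 : n = n1 v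
          · have : decide (n = n1 v) = true := decide_eq_true h3
            rw [this, p1, ← h3]
          · have : decide (n = n1 v) = false := decide_eq_false h3
            rw [this, p2]
            rcases (hmem v n).1 h with h4 | h4
            · rw [← h4]
            · exact absurd h4 h3
    have pa : ∀ a, (HG σ S).Adj a (p a) := by
      intro a
      rcases a with ⟨v, j⟩ | n
      · cases j
        · rw [p2]
          exact hφ.mem _ v ((hmem v _).2 (Or.inl rfl))
        · rw [p1]
          exact hφ.mem _ v ((hmem v _).2 (Or.inr rfl))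
      · rcases h : φ n with - | v
        · rw [p4 n h]
          exact ⟨fun h3 => h2 n h3.symm, Or.inl rfl⟩
        · rw [p3 n v h]
          exact hφ.mem n v h
    refine ⟨⟨Set.univ, fun a b => p a = b, ?_, ?_, ?_⟩, ?_⟩
    · intro a b h
      rw [← h]
      exact pa a
    · intro a b _
      exact Set.mem_univ a
    · exact ⟨fun a b h => by rw [← h]; exact pp a⟩
    · rw [SimpleGraph.Subgraph.isPerfectMatching_iff]
      intro a
      exact ⟨p a, rfl, fun b hb => (show p a = b from hb).symm⟩

end SQF
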