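import Pool.Agent.SQF.B1

set_option autoImplicit false
set_option linter.unusedSectionVars false
set_option linter.unusedVariables false
set_option linter.unusedDecidableInType false

/-! [SQF-W1] cycles in 2-factors are closed; first reason for avoiding a cycle -/

open Finset
open scoped Classical

namespace SQF

variable {V : Type} [Fintype V] [DecidableEq V] {G F : SimpleGraph V} {T : Prop}

/-- (W1a) in a graph with all degrees 2 a cycle is closed. PROOF. `Cyc.two` (B1) gives `u ≠ w` with `s(v,u), s(v,w) ∈ E`; they are
neighbours of `v` in `F` (`Cyc.adj`), so `{u, w} ⊆ {x | F.Adj v x}`, which has two elements (`h2`), hence equality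
(`eq_of_subset_of_card_le`), and `x ∈ {u, w}`. -/
theorem closed (h2 : ∀ v, dg F.Adj v = 2) {E : Finset (Sym2 V)} (hE : Cyc F T E) {v x : V} (hv : On v E)
    (hx : F.Adj v x) : s(v, x) ∈ E := by
  obtain ⟨u, w, huw, h1, h3, -⟩ := hE.two hv
  have hs : ({u, w} : Finset V) ⊆ univ.filter (fun x => F.Adj v x) := by
    intro z hz
    simp only [mem_insert, mem_singleton] at hz
    simp only [mem_filter, mem_univ, true_and]
    rcases hz with rfl | rfl
    · exact hE.adj h1
    · exact hE.adj h3
  have hc : (univ.filter (fun x => F.Adj v x)).card ≤ ({u, w} : Finset V).card := by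
    rw [card_pair huw]
    exact (h2 v).le
  have he := eq_of_subset_of_card_le hs hc
  have hx' : x ∈ ({u, w} : Finset V) := by
    rw [he]
    simp only [mem_filter, mem_univ, true_and]
    exact hx
  simp only [mem_insert, mem_singleton] at hx'
  rcases hx' with rfl | rfl
  · exact h1
  · exact h3

/-- (W1b) PROOF. By (W1a) for the end `x` : if `x` were on `E`, `s(x, v) ∈ E`, so `v` is on `E`. -/
theorem not_on (h2 : ∀ v, dg F.Adj v = 2) {E : Finset (Sym2 V)} (hE : Cyc F T E) {v x : V} (hv : ¬ On v E)
    (hx : F.Adj v x) : ¬ On x E := by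
  intro h
  exact hv (on_right (closed h2 hE h hx.symm))

/-- (W1c) a vertex outside a cycle of the 2-factor `F ≤ G` has at least two neighbours of `G` outside. PROOF. `{x | F.Adj v x}` has
two elements and is contained in `{w | G.Adj v w ∧ ¬ On w E}` (W1b). -/
theorem two_le_out (hF : F ≤ G) (h2 : ∀ v, dg F.Adj v = 2) {E : Finset (Sym2 V)} (hE : Cyc F T E) {v : V}
    (hv : ¬ On v E) : 2 ≤ out G E v := by
  have h := h2 v
  unfold dg at h
  rw [← h]
  unfold out
  apply card_le_card
  intro w hw
  simp only [mem_filter, mem_univ, true_and] at hw ⊢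
  exact ⟨hF hw, not_on h2 hE hv hw⟩

/-- (W1d) if there are at most two, all of them are neighbours in `F`. PROOF. as (W1c), the subset of equal size is everything
(`eq_of_subset_of_card_le`). -/
theorem adj_of_out (hF : F ≤ G) (h2 : ∀ v, dg F.Adj v = 2) {E : Finset (Sym2 V)} (hE : Cyc F T E) {v w : V}
    (hv : ¬ On v E) (ho : out G E v ≤ 2) (hw : G.Adj v w) (hw' : ¬ On w E) : F.Adj v w := by
  have hs : univ.filter (fun x => F.Adj v x) ⊆ univ.filter (fun w => G.Adj v w ∧ ¬ On w E) := by
    intro w hw
    simp only [mem_filter, mem_univ, true_and] at hw ⊢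
    exact ⟨hF hw, not_on h2 hE hv hw⟩
  have hc : (univ.filter (fun w => G.Adj v w ∧ ¬ On w E)).card ≤
      (univ.filter (fun x => F.Adj v x)).card := by
    have h := h2 v
    unfold dg at h
    rw [h]
    exact ho
  have he := eq_of_subset_of_card_le hs hc
  have hw2 : w ∈ univ.filter (fun x => F.Adj v x) := by
    rw [he]
    simp only [mem_filter, mem_univ, true_and]
    exact ⟨hw, hw'⟩
  simpa only [mem_filter, mem_univ, true_and] using hw2

end SQF
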