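import Pool.Agent.SQF.W1

set_option autoImplicit false
set_option linter.unusedSectionVars false
set_option linter.unusedVariables false
set_option linter.unusedDecidableInType false

/-! [SQF-W2] the exchange step -/

open Finset
open scoped Classical

namespace SQF

variable {V : Type} [Fintype V] [DecidableEq V] {G F : SimpleGraph V} {T : Prop}

/-- the exchanged graph: remove `xy` and `ef`, add `ye` and `fx` -/
def sw (F : SimpleGraph V) (x y e f : V) : SimpleGraph V :=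
  SimpleGraph.fromRel (fun u v => (F.Adj u v ∧ s(u, v) ≠ s(x, y) ∧ s(u, v) ≠ s(e, f)) ∨ s(u, v) = s(y, e) ∨ s(u, v) = s(f, x))

/-- (W2a) PROOF. `fromRel_adj`; the relation is symmetric, and `y ≠ e`, `f ≠ x`. -/
theorem sw_adj {x y e f : V} (h1 : y ≠ e) (h2 : f ≠ x) (u v : V) : (sw F x y e f).Adj u v ↔
    (F.Adj u v ∧ s(u, v) ≠ s(x, y) ∧ s(u, v) ≠ s(e, f)) ∨ s(u, v) = s(y, e) ∨ s(u, v) = s(f, x) := by
  unfold sw
  rw [SimpleGraph.fromRel_adj]
  constructor
  · rintro ⟨hne, h | h⟩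
    · exact h
    · rw [Sym2.eq_swap (a := u) (b := v)]
      rcases h with ⟨k1, k2, k3⟩ | h | h
      · exact Or.inl ⟨k1.symm, k2, k3⟩
      · exact Or.inr (Or.inl h)
      · exact Or.inr (Or.inr h)
  · intro h
    refine ⟨?_, Or.inl h⟩
    rintro rfl
    rcases h with ⟨k1, k2, k3⟩ | h | h
    · exact k1.ne rfl
    · rw [Sym2.eq_iff] at h
      rcases h with ⟨k1, k2⟩ | ⟨k1, k2⟩
      · exact h1 (k1.symm.trans k2)
      · exact h1 (k2.symm.trans k1)
    · rw [Sym2.eq_iff] at h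
      rcases h with ⟨k1, k2⟩ | ⟨k1, k2⟩
      · exact h2 (k1.symm.trans k2)
      · exact h2 (k2.symm.trans k1)

theorem w2_sym1 {x y e f : V} : sw F y x f e = sw F x y e f := by
  unfold sw
  congr 1
  funext u v
  rw [Sym2.eq_swap (a := y) (b := x), Sym2.eq_swap (a := f) (b := e), Sym2.eq_swap (a := x) (b := f),
    Sym2.eq_swap (a := e) (b := y)]
  apply propext
  tauto

theorem w2_sym2 {x y e f : V} : sw F e f x y = sw F x y e f := by
  unfold sw
  congr 1
  funext u v
  apply propext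
  tauto

theorem w2_dg1 {x y e f : V} (n1 : x ≠ y) (n2 : x ≠ e) (n3 : x ≠ f) (n4 : y ≠ e) (h1 : F.Adj x y)
    (h2 : ¬ F.Adj x f) (h : dg F.Adj x = 2) : dg (sw F x y e f).Adj x = 2 := by
  have e1 : (univ.filter (fun u => (sw F x y e f).Adj x u)) =
      insert f ((univ.filter (fun u => F.Adj x u)).erase y) := by
    ext u
    simp only [mem_filter, mem_univ, true_and, mem_insert, mem_erase]
    rw [sw_adj n4 n3.symm]
    simp only [Sym2.eq_iff, ne_eq]
    constructor
    · rintro (⟨k1, k2, k3⟩ | k1 | k1)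
      · right
        refine ⟨?_, k1⟩
        rintro rfl
        exact k2 (Or.inl ⟨trivial, rfl⟩)
      · exfalso; tauto
      · left; tauto
    · rintro (rfl | ⟨k1, k2⟩)
      · tauto
      · left
        refine ⟨k2, ?_, ?_⟩
        · tauto
        · tauto
  unfold dg at h ⊢
  rw [e1, card_insert_of_notMem, card_erase_of_mem, h]
  · simp only [mem_filter, mem_univ, true_and]
    exact h1
  · simp only [mem_filter, mem_univ, true_and, mem_erase, not_and]
    exact fun _ => h2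

/-- (W2b) the degrees do not change. `x, y` on `E`, `e, f` not on `E`, all four different. PROOF. `v ∉ {x,y,e,f}`: the neighbourhoods are equal. `v = x`: the neighbours of `x` in `sw` are those of `F` except `y`, and `f` (`f` is no neighbour of `x` in
`F`: `f` is not on `E`, `not_on`/`closed`), so the neighbourhood is `insert f (N.erase y)`, with `y ∈ N`, `f ∉ N`: card 2. The same for `y` (`x` out, `e` in), `e` (`f` out, `y` in), `f` (`e` out, `x` in). -/
theorem sw_dg (h2 : ∀ v, dg F.Adj v = 2) {E : Finset (Sym2 V)} (hE : Cyc F T E) {x y e f : V}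
    (hxy : s(x, y) ∈ E) (he : ¬ On e E) (hf : ¬ On f E) (hef : F.Adj e f) (v : V) :
    dg (sw F x y e f).Adj v = 2 := by
  have hx : On x E := on_left hxy
  have hy : On y E := on_right hxy
  have axy : F.Adj x y := hE.adj hxy
  have nxe : x ≠ e := fun h => he (h ▸ hx)
  have nxf : x ≠ f := fun h => hf (h ▸ hx)
  have nye : y ≠ e := fun h => he (h ▸ hy)
  have nyf : y ≠ f := fun h => hf (h ▸ hy)
  have a1 : ¬ F.Adj x f := fun h => not_on h2 hE hf h.symm hx
  have a2 : ¬ F.Adj y e := fun h => not_on h2 hE he h.symm hy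
  by_cases v1 : v = x
  · subst v1
    exact w2_dg1 axy.ne nxe nxf nye axy a1 (h2 v)
  by_cases v2 : v = y
  · subst v2
    rw [← w2_sym1]
    exact w2_dg1 axy.ne.symm nyf nye nxf axy.symm a2 (h2 v)
  by_cases v3 : v = e
  · subst v3
    rw [← w2_sym2]
    exact w2_dg1 hef.ne nxe.symm nye.symm nxf.symm hef (fun h => a2 h.symm) (h2 v)
  by_cases v4 : v = f
  · subst v4
    rw [← w2_sym2, ← w2_sym1]
    exact w2_dg1 hef.ne.symm nyf.symm nxf.symm nye.symm hef.symm (fun h => a1 h.symm) (h2 v)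
  rw [← h2 v]
  unfold dg
  congr 1
  ext u
  simp only [mem_filter, mem_univ, true_and]
  rw [sw_adj nye nxf.symm]
  simp only [Sym2.eq_iff, ne_eq]
  tauto

/-- a path through the new edge `y e` is not in a short cycle -/
theorem w2_path (h2 : ∀ v, dg F.Adj v = 2) {E : Finset (Sym2 V)} (hE : Cyc F T E) {x y e f : V}
    (hxy : s(x, y) ∈ E) (he : ¬ On e E) (hf : ¬ On f E) (hef : F.Adj e f) {y' e' : V}
    (k1 : (sw F x y e f).Adj y y') (k2 : y' ≠ e) (k3 : (sw F x y e f).Adj e e') (k4 : e' ≠ y)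
    (k5 : y' = e' ∨ (sw F x y e f).Adj y' e') : False := by
  have hx : On x E := on_left hxy
  have hy : On y E := on_right hxy
  have axy : F.Adj x y := hE.adj hxy
  have nxe : x ≠ e := fun h => he (h ▸ hx)
  have nxf : x ≠ f := fun h => hf (h ▸ hx)
  have nye : y ≠ e := fun h => he (h ▸ hy)
  have nyf : y ≠ f := fun h => hf (h ▸ hy)
  rw [sw_adj nye nxf.symm] at k1 k3 k5
  simp only [Sym2.eq_iff, ne_eq] at k1 k3 k5
  have m1 : F.Adj y y' ∧ y' ≠ x := by
    rcases k1 with ⟨j1, j2, j3⟩ | (⟨j1, j2⟩ | ⟨j1, j2⟩) | (⟨j1, j2⟩ | ⟨j1, j2⟩)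
    · refine ⟨j1, fun h => j2 (Or.inr ⟨trivial, h⟩)⟩
    · exact absurd j2 k2
    · exact absurd j1 nye
    · exact absurd j1 nyf
    · exact absurd j1 axy.ne.symm
  have m2 : F.Adj e e' ∧ e' ≠ f := by
    rcases k3 with ⟨j1, j2, j3⟩ | (⟨j1, j2⟩ | ⟨j1, j2⟩) | (⟨j1, j2⟩ | ⟨j1, j2⟩)
    · refine ⟨j1, fun h => j3 (Or.inl ⟨trivial, h⟩)⟩
    · exact absurd j1 nye.symm
    · exact absurd j2 k4
    · exact absurd j1 hef.ne
    · exact absurd j1 nxe.symm
  have m3 : On y' E := on_right (closed h2 hE hy m1.1)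
  have m4 : ¬ On e' E := not_on h2 hE he m2.1
  rcases k5 with k5 | ⟨j1, j2, j3⟩ | (⟨j1, j2⟩ | ⟨j1, j2⟩) | (⟨j1, j2⟩ | ⟨j1, j2⟩)
  · exact m4 (k5 ▸ m3)
  · exact m4 (on_right (closed h2 hE m3 j1))
  · exact m1.1.ne j1.symm
  · exact k2 j1
  · exact hf (j1 ▸ m3)
  · exact m1.2 j1

theorem w2_no (h2 : ∀ v, dg F.Adj v = 2) {E : Finset (Sym2 V)} (hE : Cyc F T E) {x y e f : V}
    (hxy : s(x, y) ∈ E) (he : ¬ On e E) (hf : ¬ On f E) (hef : F.Adj e f) {E' : Finset (Sym2 V)}
    (hE' : Cyc (sw F x y e f) T E') (hye : s(y, e) ∈ E') : False := by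
  have key := fun y' e' => w2_path h2 hE hxy he hf hef (y' := y') (e' := e')
  rcases hE'.at (on_left hye) with ⟨_, p, q, h1, h3, h4, rfl⟩ | ⟨p, a, q, n1, n2, h1, h3, h4, h5, rfl⟩
  · simp only [mem_insert, mem_singleton, Sym2.eq_iff] at hye
    rcases hye with (⟨_, j⟩ | ⟨j, _⟩) | (⟨j, _⟩ | ⟨j, _⟩) | (⟨j, _⟩ | ⟨_, j⟩)
    · subst j
      exact key q q h4.symm h3.ne.symm h3 h4.ne (Or.inl rfl)
    · exact h1.ne j
    · exact h1.ne j
    · exact h4.ne j.symm
    · exact h4.ne j.symm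
    · subst j
      exact key p p h1 h3.ne h3.symm h1.ne.symm (Or.inl rfl)
  · simp only [mem_insert, mem_singleton, Sym2.eq_iff] at hye
    rcases hye with (⟨_, j⟩ | ⟨j, _⟩) | (⟨j, _⟩ | ⟨j, _⟩) | (⟨j, _⟩ | ⟨j, _⟩) | (⟨j, _⟩ | ⟨_, j⟩)
    · subst j
      exact key q a h5.symm n2.symm h3 n1.symm (Or.inr h4.symm)
    · exact h1.ne j
    · exact h1.ne j
    · exact n1 j
    · exact n1 j
    · exact h5.ne j.symm
    · exact h5.ne j.symm
    · subst j
      exact key p a h1 n2 h4.symm n1.symm (Or.inr h3)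

theorem w2_of_adj {E : Finset (Sym2 V)} (h : Cyc G T E) (hF : ∀ u v, s(u, v) ∈ E → G.Adj u v → F.Adj u v) :
    Cyc F T E := by
  rcases h with ⟨hT, a, b, c, h1, h2, h3, rfl⟩ | ⟨a, b, c, d, n1, n2, h1, h2, h3, h4, rfl⟩
  · exact Or.inl ⟨hT, a, b, c, hF _ _ (by simp) h1, hF _ _ (by simp) h2, hF _ _ (by simp) h3, rfl⟩
  · exact Or.inr ⟨a, b, c, d, n1, n2, hF _ _ (by simp) h1, hF _ _ (by simp) h2, hF _ _ (by simp) h3,
      hF _ _ (by simp) h4, rfl⟩

/-- (W2c) no new forbidden cycle. PROOF. Let `E'` be a cycle of `sw`. If neither `s(y,e)` nor `s(f,x)` is in `E'`, then all its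
edges are edges of `F` (unfold `Cyc`, or build it again from `Cyc.at`), so `Cyc F T E'`. Suppose `s(y,e) ∈ E'` (the other case is the same with `(x,y,e,f)` replaced by
`(y,x,f,e)`, `sw F y x f e = sw F x y e f`). By `Cyc.at` with centre `y` or directly: `E'` contains a path `y' y e e'` with `y' ≠ e`, `e' ≠ y`, `y'` a neighbour of `y` and `e'` a neighbour of `e` in `sw`, and either `y' = e'`
(triangle) or `y' e'` is an edge of `sw` (4-cycle). The neighbours of `y` in `sw` are `e` and the neighbours of `y` in `F` except `x`: so `y'` is a neighbour of `y` in `F`, `y' ≠ x`, on `E` (`closed`, W1). The neighbours of `e` in `sw` are `y` and the neighbours of `e` in `F` except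
`f`: `e'` is a neighbour of `e` in `F`, `e' ≠ f`, not on `E` (`not_on`). So `y' ≠ e'`. If `y' e'` were an edge of `sw`: it is none of the two new edges (`y' ≠ y`, `y' ≠ x`, and `y'` is on `E`, so `y' ≠ e, f`), so it is an edge of `F`, from a vertex on `E` to a vertex not on `E`: contradiction to `closed`. -/
theorem sw_cyc (h2 : ∀ v, dg F.Adj v = 2) {E : Finset (Sym2 V)} (hE : Cyc F T E) {x y e f : V}
    (hxy : s(x, y) ∈ E) (he : ¬ On e E) (hf : ¬ On f E) (hef : F.Adj e f) {E' : Finset (Sym2 V)}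
    (hE' : Cyc (sw F x y e f) T E') : Cyc F T E' := by
  have hx : On x E := on_left hxy
  have hy : On y E := on_right hxy
  have nxf : x ≠ f := fun h => hf (h ▸ hx)
  have nye : y ≠ e := fun h => he (h ▸ hy)
  refine w2_of_adj hE' ?_
  intro u v huv hadj
  rw [sw_adj nye nxf.symm] at hadj
  rcases hadj with h | h | h
  · exact h.1
  · exfalso
    rw [h] at huv
    exact w2_no h2 hE hxy he hf hef hE' huv
  · exfalso
    rw [h, Sym2.eq_swap] at huv
    rw [← w2_sym1] at hE'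
    exact w2_no h2 hE (by rw [Sym2.eq_swap]; exact hxy) hf he hef.symm hE' huv

end SQF
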