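import Pool.Agent.SQF.W2

set_option autoImplicit false
set_option linter.unusedSectionVars false
set_option linter.unusedVariables false
set_option linter.unusedDecidableInType false

/-! [SQF-W3] only the dangerous cycles matter -/

open Finset
open scoped Classical

namespace SQF

variable {V : Type} [Fintype V] [DecidableEq V] {G F : SimpleGraph V} {T : Prop}

/-- (W3a) the exchange step. PROOF. `Avoid G E`: first case contradicts `two_le_out` (W1). Second case: `x y e f`; `e` has at most two neighbours outside, so `F.Adj e f` (`adj_of_out`); take `F' = sw F x y e f` (W2): `F' ≤ G` (`sw_adj`; the new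
edges are edges of `G`), degrees `sw_dg`, no new cycle `sw_cyc`, and `E` is not a cycle of `F'` because `s(x,y) ∈ E` is not an edge of `F'` (`Cyc.adj`, `sw_adj`: `s(x,y) ≠ s(y,e), s(f,x)` as `x, y` are on `E` and `e, f` are not). -/
theorem step (hF : F ≤ G) (h2 : ∀ v, dg F.Adj v = 2) {E : Finset (Sym2 V)} (hE : Cyc F T E) (ha : Avoid G E) :
    ∃ F' : SimpleGraph V, F' ≤ G ∧ (∀ v, dg F'.Adj v = 2) ∧ (∀ E', Cyc F' T E' → Cyc F T E') ∧ ¬ Cyc F' T E := by
  rcases ha with ⟨e, he, ho⟩ | ⟨x, y, e, f, hxy, hye, hef, hfx, he, hf, ho⟩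
  · have := two_le_out hF h2 hE he
    omega
  · have hef' : F.Adj e f := adj_of_out hF h2 hE he ho hef hf
    have hx : On x E := on_left hxy
    have hy : On y E := on_right hxy
    have n1 : y ≠ e := hye.ne
    have n2 : f ≠ x := hfx.ne
    refine ⟨sw F x y e f, ?_, fun v => sw_dg h2 hE hxy he hf hef' v,
      fun E' hE' => sw_cyc h2 hE hxy he hf hef' hE', ?_⟩
    · intro u v huv
      rw [sw_adj n1 n2] at huv
      rcases huv with ⟨h, -, -⟩ | h | h
      · exact hF h
      · rw [Sym2.eq_iff] at h
        rcases h with ⟨rfl, rfl⟩ | ⟨rfl, rfl⟩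
        · exact hye
        · exact hye.symm
      · rw [Sym2.eq_iff] at h
        rcases h with ⟨rfl, rfl⟩ | ⟨rfl, rfl⟩
        · exact hfx
        · exact hfx.symm
    · intro h
      have h' := h.adj hxy
      rw [sw_adj n1 n2] at h'
      rcases h' with ⟨-, h, -⟩ | h | h
      · exact h rfl
      · rw [Sym2.eq_iff] at h
        rcases h with ⟨-, h⟩ | ⟨h, -⟩
        · exact n1 h
        · exact he (h ▸ hx)
      · rw [Sym2.eq_iff] at h
        rcases h with ⟨h, -⟩ | ⟨-, h⟩
        · exact n2 h.symm
        · exact hf (h ▸ hy)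

/-- (W3b) PROOF. Induction on the number of `E` with `Cyc F T E` (`(univ.filter (Cyc F T)).card`, strong induction over `n`, all `F`). If there is none: done. Otherwise take such an `E`; it is a cycle of `G` (`Cyc.mono`) and not dangerous (`hD`),
so `Avoid G E`; (W3a) gives `F'` with strictly fewer (the set of cycles of `F'` is a subset without `E`), and `hD` holds for `F'`. -/
theorem swap_red (hF : F ≤ G) (h2 : ∀ v, dg F.Adj v = 2) (hD : ∀ E, Cyc F T E → ¬ Dang G T E) :
    ∃ F' : SimpleGraph V, F' ≤ G ∧ (∀ v, dg F'.Adj v = 2) ∧ ∀ E, ¬ Cyc F' T E := by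
  have key : ∀ (n : ℕ) (F : SimpleGraph V), F ≤ G → (∀ v, dg F.Adj v = 2) →
      (∀ E, Cyc F T E → ¬ Dang G T E) →
      (univ.filter (fun E : Finset (Sym2 V) => Cyc F T E)).card = n →
      ∃ F' : SimpleGraph V, F' ≤ G ∧ (∀ v, dg F'.Adj v = 2) ∧ ∀ E, ¬ Cyc F' T E := by
    intro n
    induction n using Nat.strong_induction_on with
    | _ n ih =>
      intro F hF h2 hD hn
      by_cases hex : ∃ E, Cyc F T E
      · obtain ⟨E, hE⟩ := hex
        have ha : Avoid G E := by
          by_contra hc
          exact hD E hE ⟨Cyc.mono hF hE, hc⟩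
        obtain ⟨F', g1, g2, g3, g4⟩ := step hF h2 hE ha
        have hlt : (univ.filter (fun E : Finset (Sym2 V) => Cyc F' T E)).card < n := by
          rw [← hn]
          apply card_lt_card
          rw [ssubset_iff_of_subset]
          · exact ⟨E, by simp [hE], by simp [g4]⟩
          · intro E' hE'
            simp only [mem_filter, mem_univ, true_and] at hE' ⊢
            exact g3 E' hE'
        exact ih _ hlt F' g1 g2 (fun E' hE' => hD E' (g3 E' hE')) rfl
      · exact ⟨F, hF, h2, fun E hE => hex ⟨E, hE⟩⟩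
  exact key _ F hF h2 hD rfl

end SQF
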