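import Pool.Agent.SQF.P1
import Pool.Agent.SQF.W3
import Pool.Agent.SQF.G4
import Pool.Agent.SQF.G5
import Pool.Agent.SQF.N1

set_option autoImplicit false
set_option linter.unusedSectionVars false
set_option linter.unusedVariables false
set_option linter.unusedDecidableInType false

open Finset
open scoped Classical

namespace SQF

variable {V : Type} [Fintype V] [DecidableEq V]

theorem sg_sg (G : SimpleGraph V) (T : Prop) (C : Finset V) (n : Node G T C) : sg G T C (sg G T C n) = n := by
  rcases n with p | q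
  · rfl
  · simp [sg]

theorem sg_ne (G : SimpleGraph V) (T : Prop) (C : Finset V) (n : Node G T C) : sg G T C n ≠ n := by
  rcases n with p | q
  · intro h
    have h1 := congrArg Subtype.val (Sum.inl.inj h)
    have h2 : p.1.2 = p.1.1 := congrArg Prod.fst h1
    exact p.2.1.ne h2.symm
  · intro h
    have h1 := congrArg (fun q : {c : V // c ∈ C} × (V × Bool) => q.2.2) (Sum.inr.inj h)
    simp at h1

theorem main (G : SimpleGraph V) (T : Prop) (hG : Good G T) : (∃ C, Rep G T C) ∧ ∀ C, Rep G T C →
    ((∃ F : SimpleGraph V, F ≤ G ∧ (∀ v, dg F.Adj v = 2) ∧ ∀ E, ¬ Cyc F T E) ↔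
      ∃ M : (aux G T C).Subgraph, M.IsPerfectMatching) := by
  refine ⟨exists_rep hG, fun C hC => ?_⟩
  have h := pm_iff (V := V) (sg G T C) (st G T C) (sg_sg G T C) (sg_ne G T C)
  unfold aux
  rw [h]
  constructor
  · rintro ⟨F, hF, h2, hn⟩
    exact to_asg hG hC hF h2 hn
  · rintro ⟨φ, hφ, h2⟩
    obtain ⟨F, hF, h3, h4⟩ := of_asg hG hC φ hφ h2
    exact swap_red hF h3 h4

end SQF
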